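import Pool.Agent.TRD.St
import Pool.Agent.C8.Near

/-!
# TRD, module ANA (helper52): zeros on the circle give zeros for real `s > 1`.
-/

set_option autoImplicit false

open Filter Topology

namespace Pool.Agent.TRD

open Pool.Agent.C8

private theorem Ana_fin (b : ℤ) (hb : b ≠ 0) : {z : ℂ | z ^ b = 1}.Finite := by
  have hn : 0 < b.natAbs := Int.natAbs_pos.mpr hb
  refine Set.Finite.subset (Polynomial.nthRoots b.natAbs (1 : ℂ)).toFinset.finite_toSet ?_
  intro z hz
  rw [Finset.mem_coe, Multiset.mem_toFinset, Polynomial.mem_nthRoots hn]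
  rcases Int.natAbs_eq b with h | h
  · have h1 : z ^ (b.natAbs : ℤ) = 1 := by
      rw [← h]
      exact hz
    exact_mod_cast h1
  · have h1 : z ^ (-(b.natAbs : ℤ)) = 1 := by
      rw [← h]
      exact hz
    rw [zpow_neg, inv_eq_one] at h1
    exact_mod_cast h1

/-- the exceptional points -/
private def Ana_bad (B : Finset ℤ) : Set ℂ := {0} ∪ ⋃ b ∈ (B : Set ℤ), {z : ℂ | z ^ b = 1}

private theorem Ana_bad_fin (B : Finset ℤ) (hB : ∀ b ∈ B, b ≠ 0) : (Ana_bad B).Finite :=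
  (Set.finite_singleton 0).union
    (Set.Finite.biUnion B.finite_toSet fun b hb => Ana_fin b (hB b hb))

private theorem Ana_mem (B : Finset ℤ) (z : ℂ) (h0 : z ≠ 0) (h : ∀ b ∈ B, z ^ b ≠ 1) :
    z ∈ (Ana_bad B)ᶜ := by
  intro hz
  rcases hz with hz | hz
  · exact h0 hz
  · obtain ⟨b, hb, hzb⟩ := Set.mem_iUnion₂.mp hz
    exact h b hb hzb

private theorem Ana_of_mem (B : Finset ℤ) (z : ℂ) (h : z ∈ (Ana_bad B)ᶜ) :
    z ≠ 0 ∧ ∀ b ∈ B, z ^ b ≠ 1 := by
  refine ⟨fun h0 => h (Or.inl h0), fun b hb hzb => h (Or.inr ?_)⟩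
  exact Set.mem_iUnion₂.mpr ⟨b, hb, hzb⟩

private theorem Ana_cs (l : List ℤ) (z : ℂ) (h0 : z ≠ 0) (h : ∀ n ∈ l, z ^ n ≠ 1) :
    DifferentiableAt ℂ (cs l) z := by
  induction l with
  | nil =>
    have : cs [] = fun _ : ℂ => (0 : ℂ) := by
      funext w
      simp [cs]
    rw [this]
    exact differentiableAt_const _
  | cons n l ih =>
    have : cs (n :: l) = fun w : ℂ => (w ^ n - 1)⁻¹ + cs l w := by
      funext w
      simp [cs]
    rw [this]
    refine DifferentiableAt.add ?_ (ih fun m hm => h m (List.mem_cons_of_mem n hm))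
    refine DifferentiableAt.inv ?_ (sub_ne_zero.mpr (h n List.mem_cons_self))
    exact (differentiableAt_zpow.mpr (Or.inl h0)).sub_const 1

private theorem Ana_FL (l : Fin 7 → List ℤ) (z : ℂ) (h0 : z ≠ 0)
    (h : ∀ i, ∀ n ∈ l i, z ^ n ≠ 1) : DifferentiableAt ℂ (FL l) z := by
  have h1 := fun i => Ana_cs (l i) z h0 (h i)
  have a0 := h1 0
  have a1 := h1 1
  have a2 := h1 2
  have a3 := h1 3
  have a4 := h1 4
  have a5 := h1 5
  have a6 := h1 6
  have : FL l = fun w : ℂ => F7 (cs (l 0) w) (cs (l 1) w) (cs (l 2) w) (cs (l 3) w)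
      (cs (l 4) w) (cs (l 5) w) (cs (l 6) w) := rfl
  rw [this]
  unfold F7
  fun_prop

/-- **Module ANA** -/
theorem thm_Ana : St_Ana := by
  rintro l ⟨B, hB0, hlB, hvan⟩ s hs
  have hfin := Ana_bad_fin B hB0
  have hopen : IsOpen (Ana_bad B)ᶜ := hfin.isClosed.isOpen_compl
  have hconn : IsPreconnected (Ana_bad B)ᶜ := by
    have hrank : 1 < Module.rank ℝ ℂ := by
      rw [Complex.rank_real_complex]
      exact Cardinal.one_lt_two
    exact (hfin.countable.isPathConnected_compl_of_one_lt_rank hrank).isConnected.isPreconnected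
  have hdiff : DifferentiableOn ℂ (FL l) (Ana_bad B)ᶜ := by
    intro z hz
    obtain ⟨h0, h1⟩ := Ana_of_mem B z hz
    exact (Ana_FL l z h0 fun i n hn => h1 n (hlB i n hn)).differentiableWithinAt
  have hana := hdiff.analyticOnNhd hopen
  obtain ⟨z₀, -, hz₀n, -, hz₀⟩ := thm_Near 1 Set.univ B (by simp) isOpen_univ (Set.mem_univ _) hB0
  have hz₀0 : z₀ ≠ 0 := by
    intro h
    rw [h, norm_zero] at hz₀n
    exact zero_ne_one hz₀n
  have hz₀U := Ana_mem B z₀ hz₀0 hz₀
  have hfreq : ∃ᶠ z in 𝓝[≠] z₀, FL l z = 0 := by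
    rw [Filter.Frequently, eventually_nhdsWithin_iff, Metric.eventually_nhds_iff]
    rintro ⟨ε, hε, hU⟩
    obtain ⟨z, hzU, hzn, hne, hzB⟩ := thm_Near z₀ (Metric.ball z₀ ε) B hz₀n Metric.isOpen_ball
      (Metric.mem_ball_self hε) hB0
    exact hU (Metric.mem_ball.mp hzU) hne (hvan z hzn hzB)
  have hzero := hana.eqOn_zero_of_preconnected_of_frequently_eq_zero hconn hz₀U hfreq
  have hs0 : (s : ℂ) ≠ 0 := by
    intro h
    have : s = 0 := by exact_mod_cast h
    linarith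
  have hsU : (s : ℂ) ∈ (Ana_bad B)ᶜ := by
    refine Ana_mem B _ hs0 fun b hb h => hB0 b hb ?_
    have h1 : s ^ b = 1 := by exact_mod_cast h
    have h2 := zpow_right_injective₀ (lt_trans zero_lt_one hs) (ne_of_gt hs)
    exact h2 (by simpa using h1)
  exact hzero hsU

end Pool.Agent.TRD
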