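import Pool.Agent.TRD.St

/-!
# TRD, ARITH: the bilinear integer equations
-/

set_option autoImplicit false

namespace Pool.Agent.TRD

open Pool.Agent.C8

private theorem Arith_01 {e : ℤ} (h : 0 ≤ e) (g : e ≤ 1) : e = 0 ∨ e = 1 := by omega

private theorem Arith_0 {e : ℤ} (h : 0 ≤ e) : e = 0 ∨ 1 ≤ e := by omega

private theorem Arith_1 {e : ℤ} (h : 1 ≤ e) : e = 1 ∨ 2 ≤ e := by omega

private theorem Arith_25 (n p t T e3 e4 e6 e7 : ℤ) (hn : 1 ≤ n) (hp : 1 ≤ p) (ht : 0 ≤ t) (hT : 0 ≤ T)
    (htn : t ≤ n) (hTp : T ≤ p) (he3 : 0 ≤ e3) (ge3 : e3 ≤ 1) (he4 : 0 ≤ e4) (ge4 : e4 ≤ 1) (he6 : 0 ≤ e6) (ge6 : e6 ≤ 1) (he7 : 0 ≤ e7) (ge7 : e7 ≤ 1)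
    (hC : F7_D3 0 (-t) (-e3) (-e4) T e6 e7 = 0)
    (hQ : 2 * F7_E2 0 (-t) (-e3) (-e4) T e6 e7 + F7_M 0 (-t) (-e3) (-e4) T e6 e7 0 (-t - n) (-e3 - 1)
    (-e4 - 1) (T - p) (e6 - 1) (e7 - 1) = 0)
    (hs : ¬ F7_single 0 (-t) (-e3) (-e4) T e6 e7)
    (hz : ¬ (t = 0 ∧ e3 = 0 ∧ e4 = 0 ∧ T = 0 ∧ e6 = 0 ∧ e7 = 0)) :
    t = 1 ∧ e3 = 1 ∧ e6 = 1 ∧ e7 = 1 ∧ n = 1 ∧ (1 : ℤ) = 1 ∧ (1 : ℤ) = 1 ∧ (1 : ℤ) = 1 := by
  simp only [F7_D3, F7_E2, F7_M] at hC hQ
  unfold F7_single at hs
  rcases Arith_01 he3 ge3 with rfl | rfl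
  · rcases Arith_01 he4 ge4 with rfl | rfl
    · rcases Arith_01 he6 ge6 with rfl | rfl
      · rcases Arith_01 he7 ge7 with rfl | rfl
        · rcases Arith_0 ht with rfl | h1
          · rcases Arith_0 hT with rfl | h2
            · exfalso; clear hC hQ; omega
            · exfalso; clear hC hQ; omega
          · rcases Arith_0 hT with rfl | h2
            · exfalso; clear hC hQ; omega
            · exfalso; linarith only [hC, hQ, hn, hp, htn, hTp, h1, h2, mul_nonneg (sub_nonneg.2 h1) (sub_nonneg.2 h2), mul_nonneg (sub_nonneg.2 h1) (sub_nonneg.2 hTp), mul_nonneg (sub_nonneg.2 h2) (sub_nonneg.2 htn)]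
        · rcases Arith_0 ht with rfl | h1
          · rcases Arith_0 hT with rfl | h2
            · exfalso; clear hC hQ; omega
            · exfalso; linarith only [hC, hQ, hn, hp, htn, hTp, h2, mul_nonneg (sub_nonneg.2 h2) (sub_nonneg.2 hn)]
          · rcases Arith_0 hT with rfl | h2
            · exfalso; linarith only [hC, hQ, hn, hp, htn, hTp, h1, mul_nonneg (sub_nonneg.2 h1) (sub_nonneg.2 hp)]
            · exfalso; linarith only [hC, hQ, hn, hp, htn, hTp, h1, h2, mul_nonneg (sub_nonneg.2 h1) (sub_nonneg.2 h2), mul_nonneg (sub_nonneg.2 h1) (sub_nonneg.2 hTp), mul_nonneg (sub_nonneg.2 h2) (sub_nonneg.2 htn)]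
      · rcases Arith_01 he7 ge7 with rfl | rfl
        · rcases Arith_0 ht with rfl | h1
          · rcases Arith_0 hT with rfl | h2
            · exfalso; clear hC hQ; omega
            · exfalso; linarith only [hC, hQ, hn, hp, htn, hTp, h2, mul_nonneg (sub_nonneg.2 h2) (sub_nonneg.2 hn)]
          · rcases Arith_0 hT with rfl | h2
            · exfalso; linarith only [hC, hQ, hn, hp, htn, hTp, h1, mul_nonneg (sub_nonneg.2 h1) (sub_nonneg.2 hp)]
            · exfalso; linarith only [hC, hQ, hn, hp, htn, hTp, h1, h2, mul_nonneg (sub_nonneg.2 h1) (sub_nonneg.2 h2), mul_nonneg (sub_nonneg.2 h1) (sub_nonneg.2 hTp), mul_nonneg (sub_nonneg.2 h2) (sub_nonneg.2 htn)]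
        · rcases Arith_0 ht with rfl | h1
          · rcases Arith_0 hT with rfl | h2
            · exfalso; linarith only [hC, hQ, hn, hp, htn, hTp]
            · exfalso; linarith only [hC, hQ, hn, hp, htn, hTp, h2, mul_nonneg (sub_nonneg.2 h2) (sub_nonneg.2 hn)]
          · rcases Arith_0 hT with rfl | h2
            · exfalso; linarith only [hC, hQ, hn, hp, htn, hTp, h1, mul_nonneg (sub_nonneg.2 h1) (sub_nonneg.2 hp)]
            · exfalso; linarith only [hC, hQ, hn, hp, htn, hTp, h1, h2, mul_nonneg (sub_nonneg.2 h1) (sub_nonneg.2 h2), mul_nonneg (sub_nonneg.2 h1) (sub_nonneg.2 hTp), mul_nonneg (sub_nonneg.2 h2) (sub_nonneg.2 htn)]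
    · rcases Arith_01 he6 ge6 with rfl | rfl
      · rcases Arith_01 he7 ge7 with rfl | rfl
        · rcases Arith_0 ht with rfl | h1
          · rcases Arith_0 hT with rfl | h2
            · exfalso; clear hC hQ; omega
            · exfalso; linarith only [hC, hQ, hn, hp, htn, hTp, h2, mul_nonneg (sub_nonneg.2 h2) (sub_nonneg.2 hn)]
          · rcases Arith_0 hT with rfl | h2
            · exfalso; linarith only [hC, hQ, hn, hp, htn, hTp, h1, mul_nonneg (sub_nonneg.2 h1) (sub_nonneg.2 hp)]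
            · exfalso; linarith only [hC, hQ, hn, hp, htn, hTp, h1, h2, mul_nonneg (sub_nonneg.2 h1) (sub_nonneg.2 h2), mul_nonneg (sub_nonneg.2 h1) (sub_nonneg.2 hTp), mul_nonneg (sub_nonneg.2 h2) (sub_nonneg.2 htn)]
        · rcases Arith_0 ht with rfl | h1
          · rcases Arith_0 hT with rfl | h2
            · exfalso; linarith only [hC, hQ, hn, hp, htn, hTp]
            · exfalso; linarith only [hC, hQ, hn, hp, htn, hTp, h2, mul_nonneg (sub_nonneg.2 h2) (sub_nonneg.2 hn)]
          · rcases Arith_0 hT with rfl | h2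
            · exfalso; linarith only [hC, hQ, hn, hp, htn, hTp, h1, mul_nonneg (sub_nonneg.2 h1) (sub_nonneg.2 hp)]
            · exfalso; linarith only [hC, hQ, hn, hp, htn, hTp, h1, h2, mul_nonneg (sub_nonneg.2 h1) (sub_nonneg.2 h2), mul_nonneg (sub_nonneg.2 h1) (sub_nonneg.2 hTp), mul_nonneg (sub_nonneg.2 h2) (sub_nonneg.2 htn)]
      · rcases Arith_01 he7 ge7 with rfl | rfl
        · rcases Arith_0 ht with rfl | h1
          · rcases Arith_0 hT with rfl | h2
            · exfalso; linarith only [hC, hQ, hn, hp, htn, hTp]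
            · exfalso; linarith only [hC, hQ, hn, hp, htn, hTp, h2, mul_nonneg (sub_nonneg.2 h2) (sub_nonneg.2 hn)]
          · rcases Arith_0 hT with rfl | h2
            · exfalso; linarith only [hC, hQ, hn, hp, htn, hTp, h1, mul_nonneg (sub_nonneg.2 h1) (sub_nonneg.2 hp)]
            · exfalso; linarith only [hC, hQ, hn, hp, htn, hTp, h1, h2, mul_nonneg (sub_nonneg.2 h1) (sub_nonneg.2 h2), mul_nonneg (sub_nonneg.2 h1) (sub_nonneg.2 hTp), mul_nonneg (sub_nonneg.2 h2) (sub_nonneg.2 htn)]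
        · rcases Arith_0 ht with rfl | h1
          · rcases Arith_0 hT with rfl | h2
            · exfalso; linarith only [hC, hQ, hn, hp, htn, hTp]
            · exfalso; linarith only [hC, hQ, hn, hp, htn, hTp, h2, mul_nonneg (sub_nonneg.2 h2) (sub_nonneg.2 hn)]
          · rcases Arith_0 hT with rfl | h2
            · exfalso; linarith only [hC, hQ, hn, hp, htn, hTp, h1, mul_nonneg (sub_nonneg.2 h1) (sub_nonneg.2 hp)]
            · exfalso; linarith only [hC, hQ, hn, hp, htn, hTp, h1, h2, mul_nonneg (sub_nonneg.2 h1) (sub_nonneg.2 h2), mul_nonneg (sub_nonneg.2 h1) (sub_nonneg.2 hTp), mul_nonneg (sub_nonneg.2 h2) (sub_nonneg.2 htn)]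
  · rcases Arith_01 he4 ge4 with rfl | rfl
    · rcases Arith_01 he6 ge6 with rfl | rfl
      · rcases Arith_01 he7 ge7 with rfl | rfl
        · rcases Arith_0 ht with rfl | h1
          · rcases Arith_0 hT with rfl | h2
            · exfalso; clear hC hQ; omega
            · exfalso; linarith only [hC, hQ, hn, hp, htn, hTp, h2, mul_nonneg (sub_nonneg.2 h2) (sub_nonneg.2 hn)]
          · rcases Arith_0 hT with rfl | h2
            · exfalso; linarith only [hC, hQ, hn, hp, htn, hTp, h1, mul_nonneg (sub_nonneg.2 h1) (sub_nonneg.2 hp)]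
            · exfalso; linarith only [hC, hQ, hn, hp, htn, hTp, h1, h2, mul_nonneg (sub_nonneg.2 h1) (sub_nonneg.2 h2), mul_nonneg (sub_nonneg.2 h1) (sub_nonneg.2 hTp), mul_nonneg (sub_nonneg.2 h2) (sub_nonneg.2 htn)]
        · rcases Arith_0 ht with rfl | h1
          · rcases Arith_0 hT with rfl | h2
            · exfalso; linarith only [hC, hQ, hn, hp, htn, hTp]
            · exfalso; linarith only [hC, hQ, hn, hp, htn, hTp, h2, mul_nonneg (sub_nonneg.2 h2) (sub_nonneg.2 hn)]
          · rcases Arith_0 hT with rfl | h2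
            · exfalso; linarith only [hC, hQ, hn, hp, htn, hTp, h1, mul_nonneg (sub_nonneg.2 h1) (sub_nonneg.2 hp)]
            · exfalso; linarith only [hC, hQ, hn, hp, htn, hTp, h1, h2, mul_nonneg (sub_nonneg.2 h1) (sub_nonneg.2 h2), mul_nonneg (sub_nonneg.2 h1) (sub_nonneg.2 hTp), mul_nonneg (sub_nonneg.2 h2) (sub_nonneg.2 htn)]
      · rcases Arith_01 he7 ge7 with rfl | rfl
        · rcases Arith_0 ht with rfl | h1
          · rcases Arith_0 hT with rfl | h2
            · exfalso; linarith only [hC, hQ, hn, hp, htn, hTp]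
            · exfalso; linarith only [hC, hQ, hn, hp, htn, hTp, h2, mul_nonneg (sub_nonneg.2 h2) (sub_nonneg.2 hn)]
          · rcases Arith_0 hT with rfl | h2
            · exfalso; linarith only [hC, hQ, hn, hp, htn, hTp, h1, mul_nonneg (sub_nonneg.2 h1) (sub_nonneg.2 hp)]
            · exfalso; linarith only [hC, hQ, hn, hp, htn, hTp, h1, h2, mul_nonneg (sub_nonneg.2 h1) (sub_nonneg.2 h2), mul_nonneg (sub_nonneg.2 h1) (sub_nonneg.2 hTp), mul_nonneg (sub_nonneg.2 h2) (sub_nonneg.2 htn)]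
        · rcases Arith_0 ht with rfl | h1
          · rcases Arith_0 hT with rfl | h2
            · exfalso; linarith only [hC, hQ, hn, hp, htn, hTp]
            · exfalso; linarith only [hC, hQ, hn, hp, htn, hTp, h2, mul_nonneg (sub_nonneg.2 h2) (sub_nonneg.2 hn)]
          · rcases Arith_0 hT with rfl | h2
            · rcases Arith_1 h1 with rfl | h1b
              · rcases Arith_1 hn with rfl | h3
                · clear hC hQ hs hz; refine ⟨?_, ?_, ?_, ?_, ?_, ?_, ?_, ?_⟩ <;> omega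
                · exfalso; linarith only [hC, hQ, hn, hp, htn, hTp, h3]
              · exfalso; linarith only [hC, hQ, hn, hp, htn, hTp, h1, h1b, mul_nonneg (sub_nonneg.2 h1) (sub_nonneg.2 hp)]
            · rcases Arith_1 h1 with rfl | h1b
              · rcases Arith_1 h2 with rfl | h2b
                · rcases Arith_1 hn with rfl | h3
                  · clear hC hQ hs hz; refine ⟨?_, ?_, ?_, ?_, ?_, ?_, ?_, ?_⟩ <;> omega
                  · exfalso; linarith only [hC, hQ, hn, hp, htn, hTp, h3]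
                · rcases Arith_1 hn with rfl | h3
                  · clear hC hQ hs hz; refine ⟨?_, ?_, ?_, ?_, ?_, ?_, ?_, ?_⟩ <;> omega
                  · exfalso; linarith only [hC, hQ, hn, hp, htn, hTp, h2, h2b, h3, mul_nonneg (sub_nonneg.2 h2) (sub_nonneg.2 hn)]
              · exfalso; linarith only [hC, hQ, hn, hp, htn, hTp, h1, h2, h1b, mul_nonneg (sub_nonneg.2 h1) (sub_nonneg.2 h2), mul_nonneg (sub_nonneg.2 h1) (sub_nonneg.2 hTp), mul_nonneg (sub_nonneg.2 h2) (sub_nonneg.2 htn)]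
    · rcases Arith_01 he6 ge6 with rfl | rfl
      · rcases Arith_01 he7 ge7 with rfl | rfl
        · rcases Arith_0 ht with rfl | h1
          · rcases Arith_0 hT with rfl | h2
            · exfalso; linarith only [hC, hQ, hn, hp, htn, hTp]
            · exfalso; linarith only [hC, hQ, hn, hp, htn, hTp, h2, mul_nonneg (sub_nonneg.2 h2) (sub_nonneg.2 hn)]
          · rcases Arith_0 hT with rfl | h2
            · exfalso; linarith only [hC, hQ, hn, hp, htn, hTp, h1, mul_nonneg (sub_nonneg.2 h1) (sub_nonneg.2 hp)]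
            · exfalso; linarith only [hC, hQ, hn, hp, htn, hTp, h1, h2, mul_nonneg (sub_nonneg.2 h1) (sub_nonneg.2 h2), mul_nonneg (sub_nonneg.2 h1) (sub_nonneg.2 hTp), mul_nonneg (sub_nonneg.2 h2) (sub_nonneg.2 htn)]
        · rcases Arith_0 ht with rfl | h1
          · rcases Arith_0 hT with rfl | h2
            · exfalso; linarith only [hC, hQ, hn, hp, htn, hTp]
            · exfalso; linarith only [hC, hQ, hn, hp, htn, hTp, h2, mul_nonneg (sub_nonneg.2 h2) (sub_nonneg.2 hn)]
          · rcases Arith_0 hT with rfl | h2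
            · exfalso; linarith only [hC, hQ, hn, hp, htn, hTp, h1, mul_nonneg (sub_nonneg.2 h1) (sub_nonneg.2 hp)]
            · exfalso; linarith only [hC, hQ, hn, hp, htn, hTp, h1, h2, mul_nonneg (sub_nonneg.2 h1) (sub_nonneg.2 h2), mul_nonneg (sub_nonneg.2 h1) (sub_nonneg.2 hTp), mul_nonneg (sub_nonneg.2 h2) (sub_nonneg.2 htn)]
      · rcases Arith_01 he7 ge7 with rfl | rfl
        · rcases Arith_0 ht with rfl | h1
          · rcases Arith_0 hT with rfl | h2
            · exfalso; linarith only [hC, hQ, hn, hp, htn, hTp]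
            · exfalso; linarith only [hC, hQ, hn, hp, htn, hTp, h2, mul_nonneg (sub_nonneg.2 h2) (sub_nonneg.2 hn)]
          · rcases Arith_0 hT with rfl | h2
            · exfalso; linarith only [hC, hQ, hn, hp, htn, hTp, h1, mul_nonneg (sub_nonneg.2 h1) (sub_nonneg.2 hp)]
            · exfalso; linarith only [hC, hQ, hn, hp, htn, hTp, h1, h2, mul_nonneg (sub_nonneg.2 h1) (sub_nonneg.2 h2), mul_nonneg (sub_nonneg.2 h1) (sub_nonneg.2 hTp), mul_nonneg (sub_nonneg.2 h2) (sub_nonneg.2 htn)]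
        · rcases Arith_0 ht with rfl | h1
          · rcases Arith_0 hT with rfl | h2
            · exfalso; linarith only [hC, hQ, hn, hp, htn, hTp]
            · exfalso; linarith only [hC, hQ, hn, hp, htn, hTp, h2, mul_nonneg (sub_nonneg.2 h2) (sub_nonneg.2 hn)]
          · rcases Arith_0 hT with rfl | h2
            · rcases Arith_1 h1 with rfl | h1b
              · rcases Arith_1 hn with rfl | h3
                · clear hC hQ hs hz; refine ⟨?_, ?_, ?_, ?_, ?_, ?_, ?_, ?_⟩ <;> omega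
                · exfalso; linarith only [hC, hQ, hn, hp, htn, hTp, h3]
              · exfalso; linarith only [hC, hQ, hn, hp, htn, hTp, h1, h1b, mul_nonneg (sub_nonneg.2 h1) (sub_nonneg.2 hp)]
            · exfalso; nlinarith only [hC, hQ, hn, hp, htn, hTp, h1, h2, mul_nonneg (sub_nonneg.2 h1) (sub_nonneg.2 h2), mul_nonneg (sub_nonneg.2 h1) (sub_nonneg.2 hTp), mul_nonneg (sub_nonneg.2 h2) (sub_nonneg.2 htn)]

private theorem Arith_26 (n p t T e3 e4 e5 e7 : ℤ) (hn : 1 ≤ n) (hp : 1 ≤ p) (ht : 0 ≤ t) (hT : 0 ≤ T)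
    (htn : t ≤ n) (hTp : T ≤ p) (he3 : 0 ≤ e3) (ge3 : e3 ≤ 1) (he4 : 0 ≤ e4) (ge4 : e4 ≤ 1) (he5 : 0 ≤ e5) (ge5 : e5 ≤ 1) (he7 : 0 ≤ e7) (ge7 : e7 ≤ 1)
    (hC : F7_D3 0 (-t) (-e3) (-e4) e5 T e7 = 0)
    (hQ : 2 * F7_E2 0 (-t) (-e3) (-e4) e5 T e7 + F7_M 0 (-t) (-e3) (-e4) e5 T e7 0 (-t - n) (-e3 - 1)
    (-e4 - 1) (e5 - 1) (T - p) (e7 - 1) = 0)
    (hs : ¬ F7_single 0 (-t) (-e3) (-e4) e5 T e7)
    (hz : ¬ (t = 0 ∧ e3 = 0 ∧ e4 = 0 ∧ e5 = 0 ∧ T = 0 ∧ e7 = 0)) :
    t = 1 ∧ e3 = 1 ∧ T = 1 ∧ e7 = 1 ∧ n = 1 ∧ (1 : ℤ) = 1 ∧ p = 1 ∧ (1 : ℤ) = 1 := by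
  simp only [F7_D3, F7_E2, F7_M] at hC hQ
  unfold F7_single at hs
  rcases Arith_01 he3 ge3 with rfl | rfl
  · rcases Arith_01 he4 ge4 with rfl | rfl
    · rcases Arith_01 he5 ge5 with rfl | rfl
      · rcases Arith_01 he7 ge7 with rfl | rfl
        · rcases Arith_0 ht with rfl | h1
          · rcases Arith_0 hT with rfl | h2
            · exfalso; clear hC hQ; omega
            · exfalso; clear hC hQ; omega
          · rcases Arith_0 hT with rfl | h2
            · exfalso; clear hC hQ; omega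
            · exfalso; linarith only [hC, hQ, hn, hp, htn, hTp, h1, h2, mul_nonneg (sub_nonneg.2 h1) (sub_nonneg.2 h2), mul_nonneg (sub_nonneg.2 h1) (sub_nonneg.2 hTp), mul_nonneg (sub_nonneg.2 h2) (sub_nonneg.2 htn)]
        · rcases Arith_0 ht with rfl | h1
          · rcases Arith_0 hT with rfl | h2
            · exfalso; clear hC hQ; omega
            · exfalso; linarith only [hC, hQ, hn, hp, htn, hTp, h2, mul_nonneg (sub_nonneg.2 h2) (sub_nonneg.2 hn)]
          · rcases Arith_0 hT with rfl | h2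
            · exfalso; linarith only [hC, hQ, hn, hp, htn, hTp, h1, mul_nonneg (sub_nonneg.2 h1) (sub_nonneg.2 hp)]
            · exfalso; linarith only [hC, hQ, hn, hp, htn, hTp, h1, h2, mul_nonneg (sub_nonneg.2 h1) (sub_nonneg.2 h2), mul_nonneg (sub_nonneg.2 h1) (sub_nonneg.2 hTp), mul_nonneg (sub_nonneg.2 h2) (sub_nonneg.2 htn)]
      · rcases Arith_01 he7 ge7 with rfl | rfl
        · rcases Arith_0 ht with rfl | h1
          · rcases Arith_0 hT with rfl | h2
            · exfalso; clear hC hQ; omega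
            · exfalso; linarith only [hC, hQ, hn, hp, htn, hTp, h2, mul_nonneg (sub_nonneg.2 h2) (sub_nonneg.2 hn)]
          · rcases Arith_0 hT with rfl | h2
            · exfalso; linarith only [hC, hQ, hn, hp, htn, hTp, h1, mul_nonneg (sub_nonneg.2 h1) (sub_nonneg.2 hp)]
            · exfalso; linarith only [hC, hQ, hn, hp, htn, hTp, h1, h2, mul_nonneg (sub_nonneg.2 h1) (sub_nonneg.2 h2), mul_nonneg (sub_nonneg.2 h1) (sub_nonneg.2 hTp), mul_nonneg (sub_nonneg.2 h2) (sub_nonneg.2 htn)]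
        · rcases Arith_0 ht with rfl | h1
          · rcases Arith_0 hT with rfl | h2
            · exfalso; linarith only [hC, hQ, hn, hp, htn, hTp]
            · exfalso; linarith only [hC, hQ, hn, hp, htn, hTp, h2, mul_nonneg (sub_nonneg.2 h2) (sub_nonneg.2 hn)]
          · rcases Arith_0 hT with rfl | h2
            · exfalso; linarith only [hC, hQ, hn, hp, htn, hTp, h1, mul_nonneg (sub_nonneg.2 h1) (sub_nonneg.2 hp)]
            · exfalso; linarith only [hC, hQ, hn, hp, htn, hTp, h1, h2, mul_nonneg (sub_nonneg.2 h1) (sub_nonneg.2 h2), mul_nonneg (sub_nonneg.2 h1) (sub_nonneg.2 hTp), mul_nonneg (sub_nonneg.2 h2) (sub_nonneg.2 htn)]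
    · rcases Arith_01 he5 ge5 with rfl | rfl
      · rcases Arith_01 he7 ge7 with rfl | rfl
        · rcases Arith_0 ht with rfl | h1
          · rcases Arith_0 hT with rfl | h2
            · exfalso; clear hC hQ; omega
            · exfalso; linarith only [hC, hQ, hn, hp, htn, hTp, h2, mul_nonneg (sub_nonneg.2 h2) (sub_nonneg.2 hn)]
          · rcases Arith_0 hT with rfl | h2
            · exfalso; linarith only [hC, hQ, hn, hp, htn, hTp, h1, mul_nonneg (sub_nonneg.2 h1) (sub_nonneg.2 hp)]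
            · exfalso; linarith only [hC, hQ, hn, hp, htn, hTp, h1, h2, mul_nonneg (sub_nonneg.2 h1) (sub_nonneg.2 h2), mul_nonneg (sub_nonneg.2 h1) (sub_nonneg.2 hTp), mul_nonneg (sub_nonneg.2 h2) (sub_nonneg.2 htn)]
        · rcases Arith_0 ht with rfl | h1
          · rcases Arith_0 hT with rfl | h2
            · exfalso; linarith only [hC, hQ, hn, hp, htn, hTp]
            · exfalso; linarith only [hC, hQ, hn, hp, htn, hTp, h2, mul_nonneg (sub_nonneg.2 h2) (sub_nonneg.2 hn)]
          · rcases Arith_0 hT with rfl | h2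
            · exfalso; linarith only [hC, hQ, hn, hp, htn, hTp, h1, mul_nonneg (sub_nonneg.2 h1) (sub_nonneg.2 hp)]
            · exfalso; linarith only [hC, hQ, hn, hp, htn, hTp, h1, h2, mul_nonneg (sub_nonneg.2 h1) (sub_nonneg.2 h2), mul_nonneg (sub_nonneg.2 h1) (sub_nonneg.2 hTp), mul_nonneg (sub_nonneg.2 h2) (sub_nonneg.2 htn)]
      · rcases Arith_01 he7 ge7 with rfl | rfl
        · rcases Arith_0 ht with rfl | h1
          · rcases Arith_0 hT with rfl | h2
            · exfalso; linarith only [hC, hQ, hn, hp, htn, hTp]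
            · exfalso; linarith only [hC, hQ, hn, hp, htn, hTp, h2, mul_nonneg (sub_nonneg.2 h2) (sub_nonneg.2 hn)]
          · rcases Arith_0 hT with rfl | h2
            · exfalso; linarith only [hC, hQ, hn, hp, htn, hTp, h1, mul_nonneg (sub_nonneg.2 h1) (sub_nonneg.2 hp)]
            · exfalso; linarith only [hC, hQ, hn, hp, htn, hTp, h1, h2, mul_nonneg (sub_nonneg.2 h1) (sub_nonneg.2 h2), mul_nonneg (sub_nonneg.2 h1) (sub_nonneg.2 hTp), mul_nonneg (sub_nonneg.2 h2) (sub_nonneg.2 htn)]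
        · rcases Arith_0 ht with rfl | h1
          · rcases Arith_0 hT with rfl | h2
            · exfalso; linarith only [hC, hQ, hn, hp, htn, hTp]
            · exfalso; linarith only [hC, hQ, hn, hp, htn, hTp, h2, mul_nonneg (sub_nonneg.2 h2) (sub_nonneg.2 hn)]
          · rcases Arith_0 hT with rfl | h2
            · exfalso; linarith only [hC, hQ, hn, hp, htn, hTp, h1, mul_nonneg (sub_nonneg.2 h1) (sub_nonneg.2 hp)]
            · exfalso; linarith only [hC, hQ, hn, hp, htn, hTp, h1, h2, mul_nonneg (sub_nonneg.2 h1) (sub_nonneg.2 h2), mul_nonneg (sub_nonneg.2 h1) (sub_nonneg.2 hTp), mul_nonneg (sub_nonneg.2 h2) (sub_nonneg.2 htn)]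
  · rcases Arith_01 he4 ge4 with rfl | rfl
    · rcases Arith_01 he5 ge5 with rfl | rfl
      · rcases Arith_01 he7 ge7 with rfl | rfl
        · rcases Arith_0 ht with rfl | h1
          · rcases Arith_0 hT with rfl | h2
            · exfalso; clear hC hQ; omega
            · exfalso; linarith only [hC, hQ, hn, hp, htn, hTp, h2, mul_nonneg (sub_nonneg.2 h2) (sub_nonneg.2 hn)]
          · rcases Arith_0 hT with rfl | h2
            · exfalso; linarith only [hC, hQ, hn, hp, htn, hTp, h1, mul_nonneg (sub_nonneg.2 h1) (sub_nonneg.2 hp)]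
            · exfalso; linarith only [hC, hQ, hn, hp, htn, hTp, h1, h2, mul_nonneg (sub_nonneg.2 h1) (sub_nonneg.2 h2), mul_nonneg (sub_nonneg.2 h1) (sub_nonneg.2 hTp), mul_nonneg (sub_nonneg.2 h2) (sub_nonneg.2 htn)]
        · rcases Arith_0 ht with rfl | h1
          · rcases Arith_0 hT with rfl | h2
            · exfalso; linarith only [hC, hQ, hn, hp, htn, hTp]
            · exfalso; linarith only [hC, hQ, hn, hp, htn, hTp, h2, mul_nonneg (sub_nonneg.2 h2) (sub_nonneg.2 hn)]
          · rcases Arith_0 hT with rfl | h2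
            · exfalso; linarith only [hC, hQ, hn, hp, htn, hTp, h1, mul_nonneg (sub_nonneg.2 h1) (sub_nonneg.2 hp)]
            · rcases Arith_1 h1 with rfl | h1b
              · rcases Arith_1 h2 with rfl | h2b
                · rcases Arith_1 hn with rfl | h3
                  · rcases Arith_1 hp with rfl | h4
                    · clear hC hQ hs hz; refine ⟨?_, ?_, ?_, ?_, ?_, ?_, ?_, ?_⟩ <;> omega
                    · exfalso; linarith only [hC, hQ, hn, hp, htn, hTp, h4]
                  · exfalso; linarith only [hC, hQ, hn, hp, htn, hTp, h3]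
                · exfalso; linarith only [hC, hQ, hn, hp, htn, hTp, h2, h2b, mul_nonneg (sub_nonneg.2 h2) (sub_nonneg.2 hn)]
              · exfalso; linarith only [hC, hQ, hn, hp, htn, hTp, h1, h2, h1b, mul_nonneg (sub_nonneg.2 h1) (sub_nonneg.2 h2), mul_nonneg (sub_nonneg.2 h1) (sub_nonneg.2 hTp), mul_nonneg (sub_nonneg.2 h2) (sub_nonneg.2 htn)]
      · rcases Arith_01 he7 ge7 with rfl | rfl
        · rcases Arith_0 ht with rfl | h1
          · rcases Arith_0 hT with rfl | h2
            · exfalso; linarith only [hC, hQ, hn, hp, htn, hTp]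
            · exfalso; linarith only [hC, hQ, hn, hp, htn, hTp, h2, mul_nonneg (sub_nonneg.2 h2) (sub_nonneg.2 hn)]
          · rcases Arith_0 hT with rfl | h2
            · exfalso; linarith only [hC, hQ, hn, hp, htn, hTp, h1, mul_nonneg (sub_nonneg.2 h1) (sub_nonneg.2 hp)]
            · exfalso; linarith only [hC, hQ, hn, hp, htn, hTp, h1, h2, mul_nonneg (sub_nonneg.2 h1) (sub_nonneg.2 h2), mul_nonneg (sub_nonneg.2 h1) (sub_nonneg.2 hTp), mul_nonneg (sub_nonneg.2 h2) (sub_nonneg.2 htn)]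
        · rcases Arith_0 ht with rfl | h1
          · rcases Arith_0 hT with rfl | h2
            · exfalso; linarith only [hC, hQ, hn, hp, htn, hTp]
            · exfalso; linarith only [hC, hQ, hn, hp, htn, hTp, h2, mul_nonneg (sub_nonneg.2 h2) (sub_nonneg.2 hn)]
          · rcases Arith_0 hT with rfl | h2
            · exfalso; linarith only [hC, hQ, hn, hp, htn, hTp, h1, mul_nonneg (sub_nonneg.2 h1) (sub_nonneg.2 hp)]
            · rcases Arith_1 h1 with rfl | h1b
              · rcases Arith_1 h2 with rfl | h2b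
                · rcases Arith_1 hn with rfl | h3
                  · rcases Arith_1 hp with rfl | h4
                    · clear hC hQ hs hz; refine ⟨?_, ?_, ?_, ?_, ?_, ?_, ?_, ?_⟩ <;> omega
                    · exfalso; linarith only [hC, hQ, hn, hp, htn, hTp, h4]
                  · exfalso; linarith only [hC, hQ, hn, hp, htn, hTp, h3]
                · exfalso; linarith only [hC, hQ, hn, hp, htn, hTp, h2, h2b, mul_nonneg (sub_nonneg.2 h2) (sub_nonneg.2 hn)]
              · exfalso; nlinarith only [hC, hQ, hn, hp, htn, hTp, h1, h2, h1b, mul_nonneg (sub_nonneg.2 h1) (sub_nonneg.2 h2), mul_nonneg (sub_nonneg.2 h1) (sub_nonneg.2 hTp), mul_nonneg (sub_nonneg.2 h2) (sub_nonneg.2 htn)]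
    · rcases Arith_01 he5 ge5 with rfl | rfl
      · rcases Arith_01 he7 ge7 with rfl | rfl
        · rcases Arith_0 ht with rfl | h1
          · rcases Arith_0 hT with rfl | h2
            · exfalso; linarith only [hC, hQ, hn, hp, htn, hTp]
            · exfalso; linarith only [hC, hQ, hn, hp, htn, hTp, h2, mul_nonneg (sub_nonneg.2 h2) (sub_nonneg.2 hn)]
          · rcases Arith_0 hT with rfl | h2
            · exfalso; linarith only [hC, hQ, hn, hp, htn, hTp, h1, mul_nonneg (sub_nonneg.2 h1) (sub_nonneg.2 hp)]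
            · exfalso; linarith only [hC, hQ, hn, hp, htn, hTp, h1, h2, mul_nonneg (sub_nonneg.2 h1) (sub_nonneg.2 h2), mul_nonneg (sub_nonneg.2 h1) (sub_nonneg.2 hTp), mul_nonneg (sub_nonneg.2 h2) (sub_nonneg.2 htn)]
        · rcases Arith_0 ht with rfl | h1
          · rcases Arith_0 hT with rfl | h2
            · exfalso; linarith only [hC, hQ, hn, hp, htn, hTp]
            · exfalso; linarith only [hC, hQ, hn, hp, htn, hTp, h2, mul_nonneg (sub_nonneg.2 h2) (sub_nonneg.2 hn)]
          · rcases Arith_0 hT with rfl | h2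
            · exfalso; linarith only [hC, hQ, hn, hp, htn, hTp, h1, mul_nonneg (sub_nonneg.2 h1) (sub_nonneg.2 hp)]
            · rcases Arith_1 h1 with rfl | h1b
              · rcases Arith_1 h2 with rfl | h2b
                · rcases Arith_1 hn with rfl | h3
                  · rcases Arith_1 hp with rfl | h4
                    · clear hC hQ hs hz; refine ⟨?_, ?_, ?_, ?_, ?_, ?_, ?_, ?_⟩ <;> omega
                    · exfalso; linarith only [hC, hQ, hn, hp, htn, hTp, h4]
                  · exfalso; linarith only [hC, hQ, hn, hp, htn, hTp, h3]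
                · exfalso; linarith only [hC, hQ, hn, hp, htn, hTp, h2, h2b, mul_nonneg (sub_nonneg.2 h2) (sub_nonneg.2 hn)]
              · exfalso; linarith only [hC, hQ, hn, hp, htn, hTp, h1, h2, h1b, mul_nonneg (sub_nonneg.2 h1) (sub_nonneg.2 h2), mul_nonneg (sub_nonneg.2 h1) (sub_nonneg.2 hTp), mul_nonneg (sub_nonneg.2 h2) (sub_nonneg.2 htn)]
      · rcases Arith_01 he7 ge7 with rfl | rfl
        · rcases Arith_0 ht with rfl | h1
          · rcases Arith_0 hT with rfl | h2
            · exfalso; linarith only [hC, hQ, hn, hp, htn, hTp]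
            · exfalso; linarith only [hC, hQ, hn, hp, htn, hTp, h2, mul_nonneg (sub_nonneg.2 h2) (sub_nonneg.2 hn)]
          · rcases Arith_0 hT with rfl | h2
            · exfalso; linarith only [hC, hQ, hn, hp, htn, hTp, h1, mul_nonneg (sub_nonneg.2 h1) (sub_nonneg.2 hp)]
            · exfalso; linarith only [hC, hQ, hn, hp, htn, hTp, h1, h2, mul_nonneg (sub_nonneg.2 h1) (sub_nonneg.2 h2), mul_nonneg (sub_nonneg.2 h1) (sub_nonneg.2 hTp), mul_nonneg (sub_nonneg.2 h2) (sub_nonneg.2 htn)]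
        · rcases Arith_0 ht with rfl | h1
          · rcases Arith_0 hT with rfl | h2
            · exfalso; linarith only [hC, hQ, hn, hp, htn, hTp]
            · exfalso; linarith only [hC, hQ, hn, hp, htn, hTp, h2, mul_nonneg (sub_nonneg.2 h2) (sub_nonneg.2 hn)]
          · rcases Arith_0 hT with rfl | h2
            · exfalso; linarith only [hC, hQ, hn, hp, htn, hTp, h1, mul_nonneg (sub_nonneg.2 h1) (sub_nonneg.2 hp)]
            · exfalso; nlinarith only [hC, hQ, hn, hp, htn, hTp, h1, h2, mul_nonneg (sub_nonneg.2 h1) (sub_nonneg.2 h2), mul_nonneg (sub_nonneg.2 h1) (sub_nonneg.2 hTp), mul_nonneg (sub_nonneg.2 h2) (sub_nonneg.2 htn)]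

private theorem Arith_27 (n p t T e3 e4 e5 e6 : ℤ) (hn : 1 ≤ n) (hp : 1 ≤ p) (ht : 0 ≤ t) (hT : 0 ≤ T)
    (htn : t ≤ n) (hTp : T ≤ p) (he3 : 0 ≤ e3) (ge3 : e3 ≤ 1) (he4 : 0 ≤ e4) (ge4 : e4 ≤ 1) (he5 : 0 ≤ e5) (ge5 : e5 ≤ 1) (he6 : 0 ≤ e6) (ge6 : e6 ≤ 1)
    (hC : F7_D3 0 (-t) (-e3) (-e4) e5 e6 T = 0)
    (hQ : 2 * F7_E2 0 (-t) (-e3) (-e4) e5 e6 T + F7_M 0 (-t) (-e3) (-e4) e5 e6 T 0 (-t - n) (-e3 - 1)
    (-e4 - 1) (e5 - 1) (e6 - 1) (T - p) = 0)
    (hs : ¬ F7_single 0 (-t) (-e3) (-e4) e5 e6 T)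
    (hz : ¬ (t = 0 ∧ e3 = 0 ∧ e4 = 0 ∧ e5 = 0 ∧ e6 = 0 ∧ T = 0)) :
    t = 1 ∧ e3 = 1 ∧ e6 = 1 ∧ T = 1 ∧ n = 1 ∧ (1 : ℤ) = 1 ∧ (1 : ℤ) = 1 ∧ p = 1 := by
  simp only [F7_D3, F7_E2, F7_M] at hC hQ
  unfold F7_single at hs
  rcases Arith_01 he3 ge3 with rfl | rfl
  · rcases Arith_01 he4 ge4 with rfl | rfl
    · rcases Arith_01 he5 ge5 with rfl | rfl
      · rcases Arith_01 he6 ge6 with rfl | rfl
        · rcases Arith_0 ht with rfl | h1
          · rcases Arith_0 hT with rfl | h2
            · exfalso; clear hC hQ; omega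
            · exfalso; clear hC hQ; omega
          · rcases Arith_0 hT with rfl | h2
            · exfalso; clear hC hQ; omega
            · exfalso; linarith only [hC, hQ, hn, hp, htn, hTp, h1, h2, mul_nonneg (sub_nonneg.2 h1) (sub_nonneg.2 h2), mul_nonneg (sub_nonneg.2 h1) (sub_nonneg.2 hTp), mul_nonneg (sub_nonneg.2 h2) (sub_nonneg.2 htn)]
        · rcases Arith_0 ht with rfl | h1
          · rcases Arith_0 hT with rfl | h2
            · exfalso; clear hC hQ; omega
            · exfalso; linarith only [hC, hQ, hn, hp, htn, hTp, h2, mul_nonneg (sub_nonneg.2 h2) (sub_nonneg.2 hn)]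
          · rcases Arith_0 hT with rfl | h2
            · exfalso; linarith only [hC, hQ, hn, hp, htn, hTp, h1, mul_nonneg (sub_nonneg.2 h1) (sub_nonneg.2 hp)]
            · exfalso; linarith only [hC, hQ, hn, hp, htn, hTp, h1, h2, mul_nonneg (sub_nonneg.2 h1) (sub_nonneg.2 h2), mul_nonneg (sub_nonneg.2 h1) (sub_nonneg.2 hTp), mul_nonneg (sub_nonneg.2 h2) (sub_nonneg.2 htn)]
      · rcases Arith_01 he6 ge6 with rfl | rfl
        · rcases Arith_0 ht with rfl | h1
          · rcases Arith_0 hT with rfl | h2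
            · exfalso; clear hC hQ; omega
            · exfalso; linarith only [hC, hQ, hn, hp, htn, hTp, h2, mul_nonneg (sub_nonneg.2 h2) (sub_nonneg.2 hn)]
          · rcases Arith_0 hT with rfl | h2
            · exfalso; linarith only [hC, hQ, hn, hp, htn, hTp, h1, mul_nonneg (sub_nonneg.2 h1) (sub_nonneg.2 hp)]
            · exfalso; linarith only [hC, hQ, hn, hp, htn, hTp, h1, h2, mul_nonneg (sub_nonneg.2 h1) (sub_nonneg.2 h2), mul_nonneg (sub_nonneg.2 h1) (sub_nonneg.2 hTp), mul_nonneg (sub_nonneg.2 h2) (sub_nonneg.2 htn)]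
        · rcases Arith_0 ht with rfl | h1
          · rcases Arith_0 hT with rfl | h2
            · exfalso; linarith only [hC, hQ, hn, hp, htn, hTp]
            · exfalso; linarith only [hC, hQ, hn, hp, htn, hTp, h2, mul_nonneg (sub_nonneg.2 h2) (sub_nonneg.2 hn)]
          · rcases Arith_0 hT with rfl | h2
            · exfalso; linarith only [hC, hQ, hn, hp, htn, hTp, h1, mul_nonneg (sub_nonneg.2 h1) (sub_nonneg.2 hp)]
            · exfalso; linarith only [hC, hQ, hn, hp, htn, hTp, h1, h2, mul_nonneg (sub_nonneg.2 h1) (sub_nonneg.2 h2), mul_nonneg (sub_nonneg.2 h1) (sub_nonneg.2 hTp), mul_nonneg (sub_nonneg.2 h2) (sub_nonneg.2 htn)]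
    · rcases Arith_01 he5 ge5 with rfl | rfl
      · rcases Arith_01 he6 ge6 with rfl | rfl
        · rcases Arith_0 ht with rfl | h1
          · rcases Arith_0 hT with rfl | h2
            · exfalso; clear hC hQ; omega
            · exfalso; linarith only [hC, hQ, hn, hp, htn, hTp, h2, mul_nonneg (sub_nonneg.2 h2) (sub_nonneg.2 hn)]
          · rcases Arith_0 hT with rfl | h2
            · exfalso; linarith only [hC, hQ, hn, hp, htn, hTp, h1, mul_nonneg (sub_nonneg.2 h1) (sub_nonneg.2 hp)]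
            · exfalso; linarith only [hC, hQ, hn, hp, htn, hTp, h1, h2, mul_nonneg (sub_nonneg.2 h1) (sub_nonneg.2 h2), mul_nonneg (sub_nonneg.2 h1) (sub_nonneg.2 hTp), mul_nonneg (sub_nonneg.2 h2) (sub_nonneg.2 htn)]
        · rcases Arith_0 ht with rfl | h1
          · rcases Arith_0 hT with rfl | h2
            · exfalso; linarith only [hC, hQ, hn, hp, htn, hTp]
            · exfalso; linarith only [hC, hQ, hn, hp, htn, hTp, h2, mul_nonneg (sub_nonneg.2 h2) (sub_nonneg.2 hn)]
          · rcases Arith_0 hT with rfl | h2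
            · exfalso; linarith only [hC, hQ, hn, hp, htn, hTp, h1, mul_nonneg (sub_nonneg.2 h1) (sub_nonneg.2 hp)]
            · exfalso; linarith only [hC, hQ, hn, hp, htn, hTp, h1, h2, mul_nonneg (sub_nonneg.2 h1) (sub_nonneg.2 h2), mul_nonneg (sub_nonneg.2 h1) (sub_nonneg.2 hTp), mul_nonneg (sub_nonneg.2 h2) (sub_nonneg.2 htn)]
      · rcases Arith_01 he6 ge6 with rfl | rfl
        · rcases Arith_0 ht with rfl | h1
          · rcases Arith_0 hT with rfl | h2
            · exfalso; linarith only [hC, hQ, hn, hp, htn, hTp]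
            · exfalso; linarith only [hC, hQ, hn, hp, htn, hTp, h2, mul_nonneg (sub_nonneg.2 h2) (sub_nonneg.2 hn)]
          · rcases Arith_0 hT with rfl | h2
            · exfalso; linarith only [hC, hQ, hn, hp, htn, hTp, h1, mul_nonneg (sub_nonneg.2 h1) (sub_nonneg.2 hp)]
            · exfalso; linarith only [hC, hQ, hn, hp, htn, hTp, h1, h2, mul_nonneg (sub_nonneg.2 h1) (sub_nonneg.2 h2), mul_nonneg (sub_nonneg.2 h1) (sub_nonneg.2 hTp), mul_nonneg (sub_nonneg.2 h2) (sub_nonneg.2 htn)]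
        · rcases Arith_0 ht with rfl | h1
          · rcases Arith_0 hT with rfl | h2
            · exfalso; linarith only [hC, hQ, hn, hp, htn, hTp]
            · exfalso; linarith only [hC, hQ, hn, hp, htn, hTp, h2, mul_nonneg (sub_nonneg.2 h2) (sub_nonneg.2 hn)]
          · rcases Arith_0 hT with rfl | h2
            · exfalso; linarith only [hC, hQ, hn, hp, htn, hTp, h1, mul_nonneg (sub_nonneg.2 h1) (sub_nonneg.2 hp)]
            · exfalso; linarith only [hC, hQ, hn, hp, htn, hTp, h1, h2, mul_nonneg (sub_nonneg.2 h1) (sub_nonneg.2 h2), mul_nonneg (sub_nonneg.2 h1) (sub_nonneg.2 hTp), mul_nonneg (sub_nonneg.2 h2) (sub_nonneg.2 htn)]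
  · rcases Arith_01 he4 ge4 with rfl | rfl
    · rcases Arith_01 he5 ge5 with rfl | rfl
      · rcases Arith_01 he6 ge6 with rfl | rfl
        · rcases Arith_0 ht with rfl | h1
          · rcases Arith_0 hT with rfl | h2
            · exfalso; clear hC hQ; omega
            · exfalso; linarith only [hC, hQ, hn, hp, htn, hTp, h2, mul_nonneg (sub_nonneg.2 h2) (sub_nonneg.2 hn)]
          · rcases Arith_0 hT with rfl | h2
            · exfalso; linarith only [hC, hQ, hn, hp, htn, hTp, h1, mul_nonneg (sub_nonneg.2 h1) (sub_nonneg.2 hp)]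
            · exfalso; linarith only [hC, hQ, hn, hp, htn, hTp, h1, h2, mul_nonneg (sub_nonneg.2 h1) (sub_nonneg.2 h2), mul_nonneg (sub_nonneg.2 h1) (sub_nonneg.2 hTp), mul_nonneg (sub_nonneg.2 h2) (sub_nonneg.2 htn)]
        · rcases Arith_0 ht with rfl | h1
          · rcases Arith_0 hT with rfl | h2
            · exfalso; linarith only [hC, hQ, hn, hp, htn, hTp]
            · exfalso; linarith only [hC, hQ, hn, hp, htn, hTp, h2, mul_nonneg (sub_nonneg.2 h2) (sub_nonneg.2 hn)]
          · rcases Arith_0 hT with rfl | h2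
            · exfalso; linarith only [hC, hQ, hn, hp, htn, hTp, h1, mul_nonneg (sub_nonneg.2 h1) (sub_nonneg.2 hp)]
            · rcases Arith_1 h1 with rfl | h1b
              · rcases Arith_1 h2 with rfl | h2b
                · rcases Arith_1 hn with rfl | h3
                  · rcases Arith_1 hp with rfl | h4
                    · clear hC hQ hs hz; refine ⟨?_, ?_, ?_, ?_, ?_, ?_, ?_, ?_⟩ <;> omega
                    · exfalso; linarith only [hC, hQ, hn, hp, htn, hTp, h4]
                  · exfalso; linarith only [hC, hQ, hn, hp, htn, hTp, h3]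
                · exfalso; linarith only [hC, hQ, hn, hp, htn, hTp, h2, h2b, mul_nonneg (sub_nonneg.2 h2) (sub_nonneg.2 hn)]
              · exfalso; linarith only [hC, hQ, hn, hp, htn, hTp, h1, h2, h1b, mul_nonneg (sub_nonneg.2 h1) (sub_nonneg.2 h2), mul_nonneg (sub_nonneg.2 h1) (sub_nonneg.2 hTp), mul_nonneg (sub_nonneg.2 h2) (sub_nonneg.2 htn)]
      · rcases Arith_01 he6 ge6 with rfl | rfl
        · rcases Arith_0 ht with rfl | h1
          · rcases Arith_0 hT with rfl | h2
            · exfalso; linarith only [hC, hQ, hn, hp, htn, hTp]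
            · exfalso; linarith only [hC, hQ, hn, hp, htn, hTp, h2, mul_nonneg (sub_nonneg.2 h2) (sub_nonneg.2 hn)]
          · rcases Arith_0 hT with rfl | h2
            · exfalso; linarith only [hC, hQ, hn, hp, htn, hTp, h1, mul_nonneg (sub_nonneg.2 h1) (sub_nonneg.2 hp)]
            · exfalso; linarith only [hC, hQ, hn, hp, htn, hTp, h1, h2, mul_nonneg (sub_nonneg.2 h1) (sub_nonneg.2 h2), mul_nonneg (sub_nonneg.2 h1) (sub_nonneg.2 hTp), mul_nonneg (sub_nonneg.2 h2) (sub_nonneg.2 htn)]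
        · rcases Arith_0 ht with rfl | h1
          · rcases Arith_0 hT with rfl | h2
            · exfalso; linarith only [hC, hQ, hn, hp, htn, hTp]
            · exfalso; linarith only [hC, hQ, hn, hp, htn, hTp, h2, mul_nonneg (sub_nonneg.2 h2) (sub_nonneg.2 hn)]
          · rcases Arith_0 hT with rfl | h2
            · exfalso; linarith only [hC, hQ, hn, hp, htn, hTp, h1, mul_nonneg (sub_nonneg.2 h1) (sub_nonneg.2 hp)]
            · rcases Arith_1 h1 with rfl | h1b
              · rcases Arith_1 h2 with rfl | h2b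
                · rcases Arith_1 hn with rfl | h3
                  · rcases Arith_1 hp with rfl | h4
                    · clear hC hQ hs hz; refine ⟨?_, ?_, ?_, ?_, ?_, ?_, ?_, ?_⟩ <;> omega
                    · exfalso; linarith only [hC, hQ, hn, hp, htn, hTp, h4]
                  · exfalso; linarith only [hC, hQ, hn, hp, htn, hTp, h3]
                · exfalso; linarith only [hC, hQ, hn, hp, htn, hTp, h2, h2b, mul_nonneg (sub_nonneg.2 h2) (sub_nonneg.2 hn)]
              · exfalso; linarith only [hC, hQ, hn, hp, htn, hTp, h1, h2, h1b, mul_nonneg (sub_nonneg.2 h1) (sub_nonneg.2 h2), mul_nonneg (sub_nonneg.2 h1) (sub_nonneg.2 hTp), mul_nonneg (sub_nonneg.2 h2) (sub_nonneg.2 htn)]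
    · rcases Arith_01 he5 ge5 with rfl | rfl
      · rcases Arith_01 he6 ge6 with rfl | rfl
        · rcases Arith_0 ht with rfl | h1
          · rcases Arith_0 hT with rfl | h2
            · exfalso; linarith only [hC, hQ, hn, hp, htn, hTp]
            · exfalso; linarith only [hC, hQ, hn, hp, htn, hTp, h2, mul_nonneg (sub_nonneg.2 h2) (sub_nonneg.2 hn)]
          · rcases Arith_0 hT with rfl | h2
            · exfalso; linarith only [hC, hQ, hn, hp, htn, hTp, h1, mul_nonneg (sub_nonneg.2 h1) (sub_nonneg.2 hp)]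
            · exfalso; linarith only [hC, hQ, hn, hp, htn, hTp, h1, h2, mul_nonneg (sub_nonneg.2 h1) (sub_nonneg.2 h2), mul_nonneg (sub_nonneg.2 h1) (sub_nonneg.2 hTp), mul_nonneg (sub_nonneg.2 h2) (sub_nonneg.2 htn)]
        · rcases Arith_0 ht with rfl | h1
          · rcases Arith_0 hT with rfl | h2
            · exfalso; linarith only [hC, hQ, hn, hp, htn, hTp]
            · exfalso; linarith only [hC, hQ, hn, hp, htn, hTp, h2, mul_nonneg (sub_nonneg.2 h2) (sub_nonneg.2 hn)]
          · rcases Arith_0 hT with rfl | h2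
            · exfalso; linarith only [hC, hQ, hn, hp, htn, hTp, h1, mul_nonneg (sub_nonneg.2 h1) (sub_nonneg.2 hp)]
            · rcases Arith_1 h1 with rfl | h1b
              · rcases Arith_1 h2 with rfl | h2b
                · rcases Arith_1 hn with rfl | h3
                  · rcases Arith_1 hp with rfl | h4
                    · clear hC hQ hs hz; refine ⟨?_, ?_, ?_, ?_, ?_, ?_, ?_, ?_⟩ <;> omega
                    · exfalso; linarith only [hC, hQ, hn, hp, htn, hTp, h4]
                  · exfalso; linarith only [hC, hQ, hn, hp, htn, hTp, h3]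
                · exfalso; linarith only [hC, hQ, hn, hp, htn, hTp, h2, h2b, mul_nonneg (sub_nonneg.2 h2) (sub_nonneg.2 hn)]
              · exfalso; nlinarith only [hC, hQ, hn, hp, htn, hTp, h1, h2, h1b, mul_nonneg (sub_nonneg.2 h1) (sub_nonneg.2 h2), mul_nonneg (sub_nonneg.2 h1) (sub_nonneg.2 hTp), mul_nonneg (sub_nonneg.2 h2) (sub_nonneg.2 htn)]
      · rcases Arith_01 he6 ge6 with rfl | rfl
        · rcases Arith_0 ht with rfl | h1
          · rcases Arith_0 hT with rfl | h2
            · exfalso; linarith only [hC, hQ, hn, hp, htn, hTp]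
            · exfalso; linarith only [hC, hQ, hn, hp, htn, hTp, h2, mul_nonneg (sub_nonneg.2 h2) (sub_nonneg.2 hn)]
          · rcases Arith_0 hT with rfl | h2
            · exfalso; linarith only [hC, hQ, hn, hp, htn, hTp, h1, mul_nonneg (sub_nonneg.2 h1) (sub_nonneg.2 hp)]
            · exfalso; linarith only [hC, hQ, hn, hp, htn, hTp, h1, h2, mul_nonneg (sub_nonneg.2 h1) (sub_nonneg.2 h2), mul_nonneg (sub_nonneg.2 h1) (sub_nonneg.2 hTp), mul_nonneg (sub_nonneg.2 h2) (sub_nonneg.2 htn)]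
        · rcases Arith_0 ht with rfl | h1
          · rcases Arith_0 hT with rfl | h2
            · exfalso; linarith only [hC, hQ, hn, hp, htn, hTp]
            · exfalso; linarith only [hC, hQ, hn, hp, htn, hTp, h2, mul_nonneg (sub_nonneg.2 h2) (sub_nonneg.2 hn)]
          · rcases Arith_0 hT with rfl | h2
            · exfalso; linarith only [hC, hQ, hn, hp, htn, hTp, h1, mul_nonneg (sub_nonneg.2 h1) (sub_nonneg.2 hp)]
            · exfalso; nlinarith only [hC, hQ, hn, hp, htn, hTp, h1, h2, mul_nonneg (sub_nonneg.2 h1) (sub_nonneg.2 h2), mul_nonneg (sub_nonneg.2 h1) (sub_nonneg.2 hTp), mul_nonneg (sub_nonneg.2 h2) (sub_nonneg.2 htn)]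

private theorem Arith_35 (n p t T e2 e4 e6 e7 : ℤ) (hn : 1 ≤ n) (hp : 1 ≤ p) (ht : 0 ≤ t) (hT : 0 ≤ T)
    (htn : t ≤ n) (hTp : T ≤ p) (he2 : 0 ≤ e2) (ge2 : e2 ≤ 1) (he4 : 0 ≤ e4) (ge4 : e4 ≤ 1) (he6 : 0 ≤ e6) (ge6 : e6 ≤ 1) (he7 : 0 ≤ e7) (ge7 : e7 ≤ 1)
    (hC : F7_D3 0 (-e2) (-t) (-e4) T e6 e7 = 0)
    (hQ : 2 * F7_E2 0 (-e2) (-t) (-e4) T e6 e7 + F7_M 0 (-e2) (-t) (-e4) T e6 e7 0 (-e2 - 1) (-t - n)
    (-e4 - 1) (T - p) (e6 - 1) (e7 - 1) = 0)
    (hs : ¬ F7_single 0 (-e2) (-t) (-e4) T e6 e7)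
    (hz : ¬ (e2 = 0 ∧ t = 0 ∧ e4 = 0 ∧ T = 0 ∧ e6 = 0 ∧ e7 = 0)) :
    e2 = 1 ∧ t = 1 ∧ e6 = 1 ∧ e7 = 1 ∧ (1 : ℤ) = 1 ∧ n = 1 ∧ (1 : ℤ) = 1 ∧ (1 : ℤ) = 1 := by
  simp only [F7_D3, F7_E2, F7_M] at hC hQ
  unfold F7_single at hs
  rcases Arith_01 he2 ge2 with rfl | rfl
  · rcases Arith_01 he4 ge4 with rfl | rfl
    · rcases Arith_01 he6 ge6 with rfl | rfl
      · rcases Arith_01 he7 ge7 with rfl | rfl
        · rcases Arith_0 ht with rfl | h1
          · rcases Arith_0 hT with rfl | h2
            · exfalso; clear hC hQ; omega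
            · exfalso; clear hC hQ; omega
          · rcases Arith_0 hT with rfl | h2
            · exfalso; clear hC hQ; omega
            · exfalso; linarith only [hC, hQ, hn, hp, htn, hTp, h1, h2, mul_nonneg (sub_nonneg.2 h1) (sub_nonneg.2 h2), mul_nonneg (sub_nonneg.2 h1) (sub_nonneg.2 hTp), mul_nonneg (sub_nonneg.2 h2) (sub_nonneg.2 htn)]
        · rcases Arith_0 ht with rfl | h1
          · rcases Arith_0 hT with rfl | h2
            · exfalso; clear hC hQ; omega
            · exfalso; linarith only [hC, hQ, hn, hp, htn, hTp, h2, mul_nonneg (sub_nonneg.2 h2) (sub_nonneg.2 hn)]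
          · rcases Arith_0 hT with rfl | h2
            · exfalso; linarith only [hC, hQ, hn, hp, htn, hTp, h1, mul_nonneg (sub_nonneg.2 h1) (sub_nonneg.2 hp)]
            · exfalso; linarith only [hC, hQ, hn, hp, htn, hTp, h1, h2, mul_nonneg (sub_nonneg.2 h1) (sub_nonneg.2 h2), mul_nonneg (sub_nonneg.2 h1) (sub_nonneg.2 hTp), mul_nonneg (sub_nonneg.2 h2) (sub_nonneg.2 htn)]
      · rcases Arith_01 he7 ge7 with rfl | rfl
        · rcases Arith_0 ht with rfl | h1
          · rcases Arith_0 hT with rfl | h2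
            · exfalso; clear hC hQ; omega
            · exfalso; linarith only [hC, hQ, hn, hp, htn, hTp, h2, mul_nonneg (sub_nonneg.2 h2) (sub_nonneg.2 hn)]
          · rcases Arith_0 hT with rfl | h2
            · exfalso; linarith only [hC, hQ, hn, hp, htn, hTp, h1, mul_nonneg (sub_nonneg.2 h1) (sub_nonneg.2 hp)]
            · exfalso; linarith only [hC, hQ, hn, hp, htn, hTp, h1, h2, mul_nonneg (sub_nonneg.2 h1) (sub_nonneg.2 h2), mul_nonneg (sub_nonneg.2 h1) (sub_nonneg.2 hTp), mul_nonneg (sub_nonneg.2 h2) (sub_nonneg.2 htn)]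
        · rcases Arith_0 ht with rfl | h1
          · rcases Arith_0 hT with rfl | h2
            · exfalso; linarith only [hC, hQ, hn, hp, htn, hTp]
            · exfalso; linarith only [hC, hQ, hn, hp, htn, hTp, h2, mul_nonneg (sub_nonneg.2 h2) (sub_nonneg.2 hn)]
          · rcases Arith_0 hT with rfl | h2
            · exfalso; linarith only [hC, hQ, hn, hp, htn, hTp, h1, mul_nonneg (sub_nonneg.2 h1) (sub_nonneg.2 hp)]
            · exfalso; linarith only [hC, hQ, hn, hp, htn, hTp, h1, h2, mul_nonneg (sub_nonneg.2 h1) (sub_nonneg.2 h2), mul_nonneg (sub_nonneg.2 h1) (sub_nonneg.2 hTp), mul_nonneg (sub_nonneg.2 h2) (sub_nonneg.2 htn)]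
    · rcases Arith_01 he6 ge6 with rfl | rfl
      · rcases Arith_01 he7 ge7 with rfl | rfl
        · rcases Arith_0 ht with rfl | h1
          · rcases Arith_0 hT with rfl | h2
            · exfalso; clear hC hQ; omega
            · exfalso; linarith only [hC, hQ, hn, hp, htn, hTp, h2, mul_nonneg (sub_nonneg.2 h2) (sub_nonneg.2 hn)]
          · rcases Arith_0 hT with rfl | h2
            · exfalso; linarith only [hC, hQ, hn, hp, htn, hTp, h1, mul_nonneg (sub_nonneg.2 h1) (sub_nonneg.2 hp)]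
            · exfalso; linarith only [hC, hQ, hn, hp, htn, hTp, h1, h2, mul_nonneg (sub_nonneg.2 h1) (sub_nonneg.2 h2), mul_nonneg (sub_nonneg.2 h1) (sub_nonneg.2 hTp), mul_nonneg (sub_nonneg.2 h2) (sub_nonneg.2 htn)]
        · rcases Arith_0 ht with rfl | h1
          · rcases Arith_0 hT with rfl | h2
            · exfalso; linarith only [hC, hQ, hn, hp, htn, hTp]
            · exfalso; linarith only [hC, hQ, hn, hp, htn, hTp, h2, mul_nonneg (sub_nonneg.2 h2) (sub_nonneg.2 hn)]
          · rcases Arith_0 hT with rfl | h2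
            · exfalso; linarith only [hC, hQ, hn, hp, htn, hTp, h1, mul_nonneg (sub_nonneg.2 h1) (sub_nonneg.2 hp)]
            · exfalso; linarith only [hC, hQ, hn, hp, htn, hTp, h1, h2, mul_nonneg (sub_nonneg.2 h1) (sub_nonneg.2 h2), mul_nonneg (sub_nonneg.2 h1) (sub_nonneg.2 hTp), mul_nonneg (sub_nonneg.2 h2) (sub_nonneg.2 htn)]
      · rcases Arith_01 he7 ge7 with rfl | rfl
        · rcases Arith_0 ht with rfl | h1
          · rcases Arith_0 hT with rfl | h2
            · exfalso; linarith only [hC, hQ, hn, hp, htn, hTp]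
            · exfalso; linarith only [hC, hQ, hn, hp, htn, hTp, h2, mul_nonneg (sub_nonneg.2 h2) (sub_nonneg.2 hn)]
          · rcases Arith_0 hT with rfl | h2
            · exfalso; linarith only [hC, hQ, hn, hp, htn, hTp, h1, mul_nonneg (sub_nonneg.2 h1) (sub_nonneg.2 hp)]
            · exfalso; linarith only [hC, hQ, hn, hp, htn, hTp, h1, h2, mul_nonneg (sub_nonneg.2 h1) (sub_nonneg.2 h2), mul_nonneg (sub_nonneg.2 h1) (sub_nonneg.2 hTp), mul_nonneg (sub_nonneg.2 h2) (sub_nonneg.2 htn)]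
        · rcases Arith_0 ht with rfl | h1
          · rcases Arith_0 hT with rfl | h2
            · exfalso; linarith only [hC, hQ, hn, hp, htn, hTp]
            · exfalso; linarith only [hC, hQ, hn, hp, htn, hTp, h2, mul_nonneg (sub_nonneg.2 h2) (sub_nonneg.2 hn)]
          · rcases Arith_0 hT with rfl | h2
            · exfalso; linarith only [hC, hQ, hn, hp, htn, hTp, h1, mul_nonneg (sub_nonneg.2 h1) (sub_nonneg.2 hp)]
            · exfalso; linarith only [hC, hQ, hn, hp, htn, hTp, h1, h2, mul_nonneg (sub_nonneg.2 h1) (sub_nonneg.2 h2), mul_nonneg (sub_nonneg.2 h1) (sub_nonneg.2 hTp), mul_nonneg (sub_nonneg.2 h2) (sub_nonneg.2 htn)]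
  · rcases Arith_01 he4 ge4 with rfl | rfl
    · rcases Arith_01 he6 ge6 with rfl | rfl
      · rcases Arith_01 he7 ge7 with rfl | rfl
        · rcases Arith_0 ht with rfl | h1
          · rcases Arith_0 hT with rfl | h2
            · exfalso; clear hC hQ; omega
            · exfalso; linarith only [hC, hQ, hn, hp, htn, hTp, h2, mul_nonneg (sub_nonneg.2 h2) (sub_nonneg.2 hn)]
          · rcases Arith_0 hT with rfl | h2
            · exfalso; linarith only [hC, hQ, hn, hp, htn, hTp, h1, mul_nonneg (sub_nonneg.2 h1) (sub_nonneg.2 hp)]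
            · exfalso; linarith only [hC, hQ, hn, hp, htn, hTp, h1, h2, mul_nonneg (sub_nonneg.2 h1) (sub_nonneg.2 h2), mul_nonneg (sub_nonneg.2 h1) (sub_nonneg.2 hTp), mul_nonneg (sub_nonneg.2 h2) (sub_nonneg.2 htn)]
        · rcases Arith_0 ht with rfl | h1
          · rcases Arith_0 hT with rfl | h2
            · exfalso; linarith only [hC, hQ, hn, hp, htn, hTp]
            · exfalso; linarith only [hC, hQ, hn, hp, htn, hTp, h2, mul_nonneg (sub_nonneg.2 h2) (sub_nonneg.2 hn)]
          · rcases Arith_0 hT with rfl | h2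
            · exfalso; linarith only [hC, hQ, hn, hp, htn, hTp, h1, mul_nonneg (sub_nonneg.2 h1) (sub_nonneg.2 hp)]
            · exfalso; linarith only [hC, hQ, hn, hp, htn, hTp, h1, h2, mul_nonneg (sub_nonneg.2 h1) (sub_nonneg.2 h2), mul_nonneg (sub_nonneg.2 h1) (sub_nonneg.2 hTp), mul_nonneg (sub_nonneg.2 h2) (sub_nonneg.2 htn)]
      · rcases Arith_01 he7 ge7 with rfl | rfl
        · rcases Arith_0 ht with rfl | h1
          · rcases Arith_0 hT with rfl | h2
            · exfalso; linarith only [hC, hQ, hn, hp, htn, hTp]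
            · exfalso; linarith only [hC, hQ, hn, hp, htn, hTp, h2, mul_nonneg (sub_nonneg.2 h2) (sub_nonneg.2 hn)]
          · rcases Arith_0 hT with rfl | h2
            · exfalso; linarith only [hC, hQ, hn, hp, htn, hTp, h1, mul_nonneg (sub_nonneg.2 h1) (sub_nonneg.2 hp)]
            · exfalso; linarith only [hC, hQ, hn, hp, htn, hTp, h1, h2, mul_nonneg (sub_nonneg.2 h1) (sub_nonneg.2 h2), mul_nonneg (sub_nonneg.2 h1) (sub_nonneg.2 hTp), mul_nonneg (sub_nonneg.2 h2) (sub_nonneg.2 htn)]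
        · rcases Arith_0 ht with rfl | h1
          · rcases Arith_0 hT with rfl | h2
            · exfalso; linarith only [hC, hQ, hn, hp, htn, hTp]
            · exfalso; linarith only [hC, hQ, hn, hp, htn, hTp, h2, mul_nonneg (sub_nonneg.2 h2) (sub_nonneg.2 hn)]
          · rcases Arith_0 hT with rfl | h2
            · rcases Arith_1 h1 with rfl | h1b
              · rcases Arith_1 hn with rfl | h3
                · clear hC hQ hs hz; refine ⟨?_, ?_, ?_, ?_, ?_, ?_, ?_, ?_⟩ <;> omega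
                · exfalso; linarith only [hC, hQ, hn, hp, htn, hTp, h3]
              · exfalso; linarith only [hC, hQ, hn, hp, htn, hTp, h1, h1b, mul_nonneg (sub_nonneg.2 h1) (sub_nonneg.2 hp)]
            · rcases Arith_1 h1 with rfl | h1b
              · rcases Arith_1 h2 with rfl | h2b
                · rcases Arith_1 hn with rfl | h3
                  · clear hC hQ hs hz; refine ⟨?_, ?_, ?_, ?_, ?_, ?_, ?_, ?_⟩ <;> omega
                  · exfalso; linarith only [hC, hQ, hn, hp, htn, hTp, h3]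
                · rcases Arith_1 hn with rfl | h3
                  · clear hC hQ hs hz; refine ⟨?_, ?_, ?_, ?_, ?_, ?_, ?_, ?_⟩ <;> omega
                  · exfalso; linarith only [hC, hQ, hn, hp, htn, hTp, h2, h2b, h3, mul_nonneg (sub_nonneg.2 h2) (sub_nonneg.2 hn)]
              · exfalso; linarith only [hC, hQ, hn, hp, htn, hTp, h1, h2, h1b, mul_nonneg (sub_nonneg.2 h1) (sub_nonneg.2 h2), mul_nonneg (sub_nonneg.2 h1) (sub_nonneg.2 hTp), mul_nonneg (sub_nonneg.2 h2) (sub_nonneg.2 htn)]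
    · rcases Arith_01 he6 ge6 with rfl | rfl
      · rcases Arith_01 he7 ge7 with rfl | rfl
        · rcases Arith_0 ht with rfl | h1
          · rcases Arith_0 hT with rfl | h2
            · exfalso; linarith only [hC, hQ, hn, hp, htn, hTp]
            · exfalso; linarith only [hC, hQ, hn, hp, htn, hTp, h2, mul_nonneg (sub_nonneg.2 h2) (sub_nonneg.2 hn)]
          · rcases Arith_0 hT with rfl | h2
            · exfalso; linarith only [hC, hQ, hn, hp, htn, hTp, h1, mul_nonneg (sub_nonneg.2 h1) (sub_nonneg.2 hp)]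
            · exfalso; linarith only [hC, hQ, hn, hp, htn, hTp, h1, h2, mul_nonneg (sub_nonneg.2 h1) (sub_nonneg.2 h2), mul_nonneg (sub_nonneg.2 h1) (sub_nonneg.2 hTp), mul_nonneg (sub_nonneg.2 h2) (sub_nonneg.2 htn)]
        · rcases Arith_0 ht with rfl | h1
          · rcases Arith_0 hT with rfl | h2
            · exfalso; linarith only [hC, hQ, hn, hp, htn, hTp]
            · exfalso; linarith only [hC, hQ, hn, hp, htn, hTp, h2, mul_nonneg (sub_nonneg.2 h2) (sub_nonneg.2 hn)]
          · rcases Arith_0 hT with rfl | h2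
            · exfalso; linarith only [hC, hQ, hn, hp, htn, hTp, h1, mul_nonneg (sub_nonneg.2 h1) (sub_nonneg.2 hp)]
            · exfalso; linarith only [hC, hQ, hn, hp, htn, hTp, h1, h2, mul_nonneg (sub_nonneg.2 h1) (sub_nonneg.2 h2), mul_nonneg (sub_nonneg.2 h1) (sub_nonneg.2 hTp), mul_nonneg (sub_nonneg.2 h2) (sub_nonneg.2 htn)]
      · rcases Arith_01 he7 ge7 with rfl | rfl
        · rcases Arith_0 ht with rfl | h1
          · rcases Arith_0 hT with rfl | h2
            · exfalso; linarith only [hC, hQ, hn, hp, htn, hTp]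
            · exfalso; linarith only [hC, hQ, hn, hp, htn, hTp, h2, mul_nonneg (sub_nonneg.2 h2) (sub_nonneg.2 hn)]
          · rcases Arith_0 hT with rfl | h2
            · exfalso; linarith only [hC, hQ, hn, hp, htn, hTp, h1, mul_nonneg (sub_nonneg.2 h1) (sub_nonneg.2 hp)]
            · exfalso; linarith only [hC, hQ, hn, hp, htn, hTp, h1, h2, mul_nonneg (sub_nonneg.2 h1) (sub_nonneg.2 h2), mul_nonneg (sub_nonneg.2 h1) (sub_nonneg.2 hTp), mul_nonneg (sub_nonneg.2 h2) (sub_nonneg.2 htn)]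
        · rcases Arith_0 ht with rfl | h1
          · rcases Arith_0 hT with rfl | h2
            · exfalso; linarith only [hC, hQ, hn, hp, htn, hTp]
            · exfalso; linarith only [hC, hQ, hn, hp, htn, hTp, h2, mul_nonneg (sub_nonneg.2 h2) (sub_nonneg.2 hn)]
          · rcases Arith_0 hT with rfl | h2
            · rcases Arith_1 h1 with rfl | h1b
              · rcases Arith_1 hn with rfl | h3
                · clear hC hQ hs hz; refine ⟨?_, ?_, ?_, ?_, ?_, ?_, ?_, ?_⟩ <;> omega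
                · exfalso; linarith only [hC, hQ, hn, hp, htn, hTp, h3]
              · exfalso; linarith only [hC, hQ, hn, hp, htn, hTp, h1, h1b, mul_nonneg (sub_nonneg.2 h1) (sub_nonneg.2 hp)]
            · exfalso; nlinarith only [hC, hQ, hn, hp, htn, hTp, h1, h2, mul_nonneg (sub_nonneg.2 h1) (sub_nonneg.2 h2), mul_nonneg (sub_nonneg.2 h1) (sub_nonneg.2 hTp), mul_nonneg (sub_nonneg.2 h2) (sub_nonneg.2 htn)]

private theorem Arith_36 (n p t T e2 e4 e5 e7 : ℤ) (hn : 1 ≤ n) (hp : 1 ≤ p) (ht : 0 ≤ t) (hT : 0 ≤ T)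
    (htn : t ≤ n) (hTp : T ≤ p) (he2 : 0 ≤ e2) (ge2 : e2 ≤ 1) (he4 : 0 ≤ e4) (ge4 : e4 ≤ 1) (he5 : 0 ≤ e5) (ge5 : e5 ≤ 1) (he7 : 0 ≤ e7) (ge7 : e7 ≤ 1)
    (hC : F7_D3 0 (-e2) (-t) (-e4) e5 T e7 = 0)
    (hQ : 2 * F7_E2 0 (-e2) (-t) (-e4) e5 T e7 + F7_M 0 (-e2) (-t) (-e4) e5 T e7 0 (-e2 - 1) (-t - n)
    (-e4 - 1) (e5 - 1) (T - p) (e7 - 1) = 0)
    (hs : ¬ F7_single 0 (-e2) (-t) (-e4) e5 T e7)
    (hz : ¬ (e2 = 0 ∧ t = 0 ∧ e4 = 0 ∧ e5 = 0 ∧ T = 0 ∧ e7 = 0)) :
    e2 = 1 ∧ t = 1 ∧ T = 1 ∧ e7 = 1 ∧ (1 : ℤ) = 1 ∧ n = 1 ∧ p = 1 ∧ (1 : ℤ) = 1 := by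
  simp only [F7_D3, F7_E2, F7_M] at hC hQ
  unfold F7_single at hs
  rcases Arith_01 he2 ge2 with rfl | rfl
  · rcases Arith_01 he4 ge4 with rfl | rfl
    · rcases Arith_01 he5 ge5 with rfl | rfl
      · rcases Arith_01 he7 ge7 with rfl | rfl
        · rcases Arith_0 ht with rfl | h1
          · rcases Arith_0 hT with rfl | h2
            · exfalso; clear hC hQ; omega
            · exfalso; clear hC hQ; omega
          · rcases Arith_0 hT with rfl | h2
            · exfalso; clear hC hQ; omega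
            · exfalso; linarith only [hC, hQ, hn, hp, htn, hTp, h1, h2, mul_nonneg (sub_nonneg.2 h1) (sub_nonneg.2 h2), mul_nonneg (sub_nonneg.2 h1) (sub_nonneg.2 hTp), mul_nonneg (sub_nonneg.2 h2) (sub_nonneg.2 htn)]
        · rcases Arith_0 ht with rfl | h1
          · rcases Arith_0 hT with rfl | h2
            · exfalso; clear hC hQ; omega
            · exfalso; linarith only [hC, hQ, hn, hp, htn, hTp, h2, mul_nonneg (sub_nonneg.2 h2) (sub_nonneg.2 hn)]
          · rcases Arith_0 hT with rfl | h2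
            · exfalso; linarith only [hC, hQ, hn, hp, htn, hTp, h1, mul_nonneg (sub_nonneg.2 h1) (sub_nonneg.2 hp)]
            · exfalso; linarith only [hC, hQ, hn, hp, htn, hTp, h1, h2, mul_nonneg (sub_nonneg.2 h1) (sub_nonneg.2 h2), mul_nonneg (sub_nonneg.2 h1) (sub_nonneg.2 hTp), mul_nonneg (sub_nonneg.2 h2) (sub_nonneg.2 htn)]
      · rcases Arith_01 he7 ge7 with rfl | rfl
        · rcases Arith_0 ht with rfl | h1
          · rcases Arith_0 hT with rfl | h2
            · exfalso; clear hC hQ; omega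
            · exfalso; linarith only [hC, hQ, hn, hp, htn, hTp, h2, mul_nonneg (sub_nonneg.2 h2) (sub_nonneg.2 hn)]
          · rcases Arith_0 hT with rfl | h2
            · exfalso; linarith only [hC, hQ, hn, hp, htn, hTp, h1, mul_nonneg (sub_nonneg.2 h1) (sub_nonneg.2 hp)]
            · exfalso; linarith only [hC, hQ, hn, hp, htn, hTp, h1, h2, mul_nonneg (sub_nonneg.2 h1) (sub_nonneg.2 h2), mul_nonneg (sub_nonneg.2 h1) (sub_nonneg.2 hTp), mul_nonneg (sub_nonneg.2 h2) (sub_nonneg.2 htn)]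
        · rcases Arith_0 ht with rfl | h1
          · rcases Arith_0 hT with rfl | h2
            · exfalso; linarith only [hC, hQ, hn, hp, htn, hTp]
            · exfalso; linarith only [hC, hQ, hn, hp, htn, hTp, h2, mul_nonneg (sub_nonneg.2 h2) (sub_nonneg.2 hn)]
          · rcases Arith_0 hT with rfl | h2
            · exfalso; linarith only [hC, hQ, hn, hp, htn, hTp, h1, mul_nonneg (sub_nonneg.2 h1) (sub_nonneg.2 hp)]
            · exfalso; linarith only [hC, hQ, hn, hp, htn, hTp, h1, h2, mul_nonneg (sub_nonneg.2 h1) (sub_nonneg.2 h2), mul_nonneg (sub_nonneg.2 h1) (sub_nonneg.2 hTp), mul_nonneg (sub_nonneg.2 h2) (sub_nonneg.2 htn)]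
    · rcases Arith_01 he5 ge5 with rfl | rfl
      · rcases Arith_01 he7 ge7 with rfl | rfl
        · rcases Arith_0 ht with rfl | h1
          · rcases Arith_0 hT with rfl | h2
            · exfalso; clear hC hQ; omega
            · exfalso; linarith only [hC, hQ, hn, hp, htn, hTp, h2, mul_nonneg (sub_nonneg.2 h2) (sub_nonneg.2 hn)]
          · rcases Arith_0 hT with rfl | h2
            · exfalso; linarith only [hC, hQ, hn, hp, htn, hTp, h1, mul_nonneg (sub_nonneg.2 h1) (sub_nonneg.2 hp)]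
            · exfalso; linarith only [hC, hQ, hn, hp, htn, hTp, h1, h2, mul_nonneg (sub_nonneg.2 h1) (sub_nonneg.2 h2), mul_nonneg (sub_nonneg.2 h1) (sub_nonneg.2 hTp), mul_nonneg (sub_nonneg.2 h2) (sub_nonneg.2 htn)]
        · rcases Arith_0 ht with rfl | h1
          · rcases Arith_0 hT with rfl | h2
            · exfalso; linarith only [hC, hQ, hn, hp, htn, hTp]
            · exfalso; linarith only [hC, hQ, hn, hp, htn, hTp, h2, mul_nonneg (sub_nonneg.2 h2) (sub_nonneg.2 hn)]
          · rcases Arith_0 hT with rfl | h2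
            · exfalso; linarith only [hC, hQ, hn, hp, htn, hTp, h1, mul_nonneg (sub_nonneg.2 h1) (sub_nonneg.2 hp)]
            · exfalso; linarith only [hC, hQ, hn, hp, htn, hTp, h1, h2, mul_nonneg (sub_nonneg.2 h1) (sub_nonneg.2 h2), mul_nonneg (sub_nonneg.2 h1) (sub_nonneg.2 hTp), mul_nonneg (sub_nonneg.2 h2) (sub_nonneg.2 htn)]
      · rcases Arith_01 he7 ge7 with rfl | rfl
        · rcases Arith_0 ht with rfl | h1
          · rcases Arith_0 hT with rfl | h2
            · exfalso; linarith only [hC, hQ, hn, hp, htn, hTp]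
            · exfalso; linarith only [hC, hQ, hn, hp, htn, hTp, h2, mul_nonneg (sub_nonneg.2 h2) (sub_nonneg.2 hn)]
          · rcases Arith_0 hT with rfl | h2
            · exfalso; linarith only [hC, hQ, hn, hp, htn, hTp, h1, mul_nonneg (sub_nonneg.2 h1) (sub_nonneg.2 hp)]
            · exfalso; linarith only [hC, hQ, hn, hp, htn, hTp, h1, h2, mul_nonneg (sub_nonneg.2 h1) (sub_nonneg.2 h2), mul_nonneg (sub_nonneg.2 h1) (sub_nonneg.2 hTp), mul_nonneg (sub_nonneg.2 h2) (sub_nonneg.2 htn)]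
        · rcases Arith_0 ht with rfl | h1
          · rcases Arith_0 hT with rfl | h2
            · exfalso; linarith only [hC, hQ, hn, hp, htn, hTp]
            · exfalso; linarith only [hC, hQ, hn, hp, htn, hTp, h2, mul_nonneg (sub_nonneg.2 h2) (sub_nonneg.2 hn)]
          · rcases Arith_0 hT with rfl | h2
            · exfalso; linarith only [hC, hQ, hn, hp, htn, hTp, h1, mul_nonneg (sub_nonneg.2 h1) (sub_nonneg.2 hp)]
            · exfalso; linarith only [hC, hQ, hn, hp, htn, hTp, h1, h2, mul_nonneg (sub_nonneg.2 h1) (sub_nonneg.2 h2), mul_nonneg (sub_nonneg.2 h1) (sub_nonneg.2 hTp), mul_nonneg (sub_nonneg.2 h2) (sub_nonneg.2 htn)]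
  · rcases Arith_01 he4 ge4 with rfl | rfl
    · rcases Arith_01 he5 ge5 with rfl | rfl
      · rcases Arith_01 he7 ge7 with rfl | rfl
        · rcases Arith_0 ht with rfl | h1
          · rcases Arith_0 hT with rfl | h2
            · exfalso; clear hC hQ; omega
            · exfalso; linarith only [hC, hQ, hn, hp, htn, hTp, h2, mul_nonneg (sub_nonneg.2 h2) (sub_nonneg.2 hn)]
          · rcases Arith_0 hT with rfl | h2
            · exfalso; linarith only [hC, hQ, hn, hp, htn, hTp, h1, mul_nonneg (sub_nonneg.2 h1) (sub_nonneg.2 hp)]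
            · exfalso; linarith only [hC, hQ, hn, hp, htn, hTp, h1, h2, mul_nonneg (sub_nonneg.2 h1) (sub_nonneg.2 h2), mul_nonneg (sub_nonneg.2 h1) (sub_nonneg.2 hTp), mul_nonneg (sub_nonneg.2 h2) (sub_nonneg.2 htn)]
        · rcases Arith_0 ht with rfl | h1
          · rcases Arith_0 hT with rfl | h2
            · exfalso; linarith only [hC, hQ, hn, hp, htn, hTp]
            · exfalso; linarith only [hC, hQ, hn, hp, htn, hTp, h2, mul_nonneg (sub_nonneg.2 h2) (sub_nonneg.2 hn)]
          · rcases Arith_0 hT with rfl | h2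
            · exfalso; linarith only [hC, hQ, hn, hp, htn, hTp, h1, mul_nonneg (sub_nonneg.2 h1) (sub_nonneg.2 hp)]
            · rcases Arith_1 h1 with rfl | h1b
              · rcases Arith_1 h2 with rfl | h2b
                · rcases Arith_1 hn with rfl | h3
                  · rcases Arith_1 hp with rfl | h4
                    · clear hC hQ hs hz; refine ⟨?_, ?_, ?_, ?_, ?_, ?_, ?_, ?_⟩ <;> omega
                    · exfalso; linarith only [hC, hQ, hn, hp, htn, hTp, h4]
                  · exfalso; linarith only [hC, hQ, hn, hp, htn, hTp, h3]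
                · exfalso; linarith only [hC, hQ, hn, hp, htn, hTp, h2, h2b, mul_nonneg (sub_nonneg.2 h2) (sub_nonneg.2 hn)]
              · exfalso; linarith only [hC, hQ, hn, hp, htn, hTp, h1, h2, h1b, mul_nonneg (sub_nonneg.2 h1) (sub_nonneg.2 h2), mul_nonneg (sub_nonneg.2 h1) (sub_nonneg.2 hTp), mul_nonneg (sub_nonneg.2 h2) (sub_nonneg.2 htn)]
      · rcases Arith_01 he7 ge7 with rfl | rfl
        · rcases Arith_0 ht with rfl | h1
          · rcases Arith_0 hT with rfl | h2
            · exfalso; linarith only [hC, hQ, hn, hp, htn, hTp]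
            · exfalso; linarith only [hC, hQ, hn, hp, htn, hTp, h2, mul_nonneg (sub_nonneg.2 h2) (sub_nonneg.2 hn)]
          · rcases Arith_0 hT with rfl | h2
            · exfalso; linarith only [hC, hQ, hn, hp, htn, hTp, h1, mul_nonneg (sub_nonneg.2 h1) (sub_nonneg.2 hp)]
            · exfalso; linarith only [hC, hQ, hn, hp, htn, hTp, h1, h2, mul_nonneg (sub_nonneg.2 h1) (sub_nonneg.2 h2), mul_nonneg (sub_nonneg.2 h1) (sub_nonneg.2 hTp), mul_nonneg (sub_nonneg.2 h2) (sub_nonneg.2 htn)]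
        · rcases Arith_0 ht with rfl | h1
          · rcases Arith_0 hT with rfl | h2
            · exfalso; linarith only [hC, hQ, hn, hp, htn, hTp]
            · exfalso; linarith only [hC, hQ, hn, hp, htn, hTp, h2, mul_nonneg (sub_nonneg.2 h2) (sub_nonneg.2 hn)]
          · rcases Arith_0 hT with rfl | h2
            · exfalso; linarith only [hC, hQ, hn, hp, htn, hTp, h1, mul_nonneg (sub_nonneg.2 h1) (sub_nonneg.2 hp)]
            · rcases Arith_1 h1 with rfl | h1b
              · rcases Arith_1 h2 with rfl | h2b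
                · rcases Arith_1 hn with rfl | h3
                  · rcases Arith_1 hp with rfl | h4
                    · clear hC hQ hs hz; refine ⟨?_, ?_, ?_, ?_, ?_, ?_, ?_, ?_⟩ <;> omega
                    · exfalso; linarith only [hC, hQ, hn, hp, htn, hTp, h4]
                  · exfalso; linarith only [hC, hQ, hn, hp, htn, hTp, h3]
                · exfalso; linarith only [hC, hQ, hn, hp, htn, hTp, h2, h2b, mul_nonneg (sub_nonneg.2 h2) (sub_nonneg.2 hn)]
              · exfalso; linarith only [hC, hQ, hn, hp, htn, hTp, h1, h2, h1b, mul_nonneg (sub_nonneg.2 h1) (sub_nonneg.2 h2), mul_nonneg (sub_nonneg.2 h1) (sub_nonneg.2 hTp), mul_nonneg (sub_nonneg.2 h2) (sub_nonneg.2 htn)]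
    · rcases Arith_01 he5 ge5 with rfl | rfl
      · rcases Arith_01 he7 ge7 with rfl | rfl
        · rcases Arith_0 ht with rfl | h1
          · rcases Arith_0 hT with rfl | h2
            · exfalso; linarith only [hC, hQ, hn, hp, htn, hTp]
            · exfalso; linarith only [hC, hQ, hn, hp, htn, hTp, h2, mul_nonneg (sub_nonneg.2 h2) (sub_nonneg.2 hn)]
          · rcases Arith_0 hT with rfl | h2
            · exfalso; linarith only [hC, hQ, hn, hp, htn, hTp, h1, mul_nonneg (sub_nonneg.2 h1) (sub_nonneg.2 hp)]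
            · exfalso; linarith only [hC, hQ, hn, hp, htn, hTp, h1, h2, mul_nonneg (sub_nonneg.2 h1) (sub_nonneg.2 h2), mul_nonneg (sub_nonneg.2 h1) (sub_nonneg.2 hTp), mul_nonneg (sub_nonneg.2 h2) (sub_nonneg.2 htn)]
        · rcases Arith_0 ht with rfl | h1
          · rcases Arith_0 hT with rfl | h2
            · exfalso; linarith only [hC, hQ, hn, hp, htn, hTp]
            · exfalso; linarith only [hC, hQ, hn, hp, htn, hTp, h2, mul_nonneg (sub_nonneg.2 h2) (sub_nonneg.2 hn)]
          · rcases Arith_0 hT with rfl | h2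
            · exfalso; linarith only [hC, hQ, hn, hp, htn, hTp, h1, mul_nonneg (sub_nonneg.2 h1) (sub_nonneg.2 hp)]
            · rcases Arith_1 h1 with rfl | h1b
              · rcases Arith_1 h2 with rfl | h2b
                · rcases Arith_1 hn with rfl | h3
                  · rcases Arith_1 hp with rfl | h4
                    · clear hC hQ hs hz; refine ⟨?_, ?_, ?_, ?_, ?_, ?_, ?_, ?_⟩ <;> omega
                    · exfalso; linarith only [hC, hQ, hn, hp, htn, hTp, h4]
                  · exfalso; linarith only [hC, hQ, hn, hp, htn, hTp, h3]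
                · exfalso; linarith only [hC, hQ, hn, hp, htn, hTp, h2, h2b, mul_nonneg (sub_nonneg.2 h2) (sub_nonneg.2 hn)]
              · exfalso; nlinarith only [hC, hQ, hn, hp, htn, hTp, h1, h2, h1b, mul_nonneg (sub_nonneg.2 h1) (sub_nonneg.2 h2), mul_nonneg (sub_nonneg.2 h1) (sub_nonneg.2 hTp), mul_nonneg (sub_nonneg.2 h2) (sub_nonneg.2 htn)]
      · rcases Arith_01 he7 ge7 with rfl | rfl
        · rcases Arith_0 ht with rfl | h1
          · rcases Arith_0 hT with rfl | h2
            · exfalso; linarith only [hC, hQ, hn, hp, htn, hTp]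
            · exfalso; linarith only [hC, hQ, hn, hp, htn, hTp, h2, mul_nonneg (sub_nonneg.2 h2) (sub_nonneg.2 hn)]
          · rcases Arith_0 hT with rfl | h2
            · exfalso; linarith only [hC, hQ, hn, hp, htn, hTp, h1, mul_nonneg (sub_nonneg.2 h1) (sub_nonneg.2 hp)]
            · exfalso; linarith only [hC, hQ, hn, hp, htn, hTp, h1, h2, mul_nonneg (sub_nonneg.2 h1) (sub_nonneg.2 h2), mul_nonneg (sub_nonneg.2 h1) (sub_nonneg.2 hTp), mul_nonneg (sub_nonneg.2 h2) (sub_nonneg.2 htn)]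
        · rcases Arith_0 ht with rfl | h1
          · rcases Arith_0 hT with rfl | h2
            · exfalso; linarith only [hC, hQ, hn, hp, htn, hTp]
            · exfalso; linarith only [hC, hQ, hn, hp, htn, hTp, h2, mul_nonneg (sub_nonneg.2 h2) (sub_nonneg.2 hn)]
          · rcases Arith_0 hT with rfl | h2
            · exfalso; linarith only [hC, hQ, hn, hp, htn, hTp, h1, mul_nonneg (sub_nonneg.2 h1) (sub_nonneg.2 hp)]
            · exfalso; nlinarith only [hC, hQ, hn, hp, htn, hTp, h1, h2, mul_nonneg (sub_nonneg.2 h1) (sub_nonneg.2 h2), mul_nonneg (sub_nonneg.2 h1) (sub_nonneg.2 hTp), mul_nonneg (sub_nonneg.2 h2) (sub_nonneg.2 htn)]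

private theorem Arith_37 (n p t T e2 e4 e5 e6 : ℤ) (hn : 1 ≤ n) (hp : 1 ≤ p) (ht : 0 ≤ t) (hT : 0 ≤ T)
    (htn : t ≤ n) (hTp : T ≤ p) (he2 : 0 ≤ e2) (ge2 : e2 ≤ 1) (he4 : 0 ≤ e4) (ge4 : e4 ≤ 1) (he5 : 0 ≤ e5) (ge5 : e5 ≤ 1) (he6 : 0 ≤ e6) (ge6 : e6 ≤ 1)
    (hC : F7_D3 0 (-e2) (-t) (-e4) e5 e6 T = 0)
    (hQ : 2 * F7_E2 0 (-e2) (-t) (-e4) e5 e6 T + F7_M 0 (-e2) (-t) (-e4) e5 e6 T 0 (-e2 - 1) (-t - n)
    (-e4 - 1) (e5 - 1) (e6 - 1) (T - p) = 0)
    (hs : ¬ F7_single 0 (-e2) (-t) (-e4) e5 e6 T)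
    (hz : ¬ (e2 = 0 ∧ t = 0 ∧ e4 = 0 ∧ e5 = 0 ∧ e6 = 0 ∧ T = 0)) :
    e2 = 1 ∧ t = 1 ∧ e6 = 1 ∧ T = 1 ∧ (1 : ℤ) = 1 ∧ n = 1 ∧ (1 : ℤ) = 1 ∧ p = 1 := by
  simp only [F7_D3, F7_E2, F7_M] at hC hQ
  unfold F7_single at hs
  rcases Arith_01 he2 ge2 with rfl | rfl
  · rcases Arith_01 he4 ge4 with rfl | rfl
    · rcases Arith_01 he5 ge5 with rfl | rfl
      · rcases Arith_01 he6 ge6 with rfl | rfl
        · rcases Arith_0 ht with rfl | h1
          · rcases Arith_0 hT with rfl | h2
            · exfalso; clear hC hQ; omega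
            · exfalso; clear hC hQ; omega
          · rcases Arith_0 hT with rfl | h2
            · exfalso; clear hC hQ; omega
            · exfalso; linarith only [hC, hQ, hn, hp, htn, hTp, h1, h2, mul_nonneg (sub_nonneg.2 h1) (sub_nonneg.2 h2), mul_nonneg (sub_nonneg.2 h1) (sub_nonneg.2 hTp), mul_nonneg (sub_nonneg.2 h2) (sub_nonneg.2 htn)]
        · rcases Arith_0 ht with rfl | h1
          · rcases Arith_0 hT with rfl | h2
            · exfalso; clear hC hQ; omega
            · exfalso; linarith only [hC, hQ, hn, hp, htn, hTp, h2, mul_nonneg (sub_nonneg.2 h2) (sub_nonneg.2 hn)]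
          · rcases Arith_0 hT with rfl | h2
            · exfalso; linarith only [hC, hQ, hn, hp, htn, hTp, h1, mul_nonneg (sub_nonneg.2 h1) (sub_nonneg.2 hp)]
            · exfalso; linarith only [hC, hQ, hn, hp, htn, hTp, h1, h2, mul_nonneg (sub_nonneg.2 h1) (sub_nonneg.2 h2), mul_nonneg (sub_nonneg.2 h1) (sub_nonneg.2 hTp), mul_nonneg (sub_nonneg.2 h2) (sub_nonneg.2 htn)]
      · rcases Arith_01 he6 ge6 with rfl | rfl
        · rcases Arith_0 ht with rfl | h1
          · rcases Arith_0 hT with rfl | h2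
            · exfalso; clear hC hQ; omega
            · exfalso; linarith only [hC, hQ, hn, hp, htn, hTp, h2, mul_nonneg (sub_nonneg.2 h2) (sub_nonneg.2 hn)]
          · rcases Arith_0 hT with rfl | h2
            · exfalso; linarith only [hC, hQ, hn, hp, htn, hTp, h1, mul_nonneg (sub_nonneg.2 h1) (sub_nonneg.2 hp)]
            · exfalso; linarith only [hC, hQ, hn, hp, htn, hTp, h1, h2, mul_nonneg (sub_nonneg.2 h1) (sub_nonneg.2 h2), mul_nonneg (sub_nonneg.2 h1) (sub_nonneg.2 hTp), mul_nonneg (sub_nonneg.2 h2) (sub_nonneg.2 htn)]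
        · rcases Arith_0 ht with rfl | h1
          · rcases Arith_0 hT with rfl | h2
            · exfalso; linarith only [hC, hQ, hn, hp, htn, hTp]
            · exfalso; linarith only [hC, hQ, hn, hp, htn, hTp, h2, mul_nonneg (sub_nonneg.2 h2) (sub_nonneg.2 hn)]
          · rcases Arith_0 hT with rfl | h2
            · exfalso; linarith only [hC, hQ, hn, hp, htn, hTp, h1, mul_nonneg (sub_nonneg.2 h1) (sub_nonneg.2 hp)]
            · exfalso; linarith only [hC, hQ, hn, hp, htn, hTp, h1, h2, mul_nonneg (sub_nonneg.2 h1) (sub_nonneg.2 h2), mul_nonneg (sub_nonneg.2 h1) (sub_nonneg.2 hTp), mul_nonneg (sub_nonneg.2 h2) (sub_nonneg.2 htn)]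
    · rcases Arith_01 he5 ge5 with rfl | rfl
      · rcases Arith_01 he6 ge6 with rfl | rfl
        · rcases Arith_0 ht with rfl | h1
          · rcases Arith_0 hT with rfl | h2
            · exfalso; clear hC hQ; omega
            · exfalso; linarith only [hC, hQ, hn, hp, htn, hTp, h2, mul_nonneg (sub_nonneg.2 h2) (sub_nonneg.2 hn)]
          · rcases Arith_0 hT with rfl | h2
            · exfalso; linarith only [hC, hQ, hn, hp, htn, hTp, h1, mul_nonneg (sub_nonneg.2 h1) (sub_nonneg.2 hp)]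
            · exfalso; linarith only [hC, hQ, hn, hp, htn, hTp, h1, h2, mul_nonneg (sub_nonneg.2 h1) (sub_nonneg.2 h2), mul_nonneg (sub_nonneg.2 h1) (sub_nonneg.2 hTp), mul_nonneg (sub_nonneg.2 h2) (sub_nonneg.2 htn)]
        · rcases Arith_0 ht with rfl | h1
          · rcases Arith_0 hT with rfl | h2
            · exfalso; linarith only [hC, hQ, hn, hp, htn, hTp]
            · exfalso; linarith only [hC, hQ, hn, hp, htn, hTp, h2, mul_nonneg (sub_nonneg.2 h2) (sub_nonneg.2 hn)]
          · rcases Arith_0 hT with rfl | h2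
            · exfalso; linarith only [hC, hQ, hn, hp, htn, hTp, h1, mul_nonneg (sub_nonneg.2 h1) (sub_nonneg.2 hp)]
            · exfalso; linarith only [hC, hQ, hn, hp, htn, hTp, h1, h2, mul_nonneg (sub_nonneg.2 h1) (sub_nonneg.2 h2), mul_nonneg (sub_nonneg.2 h1) (sub_nonneg.2 hTp), mul_nonneg (sub_nonneg.2 h2) (sub_nonneg.2 htn)]
      · rcases Arith_01 he6 ge6 with rfl | rfl
        · rcases Arith_0 ht with rfl | h1
          · rcases Arith_0 hT with rfl | h2
            · exfalso; linarith only [hC, hQ, hn, hp, htn, hTp]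
            · exfalso; linarith only [hC, hQ, hn, hp, htn, hTp, h2, mul_nonneg (sub_nonneg.2 h2) (sub_nonneg.2 hn)]
          · rcases Arith_0 hT with rfl | h2
            · exfalso; linarith only [hC, hQ, hn, hp, htn, hTp, h1, mul_nonneg (sub_nonneg.2 h1) (sub_nonneg.2 hp)]
            · exfalso; linarith only [hC, hQ, hn, hp, htn, hTp, h1, h2, mul_nonneg (sub_nonneg.2 h1) (sub_nonneg.2 h2), mul_nonneg (sub_nonneg.2 h1) (sub_nonneg.2 hTp), mul_nonneg (sub_nonneg.2 h2) (sub_nonneg.2 htn)]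
        · rcases Arith_0 ht with rfl | h1
          · rcases Arith_0 hT with rfl | h2
            · exfalso; linarith only [hC, hQ, hn, hp, htn, hTp]
            · exfalso; linarith only [hC, hQ, hn, hp, htn, hTp, h2, mul_nonneg (sub_nonneg.2 h2) (sub_nonneg.2 hn)]
          · rcases Arith_0 hT with rfl | h2
            · exfalso; linarith only [hC, hQ, hn, hp, htn, hTp, h1, mul_nonneg (sub_nonneg.2 h1) (sub_nonneg.2 hp)]
            · exfalso; linarith only [hC, hQ, hn, hp, htn, hTp, h1, h2, mul_nonneg (sub_nonneg.2 h1) (sub_nonneg.2 h2), mul_nonneg (sub_nonneg.2 h1) (sub_nonneg.2 hTp), mul_nonneg (sub_nonneg.2 h2) (sub_nonneg.2 htn)]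
  · rcases Arith_01 he4 ge4 with rfl | rfl
    · rcases Arith_01 he5 ge5 with rfl | rfl
      · rcases Arith_01 he6 ge6 with rfl | rfl
        · rcases Arith_0 ht with rfl | h1
          · rcases Arith_0 hT with rfl | h2
            · exfalso; clear hC hQ; omega
            · exfalso; linarith only [hC, hQ, hn, hp, htn, hTp, h2, mul_nonneg (sub_nonneg.2 h2) (sub_nonneg.2 hn)]
          · rcases Arith_0 hT with rfl | h2
            · exfalso; linarith only [hC, hQ, hn, hp, htn, hTp, h1, mul_nonneg (sub_nonneg.2 h1) (sub_nonneg.2 hp)]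
            · exfalso; linarith only [hC, hQ, hn, hp, htn, hTp, h1, h2, mul_nonneg (sub_nonneg.2 h1) (sub_nonneg.2 h2), mul_nonneg (sub_nonneg.2 h1) (sub_nonneg.2 hTp), mul_nonneg (sub_nonneg.2 h2) (sub_nonneg.2 htn)]
        · rcases Arith_0 ht with rfl | h1
          · rcases Arith_0 hT with rfl | h2
            · exfalso; linarith only [hC, hQ, hn, hp, htn, hTp]
            · exfalso; linarith only [hC, hQ, hn, hp, htn, hTp, h2, mul_nonneg (sub_nonneg.2 h2) (sub_nonneg.2 hn)]
          · rcases Arith_0 hT with rfl | h2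
            · exfalso; linarith only [hC, hQ, hn, hp, htn, hTp, h1, mul_nonneg (sub_nonneg.2 h1) (sub_nonneg.2 hp)]
            · rcases Arith_1 h1 with rfl | h1b
              · rcases Arith_1 h2 with rfl | h2b
                · rcases Arith_1 hn with rfl | h3
                  · rcases Arith_1 hp with rfl | h4
                    · clear hC hQ hs hz; refine ⟨?_, ?_, ?_, ?_, ?_, ?_, ?_, ?_⟩ <;> omega
                    · exfalso; linarith only [hC, hQ, hn, hp, htn, hTp, h4]
                  · exfalso; linarith only [hC, hQ, hn, hp, htn, hTp, h3]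
                · exfalso; linarith only [hC, hQ, hn, hp, htn, hTp, h2, h2b, mul_nonneg (sub_nonneg.2 h2) (sub_nonneg.2 hn)]
              · exfalso; linarith only [hC, hQ, hn, hp, htn, hTp, h1, h2, h1b, mul_nonneg (sub_nonneg.2 h1) (sub_nonneg.2 h2), mul_nonneg (sub_nonneg.2 h1) (sub_nonneg.2 hTp), mul_nonneg (sub_nonneg.2 h2) (sub_nonneg.2 htn)]
      · rcases Arith_01 he6 ge6 with rfl | rfl
        · rcases Arith_0 ht with rfl | h1
          · rcases Arith_0 hT with rfl | h2
            · exfalso; linarith only [hC, hQ, hn, hp, htn, hTp]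
            · exfalso; linarith only [hC, hQ, hn, hp, htn, hTp, h2, mul_nonneg (sub_nonneg.2 h2) (sub_nonneg.2 hn)]
          · rcases Arith_0 hT with rfl | h2
            · exfalso; linarith only [hC, hQ, hn, hp, htn, hTp, h1, mul_nonneg (sub_nonneg.2 h1) (sub_nonneg.2 hp)]
            · exfalso; linarith only [hC, hQ, hn, hp, htn, hTp, h1, h2, mul_nonneg (sub_nonneg.2 h1) (sub_nonneg.2 h2), mul_nonneg (sub_nonneg.2 h1) (sub_nonneg.2 hTp), mul_nonneg (sub_nonneg.2 h2) (sub_nonneg.2 htn)]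
        · rcases Arith_0 ht with rfl | h1
          · rcases Arith_0 hT with rfl | h2
            · exfalso; linarith only [hC, hQ, hn, hp, htn, hTp]
            · exfalso; linarith only [hC, hQ, hn, hp, htn, hTp, h2, mul_nonneg (sub_nonneg.2 h2) (sub_nonneg.2 hn)]
          · rcases Arith_0 hT with rfl | h2
            · exfalso; linarith only [hC, hQ, hn, hp, htn, hTp, h1, mul_nonneg (sub_nonneg.2 h1) (sub_nonneg.2 hp)]
            · rcases Arith_1 h1 with rfl | h1b
              · rcases Arith_1 h2 with rfl | h2b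
                · rcases Arith_1 hn with rfl | h3
                  · rcases Arith_1 hp with rfl | h4
                    · clear hC hQ hs hz; refine ⟨?_, ?_, ?_, ?_, ?_, ?_, ?_, ?_⟩ <;> omega
                    · exfalso; linarith only [hC, hQ, hn, hp, htn, hTp, h4]
                  · exfalso; linarith only [hC, hQ, hn, hp, htn, hTp, h3]
                · exfalso; linarith only [hC, hQ, hn, hp, htn, hTp, h2, h2b, mul_nonneg (sub_nonneg.2 h2) (sub_nonneg.2 hn)]
              · exfalso; nlinarith only [hC, hQ, hn, hp, htn, hTp, h1, h2, h1b, mul_nonneg (sub_nonneg.2 h1) (sub_nonneg.2 h2), mul_nonneg (sub_nonneg.2 h1) (sub_nonneg.2 hTp), mul_nonneg (sub_nonneg.2 h2) (sub_nonneg.2 htn)]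
    · rcases Arith_01 he5 ge5 with rfl | rfl
      · rcases Arith_01 he6 ge6 with rfl | rfl
        · rcases Arith_0 ht with rfl | h1
          · rcases Arith_0 hT with rfl | h2
            · exfalso; linarith only [hC, hQ, hn, hp, htn, hTp]
            · exfalso; linarith only [hC, hQ, hn, hp, htn, hTp, h2, mul_nonneg (sub_nonneg.2 h2) (sub_nonneg.2 hn)]
          · rcases Arith_0 hT with rfl | h2
            · exfalso; linarith only [hC, hQ, hn, hp, htn, hTp, h1, mul_nonneg (sub_nonneg.2 h1) (sub_nonneg.2 hp)]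
            · exfalso; linarith only [hC, hQ, hn, hp, htn, hTp, h1, h2, mul_nonneg (sub_nonneg.2 h1) (sub_nonneg.2 h2), mul_nonneg (sub_nonneg.2 h1) (sub_nonneg.2 hTp), mul_nonneg (sub_nonneg.2 h2) (sub_nonneg.2 htn)]
        · rcases Arith_0 ht with rfl | h1
          · rcases Arith_0 hT with rfl | h2
            · exfalso; linarith only [hC, hQ, hn, hp, htn, hTp]
            · exfalso; linarith only [hC, hQ, hn, hp, htn, hTp, h2, mul_nonneg (sub_nonneg.2 h2) (sub_nonneg.2 hn)]
          · rcases Arith_0 hT with rfl | h2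
            · exfalso; linarith only [hC, hQ, hn, hp, htn, hTp, h1, mul_nonneg (sub_nonneg.2 h1) (sub_nonneg.2 hp)]
            · rcases Arith_1 h1 with rfl | h1b
              · rcases Arith_1 h2 with rfl | h2b
                · rcases Arith_1 hn with rfl | h3
                  · rcases Arith_1 hp with rfl | h4
                    · clear hC hQ hs hz; refine ⟨?_, ?_, ?_, ?_, ?_, ?_, ?_, ?_⟩ <;> omega
                    · exfalso; linarith only [hC, hQ, hn, hp, htn, hTp, h4]
                  · exfalso; linarith only [hC, hQ, hn, hp, htn, hTp, h3]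
                · exfalso; linarith only [hC, hQ, hn, hp, htn, hTp, h2, h2b, mul_nonneg (sub_nonneg.2 h2) (sub_nonneg.2 hn)]
              · exfalso; linarith only [hC, hQ, hn, hp, htn, hTp, h1, h2, h1b, mul_nonneg (sub_nonneg.2 h1) (sub_nonneg.2 h2), mul_nonneg (sub_nonneg.2 h1) (sub_nonneg.2 hTp), mul_nonneg (sub_nonneg.2 h2) (sub_nonneg.2 htn)]
      · rcases Arith_01 he6 ge6 with rfl | rfl
        · rcases Arith_0 ht with rfl | h1
          · rcases Arith_0 hT with rfl | h2
            · exfalso; linarith only [hC, hQ, hn, hp, htn, hTp]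
            · exfalso; linarith only [hC, hQ, hn, hp, htn, hTp, h2, mul_nonneg (sub_nonneg.2 h2) (sub_nonneg.2 hn)]
          · rcases Arith_0 hT with rfl | h2
            · exfalso; linarith only [hC, hQ, hn, hp, htn, hTp, h1, mul_nonneg (sub_nonneg.2 h1) (sub_nonneg.2 hp)]
            · exfalso; linarith only [hC, hQ, hn, hp, htn, hTp, h1, h2, mul_nonneg (sub_nonneg.2 h1) (sub_nonneg.2 h2), mul_nonneg (sub_nonneg.2 h1) (sub_nonneg.2 hTp), mul_nonneg (sub_nonneg.2 h2) (sub_nonneg.2 htn)]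
        · rcases Arith_0 ht with rfl | h1
          · rcases Arith_0 hT with rfl | h2
            · exfalso; linarith only [hC, hQ, hn, hp, htn, hTp]
            · exfalso; linarith only [hC, hQ, hn, hp, htn, hTp, h2, mul_nonneg (sub_nonneg.2 h2) (sub_nonneg.2 hn)]
          · rcases Arith_0 hT with rfl | h2
            · exfalso; linarith only [hC, hQ, hn, hp, htn, hTp, h1, mul_nonneg (sub_nonneg.2 h1) (sub_nonneg.2 hp)]
            · exfalso; nlinarith only [hC, hQ, hn, hp, htn, hTp, h1, h2, mul_nonneg (sub_nonneg.2 h1) (sub_nonneg.2 h2), mul_nonneg (sub_nonneg.2 h1) (sub_nonneg.2 hTp), mul_nonneg (sub_nonneg.2 h2) (sub_nonneg.2 htn)]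

private theorem Arith_45 (n p t T e2 e3 e6 e7 : ℤ) (hn : 1 ≤ n) (hp : 1 ≤ p) (ht : 0 ≤ t) (hT : 0 ≤ T)
    (htn : t ≤ n) (hTp : T ≤ p) (he2 : 0 ≤ e2) (ge2 : e2 ≤ 1) (he3 : 0 ≤ e3) (ge3 : e3 ≤ 1) (he6 : 0 ≤ e6) (ge6 : e6 ≤ 1) (he7 : 0 ≤ e7) (ge7 : e7 ≤ 1)
    (hC : F7_D3 0 (-e2) (-e3) (-t) T e6 e7 = 0)
    (hQ : 2 * F7_E2 0 (-e2) (-e3) (-t) T e6 e7 + F7_M 0 (-e2) (-e3) (-t) T e6 e7 0 (-e2 - 1) (-e3 - 1)
    (-t - n) (T - p) (e6 - 1) (e7 - 1) = 0)
    (hs : ¬ F7_single 0 (-e2) (-e3) (-t) T e6 e7)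
    (hz : ¬ (e2 = 0 ∧ e3 = 0 ∧ t = 0 ∧ T = 0 ∧ e6 = 0 ∧ e7 = 0)) :
    e2 = 1 ∧ e3 = 1 ∧ e6 = 1 ∧ e7 = 1 ∧ (1 : ℤ) = 1 ∧ (1 : ℤ) = 1 ∧ (1 : ℤ) = 1 ∧ (1 : ℤ) = 1 := by
  simp only [F7_D3, F7_E2, F7_M] at hC hQ
  unfold F7_single at hs
  rcases Arith_01 he2 ge2 with rfl | rfl
  · rcases Arith_01 he3 ge3 with rfl | rfl
    · rcases Arith_01 he6 ge6 with rfl | rfl
      · rcases Arith_01 he7 ge7 with rfl | rfl
        · rcases Arith_0 ht with rfl | h1
          · rcases Arith_0 hT with rfl | h2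
            · exfalso; clear hC hQ; omega
            · exfalso; clear hC hQ; omega
          · rcases Arith_0 hT with rfl | h2
            · exfalso; clear hC hQ; omega
            · exfalso; linarith only [hC, hQ, hn, hp, htn, hTp, h1, h2, mul_nonneg (sub_nonneg.2 h1) (sub_nonneg.2 h2), mul_nonneg (sub_nonneg.2 h1) (sub_nonneg.2 hTp), mul_nonneg (sub_nonneg.2 h2) (sub_nonneg.2 htn)]
        · rcases Arith_0 ht with rfl | h1
          · rcases Arith_0 hT with rfl | h2
            · exfalso; clear hC hQ; omega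
            · exfalso; linarith only [hC, hQ, hn, hp, htn, hTp, h2, mul_nonneg (sub_nonneg.2 h2) (sub_nonneg.2 hn)]
          · rcases Arith_0 hT with rfl | h2
            · exfalso; linarith only [hC, hQ, hn, hp, htn, hTp, h1, mul_nonneg (sub_nonneg.2 h1) (sub_nonneg.2 hp)]
            · exfalso; linarith only [hC, hQ, hn, hp, htn, hTp, h1, h2, mul_nonneg (sub_nonneg.2 h1) (sub_nonneg.2 h2), mul_nonneg (sub_nonneg.2 h1) (sub_nonneg.2 hTp), mul_nonneg (sub_nonneg.2 h2) (sub_nonneg.2 htn)]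
      · rcases Arith_01 he7 ge7 with rfl | rfl
        · rcases Arith_0 ht with rfl | h1
          · rcases Arith_0 hT with rfl | h2
            · exfalso; clear hC hQ; omega
            · exfalso; linarith only [hC, hQ, hn, hp, htn, hTp, h2, mul_nonneg (sub_nonneg.2 h2) (sub_nonneg.2 hn)]
          · rcases Arith_0 hT with rfl | h2
            · exfalso; linarith only [hC, hQ, hn, hp, htn, hTp, h1, mul_nonneg (sub_nonneg.2 h1) (sub_nonneg.2 hp)]
            · exfalso; linarith only [hC, hQ, hn, hp, htn, hTp, h1, h2, mul_nonneg (sub_nonneg.2 h1) (sub_nonneg.2 h2), mul_nonneg (sub_nonneg.2 h1) (sub_nonneg.2 hTp), mul_nonneg (sub_nonneg.2 h2) (sub_nonneg.2 htn)]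
        · rcases Arith_0 ht with rfl | h1
          · rcases Arith_0 hT with rfl | h2
            · exfalso; linarith only [hC, hQ, hn, hp, htn, hTp]
            · exfalso; linarith only [hC, hQ, hn, hp, htn, hTp, h2, mul_nonneg (sub_nonneg.2 h2) (sub_nonneg.2 hn)]
          · rcases Arith_0 hT with rfl | h2
            · exfalso; linarith only [hC, hQ, hn, hp, htn, hTp, h1, mul_nonneg (sub_nonneg.2 h1) (sub_nonneg.2 hp)]
            · exfalso; linarith only [hC, hQ, hn, hp, htn, hTp, h1, h2, mul_nonneg (sub_nonneg.2 h1) (sub_nonneg.2 h2), mul_nonneg (sub_nonneg.2 h1) (sub_nonneg.2 hTp), mul_nonneg (sub_nonneg.2 h2) (sub_nonneg.2 htn)]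
    · rcases Arith_01 he6 ge6 with rfl | rfl
      · rcases Arith_01 he7 ge7 with rfl | rfl
        · rcases Arith_0 ht with rfl | h1
          · rcases Arith_0 hT with rfl | h2
            · exfalso; clear hC hQ; omega
            · exfalso; linarith only [hC, hQ, hn, hp, htn, hTp, h2, mul_nonneg (sub_nonneg.2 h2) (sub_nonneg.2 hn)]
          · rcases Arith_0 hT with rfl | h2
            · exfalso; linarith only [hC, hQ, hn, hp, htn, hTp, h1, mul_nonneg (sub_nonneg.2 h1) (sub_nonneg.2 hp)]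
            · exfalso; linarith only [hC, hQ, hn, hp, htn, hTp, h1, h2, mul_nonneg (sub_nonneg.2 h1) (sub_nonneg.2 h2), mul_nonneg (sub_nonneg.2 h1) (sub_nonneg.2 hTp), mul_nonneg (sub_nonneg.2 h2) (sub_nonneg.2 htn)]
        · rcases Arith_0 ht with rfl | h1
          · rcases Arith_0 hT with rfl | h2
            · exfalso; linarith only [hC, hQ, hn, hp, htn, hTp]
            · exfalso; linarith only [hC, hQ, hn, hp, htn, hTp, h2, mul_nonneg (sub_nonneg.2 h2) (sub_nonneg.2 hn)]
          · rcases Arith_0 hT with rfl | h2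
            · exfalso; linarith only [hC, hQ, hn, hp, htn, hTp, h1, mul_nonneg (sub_nonneg.2 h1) (sub_nonneg.2 hp)]
            · exfalso; linarith only [hC, hQ, hn, hp, htn, hTp, h1, h2, mul_nonneg (sub_nonneg.2 h1) (sub_nonneg.2 h2), mul_nonneg (sub_nonneg.2 h1) (sub_nonneg.2 hTp), mul_nonneg (sub_nonneg.2 h2) (sub_nonneg.2 htn)]
      · rcases Arith_01 he7 ge7 with rfl | rfl
        · rcases Arith_0 ht with rfl | h1
          · rcases Arith_0 hT with rfl | h2
            · exfalso; linarith only [hC, hQ, hn, hp, htn, hTp]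
            · exfalso; linarith only [hC, hQ, hn, hp, htn, hTp, h2, mul_nonneg (sub_nonneg.2 h2) (sub_nonneg.2 hn)]
          · rcases Arith_0 hT with rfl | h2
            · exfalso; linarith only [hC, hQ, hn, hp, htn, hTp, h1, mul_nonneg (sub_nonneg.2 h1) (sub_nonneg.2 hp)]
            · exfalso; linarith only [hC, hQ, hn, hp, htn, hTp, h1, h2, mul_nonneg (sub_nonneg.2 h1) (sub_nonneg.2 h2), mul_nonneg (sub_nonneg.2 h1) (sub_nonneg.2 hTp), mul_nonneg (sub_nonneg.2 h2) (sub_nonneg.2 htn)]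
        · rcases Arith_0 ht with rfl | h1
          · rcases Arith_0 hT with rfl | h2
            · exfalso; linarith only [hC, hQ, hn, hp, htn, hTp]
            · exfalso; linarith only [hC, hQ, hn, hp, htn, hTp, h2, mul_nonneg (sub_nonneg.2 h2) (sub_nonneg.2 hn)]
          · rcases Arith_0 hT with rfl | h2
            · exfalso; linarith only [hC, hQ, hn, hp, htn, hTp, h1, mul_nonneg (sub_nonneg.2 h1) (sub_nonneg.2 hp)]
            · exfalso; linarith only [hC, hQ, hn, hp, htn, hTp, h1, h2, mul_nonneg (sub_nonneg.2 h1) (sub_nonneg.2 h2), mul_nonneg (sub_nonneg.2 h1) (sub_nonneg.2 hTp), mul_nonneg (sub_nonneg.2 h2) (sub_nonneg.2 htn)]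
  · rcases Arith_01 he3 ge3 with rfl | rfl
    · rcases Arith_01 he6 ge6 with rfl | rfl
      · rcases Arith_01 he7 ge7 with rfl | rfl
        · rcases Arith_0 ht with rfl | h1
          · rcases Arith_0 hT with rfl | h2
            · exfalso; clear hC hQ; omega
            · exfalso; linarith only [hC, hQ, hn, hp, htn, hTp, h2, mul_nonneg (sub_nonneg.2 h2) (sub_nonneg.2 hn)]
          · rcases Arith_0 hT with rfl | h2
            · exfalso; linarith only [hC, hQ, hn, hp, htn, hTp, h1, mul_nonneg (sub_nonneg.2 h1) (sub_nonneg.2 hp)]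
            · exfalso; linarith only [hC, hQ, hn, hp, htn, hTp, h1, h2, mul_nonneg (sub_nonneg.2 h1) (sub_nonneg.2 h2), mul_nonneg (sub_nonneg.2 h1) (sub_nonneg.2 hTp), mul_nonneg (sub_nonneg.2 h2) (sub_nonneg.2 htn)]
        · rcases Arith_0 ht with rfl | h1
          · rcases Arith_0 hT with rfl | h2
            · exfalso; linarith only [hC, hQ, hn, hp, htn, hTp]
            · exfalso; linarith only [hC, hQ, hn, hp, htn, hTp, h2, mul_nonneg (sub_nonneg.2 h2) (sub_nonneg.2 hn)]
          · rcases Arith_0 hT with rfl | h2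
            · exfalso; linarith only [hC, hQ, hn, hp, htn, hTp, h1, mul_nonneg (sub_nonneg.2 h1) (sub_nonneg.2 hp)]
            · exfalso; linarith only [hC, hQ, hn, hp, htn, hTp, h1, h2, mul_nonneg (sub_nonneg.2 h1) (sub_nonneg.2 h2), mul_nonneg (sub_nonneg.2 h1) (sub_nonneg.2 hTp), mul_nonneg (sub_nonneg.2 h2) (sub_nonneg.2 htn)]
      · rcases Arith_01 he7 ge7 with rfl | rfl
        · rcases Arith_0 ht with rfl | h1
          · rcases Arith_0 hT with rfl | h2
            · exfalso; linarith only [hC, hQ, hn, hp, htn, hTp]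
            · exfalso; linarith only [hC, hQ, hn, hp, htn, hTp, h2, mul_nonneg (sub_nonneg.2 h2) (sub_nonneg.2 hn)]
          · rcases Arith_0 hT with rfl | h2
            · exfalso; linarith only [hC, hQ, hn, hp, htn, hTp, h1, mul_nonneg (sub_nonneg.2 h1) (sub_nonneg.2 hp)]
            · exfalso; linarith only [hC, hQ, hn, hp, htn, hTp, h1, h2, mul_nonneg (sub_nonneg.2 h1) (sub_nonneg.2 h2), mul_nonneg (sub_nonneg.2 h1) (sub_nonneg.2 hTp), mul_nonneg (sub_nonneg.2 h2) (sub_nonneg.2 htn)]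
        · rcases Arith_0 ht with rfl | h1
          · rcases Arith_0 hT with rfl | h2
            · exfalso; linarith only [hC, hQ, hn, hp, htn, hTp]
            · exfalso; linarith only [hC, hQ, hn, hp, htn, hTp, h2, mul_nonneg (sub_nonneg.2 h2) (sub_nonneg.2 hn)]
          · rcases Arith_0 hT with rfl | h2
            · exfalso; linarith only [hC, hQ, hn, hp, htn, hTp, h1, mul_nonneg (sub_nonneg.2 h1) (sub_nonneg.2 hp)]
            · exfalso; linarith only [hC, hQ, hn, hp, htn, hTp, h1, h2, mul_nonneg (sub_nonneg.2 h1) (sub_nonneg.2 h2), mul_nonneg (sub_nonneg.2 h1) (sub_nonneg.2 hTp), mul_nonneg (sub_nonneg.2 h2) (sub_nonneg.2 htn)]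
    · rcases Arith_01 he6 ge6 with rfl | rfl
      · rcases Arith_01 he7 ge7 with rfl | rfl
        · rcases Arith_0 ht with rfl | h1
          · rcases Arith_0 hT with rfl | h2
            · exfalso; linarith only [hC, hQ, hn, hp, htn, hTp]
            · exfalso; linarith only [hC, hQ, hn, hp, htn, hTp, h2, mul_nonneg (sub_nonneg.2 h2) (sub_nonneg.2 hn)]
          · rcases Arith_0 hT with rfl | h2
            · exfalso; linarith only [hC, hQ, hn, hp, htn, hTp, h1, mul_nonneg (sub_nonneg.2 h1) (sub_nonneg.2 hp)]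
            · exfalso; linarith only [hC, hQ, hn, hp, htn, hTp, h1, h2, mul_nonneg (sub_nonneg.2 h1) (sub_nonneg.2 h2), mul_nonneg (sub_nonneg.2 h1) (sub_nonneg.2 hTp), mul_nonneg (sub_nonneg.2 h2) (sub_nonneg.2 htn)]
        · rcases Arith_0 ht with rfl | h1
          · rcases Arith_0 hT with rfl | h2
            · exfalso; linarith only [hC, hQ, hn, hp, htn, hTp]
            · exfalso; linarith only [hC, hQ, hn, hp, htn, hTp, h2, mul_nonneg (sub_nonneg.2 h2) (sub_nonneg.2 hn)]
          · rcases Arith_0 hT with rfl | h2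
            · exfalso; linarith only [hC, hQ, hn, hp, htn, hTp, h1, mul_nonneg (sub_nonneg.2 h1) (sub_nonneg.2 hp)]
            · exfalso; linarith only [hC, hQ, hn, hp, htn, hTp, h1, h2, mul_nonneg (sub_nonneg.2 h1) (sub_nonneg.2 h2), mul_nonneg (sub_nonneg.2 h1) (sub_nonneg.2 hTp), mul_nonneg (sub_nonneg.2 h2) (sub_nonneg.2 htn)]
      · rcases Arith_01 he7 ge7 with rfl | rfl
        · rcases Arith_0 ht with rfl | h1
          · rcases Arith_0 hT with rfl | h2
            · exfalso; linarith only [hC, hQ, hn, hp, htn, hTp]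
            · exfalso; linarith only [hC, hQ, hn, hp, htn, hTp, h2, mul_nonneg (sub_nonneg.2 h2) (sub_nonneg.2 hn)]
          · rcases Arith_0 hT with rfl | h2
            · exfalso; linarith only [hC, hQ, hn, hp, htn, hTp, h1, mul_nonneg (sub_nonneg.2 h1) (sub_nonneg.2 hp)]
            · exfalso; linarith only [hC, hQ, hn, hp, htn, hTp, h1, h2, mul_nonneg (sub_nonneg.2 h1) (sub_nonneg.2 h2), mul_nonneg (sub_nonneg.2 h1) (sub_nonneg.2 hTp), mul_nonneg (sub_nonneg.2 h2) (sub_nonneg.2 htn)]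
        · rcases Arith_0 ht with rfl | h1
          · rcases Arith_0 hT with rfl | h2
            · clear hC hQ hs hz; refine ⟨?_, ?_, ?_, ?_, ?_, ?_, ?_, ?_⟩ <;> omega
            · rcases Arith_1 h2 with rfl | h2b
              · clear hC hQ hs hz; refine ⟨?_, ?_, ?_, ?_, ?_, ?_, ?_, ?_⟩ <;> omega
              · clear hC hQ hs hz; refine ⟨?_, ?_, ?_, ?_, ?_, ?_, ?_, ?_⟩ <;> omega
          · rcases Arith_0 hT with rfl | h2
            · rcases Arith_1 h1 with rfl | h1b
              · clear hC hQ hs hz; refine ⟨?_, ?_, ?_, ?_, ?_, ?_, ?_, ?_⟩ <;> omega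
              · clear hC hQ hs hz; refine ⟨?_, ?_, ?_, ?_, ?_, ?_, ?_, ?_⟩ <;> omega
            · exfalso; linarith only [hC, hQ, hn, hp, htn, hTp, h1, h2, mul_nonneg (sub_nonneg.2 h1) (sub_nonneg.2 h2), mul_nonneg (sub_nonneg.2 h1) (sub_nonneg.2 hTp), mul_nonneg (sub_nonneg.2 h2) (sub_nonneg.2 htn)]

private theorem Arith_46 (n p t T e2 e3 e5 e7 : ℤ) (hn : 1 ≤ n) (hp : 1 ≤ p) (ht : 0 ≤ t) (hT : 0 ≤ T)
    (htn : t ≤ n) (hTp : T ≤ p) (he2 : 0 ≤ e2) (ge2 : e2 ≤ 1) (he3 : 0 ≤ e3) (ge3 : e3 ≤ 1) (he5 : 0 ≤ e5) (ge5 : e5 ≤ 1) (he7 : 0 ≤ e7) (ge7 : e7 ≤ 1)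
    (hC : F7_D3 0 (-e2) (-e3) (-t) e5 T e7 = 0)
    (hQ : 2 * F7_E2 0 (-e2) (-e3) (-t) e5 T e7 + F7_M 0 (-e2) (-e3) (-t) e5 T e7 0 (-e2 - 1) (-e3 - 1)
    (-t - n) (e5 - 1) (T - p) (e7 - 1) = 0)
    (hs : ¬ F7_single 0 (-e2) (-e3) (-t) e5 T e7)
    (hz : ¬ (e2 = 0 ∧ e3 = 0 ∧ t = 0 ∧ e5 = 0 ∧ T = 0 ∧ e7 = 0)) :
    e2 = 1 ∧ e3 = 1 ∧ T = 1 ∧ e7 = 1 ∧ (1 : ℤ) = 1 ∧ (1 : ℤ) = 1 ∧ p = 1 ∧ (1 : ℤ) = 1 := by
  simp only [F7_D3, F7_E2, F7_M] at hC hQ
  unfold F7_single at hs
  rcases Arith_01 he2 ge2 with rfl | rfl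
  · rcases Arith_01 he3 ge3 with rfl | rfl
    · rcases Arith_01 he5 ge5 with rfl | rfl
      · rcases Arith_01 he7 ge7 with rfl | rfl
        · rcases Arith_0 ht with rfl | h1
          · rcases Arith_0 hT with rfl | h2
            · exfalso; clear hC hQ; omega
            · exfalso; clear hC hQ; omega
          · rcases Arith_0 hT with rfl | h2
            · exfalso; clear hC hQ; omega
            · exfalso; linarith only [hC, hQ, hn, hp, htn, hTp, h1, h2, mul_nonneg (sub_nonneg.2 h1) (sub_nonneg.2 h2), mul_nonneg (sub_nonneg.2 h1) (sub_nonneg.2 hTp), mul_nonneg (sub_nonneg.2 h2) (sub_nonneg.2 htn)]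
        · rcases Arith_0 ht with rfl | h1
          · rcases Arith_0 hT with rfl | h2
            · exfalso; clear hC hQ; omega
            · exfalso; linarith only [hC, hQ, hn, hp, htn, hTp, h2, mul_nonneg (sub_nonneg.2 h2) (sub_nonneg.2 hn)]
          · rcases Arith_0 hT with rfl | h2
            · exfalso; linarith only [hC, hQ, hn, hp, htn, hTp, h1, mul_nonneg (sub_nonneg.2 h1) (sub_nonneg.2 hp)]
            · exfalso; linarith only [hC, hQ, hn, hp, htn, hTp, h1, h2, mul_nonneg (sub_nonneg.2 h1) (sub_nonneg.2 h2), mul_nonneg (sub_nonneg.2 h1) (sub_nonneg.2 hTp), mul_nonneg (sub_nonneg.2 h2) (sub_nonneg.2 htn)]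
      · rcases Arith_01 he7 ge7 with rfl | rfl
        · rcases Arith_0 ht with rfl | h1
          · rcases Arith_0 hT with rfl | h2
            · exfalso; clear hC hQ; omega
            · exfalso; linarith only [hC, hQ, hn, hp, htn, hTp, h2, mul_nonneg (sub_nonneg.2 h2) (sub_nonneg.2 hn)]
          · rcases Arith_0 hT with rfl | h2
            · exfalso; linarith only [hC, hQ, hn, hp, htn, hTp, h1, mul_nonneg (sub_nonneg.2 h1) (sub_nonneg.2 hp)]
            · exfalso; linarith only [hC, hQ, hn, hp, htn, hTp, h1, h2, mul_nonneg (sub_nonneg.2 h1) (sub_nonneg.2 h2), mul_nonneg (sub_nonneg.2 h1) (sub_nonneg.2 hTp), mul_nonneg (sub_nonneg.2 h2) (sub_nonneg.2 htn)]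
        · rcases Arith_0 ht with rfl | h1
          · rcases Arith_0 hT with rfl | h2
            · exfalso; linarith only [hC, hQ, hn, hp, htn, hTp]
            · exfalso; linarith only [hC, hQ, hn, hp, htn, hTp, h2, mul_nonneg (sub_nonneg.2 h2) (sub_nonneg.2 hn)]
          · rcases Arith_0 hT with rfl | h2
            · exfalso; linarith only [hC, hQ, hn, hp, htn, hTp, h1, mul_nonneg (sub_nonneg.2 h1) (sub_nonneg.2 hp)]
            · exfalso; linarith only [hC, hQ, hn, hp, htn, hTp, h1, h2, mul_nonneg (sub_nonneg.2 h1) (sub_nonneg.2 h2), mul_nonneg (sub_nonneg.2 h1) (sub_nonneg.2 hTp), mul_nonneg (sub_nonneg.2 h2) (sub_nonneg.2 htn)]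
    · rcases Arith_01 he5 ge5 with rfl | rfl
      · rcases Arith_01 he7 ge7 with rfl | rfl
        · rcases Arith_0 ht with rfl | h1
          · rcases Arith_0 hT with rfl | h2
            · exfalso; clear hC hQ; omega
            · exfalso; linarith only [hC, hQ, hn, hp, htn, hTp, h2, mul_nonneg (sub_nonneg.2 h2) (sub_nonneg.2 hn)]
          · rcases Arith_0 hT with rfl | h2
            · exfalso; linarith only [hC, hQ, hn, hp, htn, hTp, h1, mul_nonneg (sub_nonneg.2 h1) (sub_nonneg.2 hp)]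
            · exfalso; linarith only [hC, hQ, hn, hp, htn, hTp, h1, h2, mul_nonneg (sub_nonneg.2 h1) (sub_nonneg.2 h2), mul_nonneg (sub_nonneg.2 h1) (sub_nonneg.2 hTp), mul_nonneg (sub_nonneg.2 h2) (sub_nonneg.2 htn)]
        · rcases Arith_0 ht with rfl | h1
          · rcases Arith_0 hT with rfl | h2
            · exfalso; linarith only [hC, hQ, hn, hp, htn, hTp]
            · exfalso; linarith only [hC, hQ, hn, hp, htn, hTp, h2, mul_nonneg (sub_nonneg.2 h2) (sub_nonneg.2 hn)]
          · rcases Arith_0 hT with rfl | h2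
            · exfalso; linarith only [hC, hQ, hn, hp, htn, hTp, h1, mul_nonneg (sub_nonneg.2 h1) (sub_nonneg.2 hp)]
            · exfalso; linarith only [hC, hQ, hn, hp, htn, hTp, h1, h2, mul_nonneg (sub_nonneg.2 h1) (sub_nonneg.2 h2), mul_nonneg (sub_nonneg.2 h1) (sub_nonneg.2 hTp), mul_nonneg (sub_nonneg.2 h2) (sub_nonneg.2 htn)]
      · rcases Arith_01 he7 ge7 with rfl | rfl
        · rcases Arith_0 ht with rfl | h1
          · rcases Arith_0 hT with rfl | h2
            · exfalso; linarith only [hC, hQ, hn, hp, htn, hTp]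
            · exfalso; linarith only [hC, hQ, hn, hp, htn, hTp, h2, mul_nonneg (sub_nonneg.2 h2) (sub_nonneg.2 hn)]
          · rcases Arith_0 hT with rfl | h2
            · exfalso; linarith only [hC, hQ, hn, hp, htn, hTp, h1, mul_nonneg (sub_nonneg.2 h1) (sub_nonneg.2 hp)]
            · exfalso; linarith only [hC, hQ, hn, hp, htn, hTp, h1, h2, mul_nonneg (sub_nonneg.2 h1) (sub_nonneg.2 h2), mul_nonneg (sub_nonneg.2 h1) (sub_nonneg.2 hTp), mul_nonneg (sub_nonneg.2 h2) (sub_nonneg.2 htn)]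
        · rcases Arith_0 ht with rfl | h1
          · rcases Arith_0 hT with rfl | h2
            · exfalso; linarith only [hC, hQ, hn, hp, htn, hTp]
            · exfalso; linarith only [hC, hQ, hn, hp, htn, hTp, h2, mul_nonneg (sub_nonneg.2 h2) (sub_nonneg.2 hn)]
          · rcases Arith_0 hT with rfl | h2
            · exfalso; linarith only [hC, hQ, hn, hp, htn, hTp, h1, mul_nonneg (sub_nonneg.2 h1) (sub_nonneg.2 hp)]
            · exfalso; linarith only [hC, hQ, hn, hp, htn, hTp, h1, h2, mul_nonneg (sub_nonneg.2 h1) (sub_nonneg.2 h2), mul_nonneg (sub_nonneg.2 h1) (sub_nonneg.2 hTp), mul_nonneg (sub_nonneg.2 h2) (sub_nonneg.2 htn)]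
  · rcases Arith_01 he3 ge3 with rfl | rfl
    · rcases Arith_01 he5 ge5 with rfl | rfl
      · rcases Arith_01 he7 ge7 with rfl | rfl
        · rcases Arith_0 ht with rfl | h1
          · rcases Arith_0 hT with rfl | h2
            · exfalso; clear hC hQ; omega
            · exfalso; linarith only [hC, hQ, hn, hp, htn, hTp, h2, mul_nonneg (sub_nonneg.2 h2) (sub_nonneg.2 hn)]
          · rcases Arith_0 hT with rfl | h2
            · exfalso; linarith only [hC, hQ, hn, hp, htn, hTp, h1, mul_nonneg (sub_nonneg.2 h1) (sub_nonneg.2 hp)]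
            · exfalso; linarith only [hC, hQ, hn, hp, htn, hTp, h1, h2, mul_nonneg (sub_nonneg.2 h1) (sub_nonneg.2 h2), mul_nonneg (sub_nonneg.2 h1) (sub_nonneg.2 hTp), mul_nonneg (sub_nonneg.2 h2) (sub_nonneg.2 htn)]
        · rcases Arith_0 ht with rfl | h1
          · rcases Arith_0 hT with rfl | h2
            · exfalso; linarith only [hC, hQ, hn, hp, htn, hTp]
            · exfalso; linarith only [hC, hQ, hn, hp, htn, hTp, h2, mul_nonneg (sub_nonneg.2 h2) (sub_nonneg.2 hn)]
          · rcases Arith_0 hT with rfl | h2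
            · exfalso; linarith only [hC, hQ, hn, hp, htn, hTp, h1, mul_nonneg (sub_nonneg.2 h1) (sub_nonneg.2 hp)]
            · exfalso; linarith only [hC, hQ, hn, hp, htn, hTp, h1, h2, mul_nonneg (sub_nonneg.2 h1) (sub_nonneg.2 h2), mul_nonneg (sub_nonneg.2 h1) (sub_nonneg.2 hTp), mul_nonneg (sub_nonneg.2 h2) (sub_nonneg.2 htn)]
      · rcases Arith_01 he7 ge7 with rfl | rfl
        · rcases Arith_0 ht with rfl | h1
          · rcases Arith_0 hT with rfl | h2
            · exfalso; linarith only [hC, hQ, hn, hp, htn, hTp]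
            · exfalso; linarith only [hC, hQ, hn, hp, htn, hTp, h2, mul_nonneg (sub_nonneg.2 h2) (sub_nonneg.2 hn)]
          · rcases Arith_0 hT with rfl | h2
            · exfalso; linarith only [hC, hQ, hn, hp, htn, hTp, h1, mul_nonneg (sub_nonneg.2 h1) (sub_nonneg.2 hp)]
            · exfalso; linarith only [hC, hQ, hn, hp, htn, hTp, h1, h2, mul_nonneg (sub_nonneg.2 h1) (sub_nonneg.2 h2), mul_nonneg (sub_nonneg.2 h1) (sub_nonneg.2 hTp), mul_nonneg (sub_nonneg.2 h2) (sub_nonneg.2 htn)]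
        · rcases Arith_0 ht with rfl | h1
          · rcases Arith_0 hT with rfl | h2
            · exfalso; linarith only [hC, hQ, hn, hp, htn, hTp]
            · exfalso; linarith only [hC, hQ, hn, hp, htn, hTp, h2, mul_nonneg (sub_nonneg.2 h2) (sub_nonneg.2 hn)]
          · rcases Arith_0 hT with rfl | h2
            · exfalso; linarith only [hC, hQ, hn, hp, htn, hTp, h1, mul_nonneg (sub_nonneg.2 h1) (sub_nonneg.2 hp)]
            · exfalso; linarith only [hC, hQ, hn, hp, htn, hTp, h1, h2, mul_nonneg (sub_nonneg.2 h1) (sub_nonneg.2 h2), mul_nonneg (sub_nonneg.2 h1) (sub_nonneg.2 hTp), mul_nonneg (sub_nonneg.2 h2) (sub_nonneg.2 htn)]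
    · rcases Arith_01 he5 ge5 with rfl | rfl
      · rcases Arith_01 he7 ge7 with rfl | rfl
        · rcases Arith_0 ht with rfl | h1
          · rcases Arith_0 hT with rfl | h2
            · exfalso; linarith only [hC, hQ, hn, hp, htn, hTp]
            · exfalso; linarith only [hC, hQ, hn, hp, htn, hTp, h2, mul_nonneg (sub_nonneg.2 h2) (sub_nonneg.2 hn)]
          · rcases Arith_0 hT with rfl | h2
            · exfalso; linarith only [hC, hQ, hn, hp, htn, hTp, h1, mul_nonneg (sub_nonneg.2 h1) (sub_nonneg.2 hp)]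
            · exfalso; linarith only [hC, hQ, hn, hp, htn, hTp, h1, h2, mul_nonneg (sub_nonneg.2 h1) (sub_nonneg.2 h2), mul_nonneg (sub_nonneg.2 h1) (sub_nonneg.2 hTp), mul_nonneg (sub_nonneg.2 h2) (sub_nonneg.2 htn)]
        · rcases Arith_0 ht with rfl | h1
          · rcases Arith_0 hT with rfl | h2
            · exfalso; linarith only [hC, hQ, hn, hp, htn, hTp]
            · rcases Arith_1 h2 with rfl | h2b
              · rcases Arith_1 hp with rfl | h4
                · clear hC hQ hs hz; refine ⟨?_, ?_, ?_, ?_, ?_, ?_, ?_, ?_⟩ <;> omega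
                · exfalso; linarith only [hC, hQ, hn, hp, htn, hTp, h4]
              · exfalso; linarith only [hC, hQ, hn, hp, htn, hTp, h2, h2b, mul_nonneg (sub_nonneg.2 h2) (sub_nonneg.2 hn)]
          · rcases Arith_0 hT with rfl | h2
            · exfalso; linarith only [hC, hQ, hn, hp, htn, hTp, h1, mul_nonneg (sub_nonneg.2 h1) (sub_nonneg.2 hp)]
            · rcases Arith_1 h1 with rfl | h1b
              · rcases Arith_1 h2 with rfl | h2b
                · rcases Arith_1 hp with rfl | h4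
                  · clear hC hQ hs hz; refine ⟨?_, ?_, ?_, ?_, ?_, ?_, ?_, ?_⟩ <;> omega
                  · exfalso; linarith only [hC, hQ, hn, hp, htn, hTp, h4]
                · exfalso; linarith only [hC, hQ, hn, hp, htn, hTp, h2, h2b, mul_nonneg (sub_nonneg.2 h2) (sub_nonneg.2 hn)]
              · rcases Arith_1 h2 with rfl | h2b
                · rcases Arith_1 hp with rfl | h4
                  · clear hC hQ hs hz; refine ⟨?_, ?_, ?_, ?_, ?_, ?_, ?_, ?_⟩ <;> omega
                  · exfalso; linarith only [hC, hQ, hn, hp, htn, hTp, h1, h1b, h4, mul_nonneg (sub_nonneg.2 h1) (sub_nonneg.2 hp)]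
                · exfalso; linarith only [hC, hQ, hn, hp, htn, hTp, h1, h2, h1b, h2b, mul_nonneg (sub_nonneg.2 h1) (sub_nonneg.2 h2), mul_nonneg (sub_nonneg.2 h1) (sub_nonneg.2 hTp), mul_nonneg (sub_nonneg.2 h2) (sub_nonneg.2 htn)]
      · rcases Arith_01 he7 ge7 with rfl | rfl
        · rcases Arith_0 ht with rfl | h1
          · rcases Arith_0 hT with rfl | h2
            · exfalso; linarith only [hC, hQ, hn, hp, htn, hTp]
            · exfalso; linarith only [hC, hQ, hn, hp, htn, hTp, h2, mul_nonneg (sub_nonneg.2 h2) (sub_nonneg.2 hn)]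
          · rcases Arith_0 hT with rfl | h2
            · exfalso; linarith only [hC, hQ, hn, hp, htn, hTp, h1, mul_nonneg (sub_nonneg.2 h1) (sub_nonneg.2 hp)]
            · exfalso; linarith only [hC, hQ, hn, hp, htn, hTp, h1, h2, mul_nonneg (sub_nonneg.2 h1) (sub_nonneg.2 h2), mul_nonneg (sub_nonneg.2 h1) (sub_nonneg.2 hTp), mul_nonneg (sub_nonneg.2 h2) (sub_nonneg.2 htn)]
        · rcases Arith_0 ht with rfl | h1
          · rcases Arith_0 hT with rfl | h2
            · exfalso; linarith only [hC, hQ, hn, hp, htn, hTp]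
            · rcases Arith_1 h2 with rfl | h2b
              · rcases Arith_1 hp with rfl | h4
                · clear hC hQ hs hz; refine ⟨?_, ?_, ?_, ?_, ?_, ?_, ?_, ?_⟩ <;> omega
                · exfalso; linarith only [hC, hQ, hn, hp, htn, hTp, h4]
              · exfalso; linarith only [hC, hQ, hn, hp, htn, hTp, h2, h2b, mul_nonneg (sub_nonneg.2 h2) (sub_nonneg.2 hn)]
          · rcases Arith_0 hT with rfl | h2
            · exfalso; linarith only [hC, hQ, hn, hp, htn, hTp, h1, mul_nonneg (sub_nonneg.2 h1) (sub_nonneg.2 hp)]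
            · exfalso; nlinarith only [hC, hQ, hn, hp, htn, hTp, h1, h2, mul_nonneg (sub_nonneg.2 h1) (sub_nonneg.2 h2), mul_nonneg (sub_nonneg.2 h1) (sub_nonneg.2 hTp), mul_nonneg (sub_nonneg.2 h2) (sub_nonneg.2 htn)]

private theorem Arith_47 (n p t T e2 e3 e5 e6 : ℤ) (hn : 1 ≤ n) (hp : 1 ≤ p) (ht : 0 ≤ t) (hT : 0 ≤ T)
    (htn : t ≤ n) (hTp : T ≤ p) (he2 : 0 ≤ e2) (ge2 : e2 ≤ 1) (he3 : 0 ≤ e3) (ge3 : e3 ≤ 1) (he5 : 0 ≤ e5) (ge5 : e5 ≤ 1) (he6 : 0 ≤ e6) (ge6 : e6 ≤ 1)
    (hC : F7_D3 0 (-e2) (-e3) (-t) e5 e6 T = 0)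
    (hQ : 2 * F7_E2 0 (-e2) (-e3) (-t) e5 e6 T + F7_M 0 (-e2) (-e3) (-t) e5 e6 T 0 (-e2 - 1) (-e3 - 1)
    (-t - n) (e5 - 1) (e6 - 1) (T - p) = 0)
    (hs : ¬ F7_single 0 (-e2) (-e3) (-t) e5 e6 T)
    (hz : ¬ (e2 = 0 ∧ e3 = 0 ∧ t = 0 ∧ e5 = 0 ∧ e6 = 0 ∧ T = 0)) :
    e2 = 1 ∧ e3 = 1 ∧ e6 = 1 ∧ T = 1 ∧ (1 : ℤ) = 1 ∧ (1 : ℤ) = 1 ∧ (1 : ℤ) = 1 ∧ p = 1 := by
  simp only [F7_D3, F7_E2, F7_M] at hC hQ
  unfold F7_single at hs
  rcases Arith_01 he2 ge2 with rfl | rfl
  · rcases Arith_01 he3 ge3 with rfl | rfl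
    · rcases Arith_01 he5 ge5 with rfl | rfl
      · rcases Arith_01 he6 ge6 with rfl | rfl
        · rcases Arith_0 ht with rfl | h1
          · rcases Arith_0 hT with rfl | h2
            · exfalso; clear hC hQ; omega
            · exfalso; clear hC hQ; omega
          · rcases Arith_0 hT with rfl | h2
            · exfalso; clear hC hQ; omega
            · exfalso; linarith only [hC, hQ, hn, hp, htn, hTp, h1, h2, mul_nonneg (sub_nonneg.2 h1) (sub_nonneg.2 h2), mul_nonneg (sub_nonneg.2 h1) (sub_nonneg.2 hTp), mul_nonneg (sub_nonneg.2 h2) (sub_nonneg.2 htn)]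
        · rcases Arith_0 ht with rfl | h1
          · rcases Arith_0 hT with rfl | h2
            · exfalso; clear hC hQ; omega
            · exfalso; linarith only [hC, hQ, hn, hp, htn, hTp, h2, mul_nonneg (sub_nonneg.2 h2) (sub_nonneg.2 hn)]
          · rcases Arith_0 hT with rfl | h2
            · exfalso; linarith only [hC, hQ, hn, hp, htn, hTp, h1, mul_nonneg (sub_nonneg.2 h1) (sub_nonneg.2 hp)]
            · exfalso; linarith only [hC, hQ, hn, hp, htn, hTp, h1, h2, mul_nonneg (sub_nonneg.2 h1) (sub_nonneg.2 h2), mul_nonneg (sub_nonneg.2 h1) (sub_nonneg.2 hTp), mul_nonneg (sub_nonneg.2 h2) (sub_nonneg.2 htn)]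
      · rcases Arith_01 he6 ge6 with rfl | rfl
        · rcases Arith_0 ht with rfl | h1
          · rcases Arith_0 hT with rfl | h2
            · exfalso; clear hC hQ; omega
            · exfalso; linarith only [hC, hQ, hn, hp, htn, hTp, h2, mul_nonneg (sub_nonneg.2 h2) (sub_nonneg.2 hn)]
          · rcases Arith_0 hT with rfl | h2
            · exfalso; linarith only [hC, hQ, hn, hp, htn, hTp, h1, mul_nonneg (sub_nonneg.2 h1) (sub_nonneg.2 hp)]
            · exfalso; linarith only [hC, hQ, hn, hp, htn, hTp, h1, h2, mul_nonneg (sub_nonneg.2 h1) (sub_nonneg.2 h2), mul_nonneg (sub_nonneg.2 h1) (sub_nonneg.2 hTp), mul_nonneg (sub_nonneg.2 h2) (sub_nonneg.2 htn)]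
        · rcases Arith_0 ht with rfl | h1
          · rcases Arith_0 hT with rfl | h2
            · exfalso; linarith only [hC, hQ, hn, hp, htn, hTp]
            · exfalso; linarith only [hC, hQ, hn, hp, htn, hTp, h2, mul_nonneg (sub_nonneg.2 h2) (sub_nonneg.2 hn)]
          · rcases Arith_0 hT with rfl | h2
            · exfalso; linarith only [hC, hQ, hn, hp, htn, hTp, h1, mul_nonneg (sub_nonneg.2 h1) (sub_nonneg.2 hp)]
            · exfalso; linarith only [hC, hQ, hn, hp, htn, hTp, h1, h2, mul_nonneg (sub_nonneg.2 h1) (sub_nonneg.2 h2), mul_nonneg (sub_nonneg.2 h1) (sub_nonneg.2 hTp), mul_nonneg (sub_nonneg.2 h2) (sub_nonneg.2 htn)]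
    · rcases Arith_01 he5 ge5 with rfl | rfl
      · rcases Arith_01 he6 ge6 with rfl | rfl
        · rcases Arith_0 ht with rfl | h1
          · rcases Arith_0 hT with rfl | h2
            · exfalso; clear hC hQ; omega
            · exfalso; linarith only [hC, hQ, hn, hp, htn, hTp, h2, mul_nonneg (sub_nonneg.2 h2) (sub_nonneg.2 hn)]
          · rcases Arith_0 hT with rfl | h2
            · exfalso; linarith only [hC, hQ, hn, hp, htn, hTp, h1, mul_nonneg (sub_nonneg.2 h1) (sub_nonneg.2 hp)]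
            · exfalso; linarith only [hC, hQ, hn, hp, htn, hTp, h1, h2, mul_nonneg (sub_nonneg.2 h1) (sub_nonneg.2 h2), mul_nonneg (sub_nonneg.2 h1) (sub_nonneg.2 hTp), mul_nonneg (sub_nonneg.2 h2) (sub_nonneg.2 htn)]
        · rcases Arith_0 ht with rfl | h1
          · rcases Arith_0 hT with rfl | h2
            · exfalso; linarith only [hC, hQ, hn, hp, htn, hTp]
            · exfalso; linarith only [hC, hQ, hn, hp, htn, hTp, h2, mul_nonneg (sub_nonneg.2 h2) (sub_nonneg.2 hn)]
          · rcases Arith_0 hT with rfl | h2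
            · exfalso; linarith only [hC, hQ, hn, hp, htn, hTp, h1, mul_nonneg (sub_nonneg.2 h1) (sub_nonneg.2 hp)]
            · exfalso; linarith only [hC, hQ, hn, hp, htn, hTp, h1, h2, mul_nonneg (sub_nonneg.2 h1) (sub_nonneg.2 h2), mul_nonneg (sub_nonneg.2 h1) (sub_nonneg.2 hTp), mul_nonneg (sub_nonneg.2 h2) (sub_nonneg.2 htn)]
      · rcases Arith_01 he6 ge6 with rfl | rfl
        · rcases Arith_0 ht with rfl | h1
          · rcases Arith_0 hT with rfl | h2
            · exfalso; linarith only [hC, hQ, hn, hp, htn, hTp]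
            · exfalso; linarith only [hC, hQ, hn, hp, htn, hTp, h2, mul_nonneg (sub_nonneg.2 h2) (sub_nonneg.2 hn)]
          · rcases Arith_0 hT with rfl | h2
            · exfalso; linarith only [hC, hQ, hn, hp, htn, hTp, h1, mul_nonneg (sub_nonneg.2 h1) (sub_nonneg.2 hp)]
            · exfalso; linarith only [hC, hQ, hn, hp, htn, hTp, h1, h2, mul_nonneg (sub_nonneg.2 h1) (sub_nonneg.2 h2), mul_nonneg (sub_nonneg.2 h1) (sub_nonneg.2 hTp), mul_nonneg (sub_nonneg.2 h2) (sub_nonneg.2 htn)]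
        · rcases Arith_0 ht with rfl | h1
          · rcases Arith_0 hT with rfl | h2
            · exfalso; linarith only [hC, hQ, hn, hp, htn, hTp]
            · exfalso; linarith only [hC, hQ, hn, hp, htn, hTp, h2, mul_nonneg (sub_nonneg.2 h2) (sub_nonneg.2 hn)]
          · rcases Arith_0 hT with rfl | h2
            · exfalso; linarith only [hC, hQ, hn, hp, htn, hTp, h1, mul_nonneg (sub_nonneg.2 h1) (sub_nonneg.2 hp)]
            · exfalso; linarith only [hC, hQ, hn, hp, htn, hTp, h1, h2, mul_nonneg (sub_nonneg.2 h1) (sub_nonneg.2 h2), mul_nonneg (sub_nonneg.2 h1) (sub_nonneg.2 hTp), mul_nonneg (sub_nonneg.2 h2) (sub_nonneg.2 htn)]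
  · rcases Arith_01 he3 ge3 with rfl | rfl
    · rcases Arith_01 he5 ge5 with rfl | rfl
      · rcases Arith_01 he6 ge6 with rfl | rfl
        · rcases Arith_0 ht with rfl | h1
          · rcases Arith_0 hT with rfl | h2
            · exfalso; clear hC hQ; omega
            · exfalso; linarith only [hC, hQ, hn, hp, htn, hTp, h2, mul_nonneg (sub_nonneg.2 h2) (sub_nonneg.2 hn)]
          · rcases Arith_0 hT with rfl | h2
            · exfalso; linarith only [hC, hQ, hn, hp, htn, hTp, h1, mul_nonneg (sub_nonneg.2 h1) (sub_nonneg.2 hp)]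
            · exfalso; linarith only [hC, hQ, hn, hp, htn, hTp, h1, h2, mul_nonneg (sub_nonneg.2 h1) (sub_nonneg.2 h2), mul_nonneg (sub_nonneg.2 h1) (sub_nonneg.2 hTp), mul_nonneg (sub_nonneg.2 h2) (sub_nonneg.2 htn)]
        · rcases Arith_0 ht with rfl | h1
          · rcases Arith_0 hT with rfl | h2
            · exfalso; linarith only [hC, hQ, hn, hp, htn, hTp]
            · exfalso; linarith only [hC, hQ, hn, hp, htn, hTp, h2, mul_nonneg (sub_nonneg.2 h2) (sub_nonneg.2 hn)]
          · rcases Arith_0 hT with rfl | h2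
            · exfalso; linarith only [hC, hQ, hn, hp, htn, hTp, h1, mul_nonneg (sub_nonneg.2 h1) (sub_nonneg.2 hp)]
            · exfalso; linarith only [hC, hQ, hn, hp, htn, hTp, h1, h2, mul_nonneg (sub_nonneg.2 h1) (sub_nonneg.2 h2), mul_nonneg (sub_nonneg.2 h1) (sub_nonneg.2 hTp), mul_nonneg (sub_nonneg.2 h2) (sub_nonneg.2 htn)]
      · rcases Arith_01 he6 ge6 with rfl | rfl
        · rcases Arith_0 ht with rfl | h1
          · rcases Arith_0 hT with rfl | h2
            · exfalso; linarith only [hC, hQ, hn, hp, htn, hTp]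
            · exfalso; linarith only [hC, hQ, hn, hp, htn, hTp, h2, mul_nonneg (sub_nonneg.2 h2) (sub_nonneg.2 hn)]
          · rcases Arith_0 hT with rfl | h2
            · exfalso; linarith only [hC, hQ, hn, hp, htn, hTp, h1, mul_nonneg (sub_nonneg.2 h1) (sub_nonneg.2 hp)]
            · exfalso; linarith only [hC, hQ, hn, hp, htn, hTp, h1, h2, mul_nonneg (sub_nonneg.2 h1) (sub_nonneg.2 h2), mul_nonneg (sub_nonneg.2 h1) (sub_nonneg.2 hTp), mul_nonneg (sub_nonneg.2 h2) (sub_nonneg.2 htn)]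
        · rcases Arith_0 ht with rfl | h1
          · rcases Arith_0 hT with rfl | h2
            · exfalso; linarith only [hC, hQ, hn, hp, htn, hTp]
            · exfalso; linarith only [hC, hQ, hn, hp, htn, hTp, h2, mul_nonneg (sub_nonneg.2 h2) (sub_nonneg.2 hn)]
          · rcases Arith_0 hT with rfl | h2
            · exfalso; linarith only [hC, hQ, hn, hp, htn, hTp, h1, mul_nonneg (sub_nonneg.2 h1) (sub_nonneg.2 hp)]
            · exfalso; linarith only [hC, hQ, hn, hp, htn, hTp, h1, h2, mul_nonneg (sub_nonneg.2 h1) (sub_nonneg.2 h2), mul_nonneg (sub_nonneg.2 h1) (sub_nonneg.2 hTp), mul_nonneg (sub_nonneg.2 h2) (sub_nonneg.2 htn)]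
    · rcases Arith_01 he5 ge5 with rfl | rfl
      · rcases Arith_01 he6 ge6 with rfl | rfl
        · rcases Arith_0 ht with rfl | h1
          · rcases Arith_0 hT with rfl | h2
            · exfalso; linarith only [hC, hQ, hn, hp, htn, hTp]
            · exfalso; linarith only [hC, hQ, hn, hp, htn, hTp, h2, mul_nonneg (sub_nonneg.2 h2) (sub_nonneg.2 hn)]
          · rcases Arith_0 hT with rfl | h2
            · exfalso; linarith only [hC, hQ, hn, hp, htn, hTp, h1, mul_nonneg (sub_nonneg.2 h1) (sub_nonneg.2 hp)]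
            · exfalso; linarith only [hC, hQ, hn, hp, htn, hTp, h1, h2, mul_nonneg (sub_nonneg.2 h1) (sub_nonneg.2 h2), mul_nonneg (sub_nonneg.2 h1) (sub_nonneg.2 hTp), mul_nonneg (sub_nonneg.2 h2) (sub_nonneg.2 htn)]
        · rcases Arith_0 ht with rfl | h1
          · rcases Arith_0 hT with rfl | h2
            · exfalso; linarith only [hC, hQ, hn, hp, htn, hTp]
            · rcases Arith_1 h2 with rfl | h2b
              · rcases Arith_1 hp with rfl | h4
                · clear hC hQ hs hz; refine ⟨?_, ?_, ?_, ?_, ?_, ?_, ?_, ?_⟩ <;> omega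
                · exfalso; linarith only [hC, hQ, hn, hp, htn, hTp, h4]
              · exfalso; linarith only [hC, hQ, hn, hp, htn, hTp, h2, h2b, mul_nonneg (sub_nonneg.2 h2) (sub_nonneg.2 hn)]
          · rcases Arith_0 hT with rfl | h2
            · exfalso; linarith only [hC, hQ, hn, hp, htn, hTp, h1, mul_nonneg (sub_nonneg.2 h1) (sub_nonneg.2 hp)]
            · rcases Arith_1 h1 with rfl | h1b
              · rcases Arith_1 h2 with rfl | h2b
                · rcases Arith_1 hp with rfl | h4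
                  · clear hC hQ hs hz; refine ⟨?_, ?_, ?_, ?_, ?_, ?_, ?_, ?_⟩ <;> omega
                  · exfalso; linarith only [hC, hQ, hn, hp, htn, hTp, h4]
                · exfalso; linarith only [hC, hQ, hn, hp, htn, hTp, h2, h2b, mul_nonneg (sub_nonneg.2 h2) (sub_nonneg.2 hn)]
              · rcases Arith_1 h2 with rfl | h2b
                · rcases Arith_1 hp with rfl | h4
                  · clear hC hQ hs hz; refine ⟨?_, ?_, ?_, ?_, ?_, ?_, ?_, ?_⟩ <;> omega
                  · exfalso; linarith only [hC, hQ, hn, hp, htn, hTp, h1, h1b, h4, mul_nonneg (sub_nonneg.2 h1) (sub_nonneg.2 hp)]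
                · exfalso; linarith only [hC, hQ, hn, hp, htn, hTp, h1, h2, h1b, h2b, mul_nonneg (sub_nonneg.2 h1) (sub_nonneg.2 h2), mul_nonneg (sub_nonneg.2 h1) (sub_nonneg.2 hTp), mul_nonneg (sub_nonneg.2 h2) (sub_nonneg.2 htn)]
      · rcases Arith_01 he6 ge6 with rfl | rfl
        · rcases Arith_0 ht with rfl | h1
          · rcases Arith_0 hT with rfl | h2
            · exfalso; linarith only [hC, hQ, hn, hp, htn, hTp]
            · exfalso; linarith only [hC, hQ, hn, hp, htn, hTp, h2, mul_nonneg (sub_nonneg.2 h2) (sub_nonneg.2 hn)]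
          · rcases Arith_0 hT with rfl | h2
            · exfalso; linarith only [hC, hQ, hn, hp, htn, hTp, h1, mul_nonneg (sub_nonneg.2 h1) (sub_nonneg.2 hp)]
            · exfalso; linarith only [hC, hQ, hn, hp, htn, hTp, h1, h2, mul_nonneg (sub_nonneg.2 h1) (sub_nonneg.2 h2), mul_nonneg (sub_nonneg.2 h1) (sub_nonneg.2 hTp), mul_nonneg (sub_nonneg.2 h2) (sub_nonneg.2 htn)]
        · rcases Arith_0 ht with rfl | h1
          · rcases Arith_0 hT with rfl | h2
            · exfalso; linarith only [hC, hQ, hn, hp, htn, hTp]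
            · rcases Arith_1 h2 with rfl | h2b
              · rcases Arith_1 hp with rfl | h4
                · clear hC hQ hs hz; refine ⟨?_, ?_, ?_, ?_, ?_, ?_, ?_, ?_⟩ <;> omega
                · exfalso; linarith only [hC, hQ, hn, hp, htn, hTp, h4]
              · exfalso; linarith only [hC, hQ, hn, hp, htn, hTp, h2, h2b, mul_nonneg (sub_nonneg.2 h2) (sub_nonneg.2 hn)]
          · rcases Arith_0 hT with rfl | h2
            · exfalso; linarith only [hC, hQ, hn, hp, htn, hTp, h1, mul_nonneg (sub_nonneg.2 h1) (sub_nonneg.2 hp)]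
            · exfalso; nlinarith only [hC, hQ, hn, hp, htn, hTp, h1, h2, mul_nonneg (sub_nonneg.2 h1) (sub_nonneg.2 h2), mul_nonneg (sub_nonneg.2 h1) (sub_nonneg.2 hTp), mul_nonneg (sub_nonneg.2 h2) (sub_nonneg.2 htn)]

/-- **ARITH**: the bilinear integer equations. -/
theorem thm_Arith : St_Arith := by
  intro n2 n3 n4 n5 n6 n7 t2 t3 t4 t5 t6 t7 a2 a3 a4 a5 a6 a7 b2 b3 b4 b5 b6 b7 c2 c3 c4 c5 c6 c7
    hx hy hC hQ hs hz
  rcases hx with ⟨rfl, rfl⟩ | ⟨rfl, rfl⟩ | ⟨rfl, rfl⟩
  · rcases hy with ⟨rfl, rfl⟩ | ⟨rfl, rfl⟩ | ⟨rfl, rfl⟩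
    · exact Arith_47 n4 n7 t4 t7 t2 t3 t5 t6 a4 a7 b4 b7 c4 c7 b2 c2 b3 c3 b5 c5 b6 c6 hC hQ hs hz
    · exact Arith_46 n4 n6 t4 t6 t2 t3 t5 t7 a4 a6 b4 b6 c4 c6 b2 c2 b3 c3 b5 c5 b7 c7 hC hQ hs hz
    · exact Arith_45 n4 n5 t4 t5 t2 t3 t6 t7 a4 a5 b4 b5 c4 c5 b2 c2 b3 c3 b6 c6 b7 c7 hC hQ hs hz
  · rcases hy with ⟨rfl, rfl⟩ | ⟨rfl, rfl⟩ | ⟨rfl, rfl⟩
    · exact Arith_37 n3 n7 t3 t7 t2 t4 t5 t6 a3 a7 b3 b7 c3 c7 b2 c2 b4 c4 b5 c5 b6 c6 hC hQ hs hz
    · exact Arith_36 n3 n6 t3 t6 t2 t4 t5 t7 a3 a6 b3 b6 c3 c6 b2 c2 b4 c4 b5 c5 b7 c7 hC hQ hs hz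
    · exact Arith_35 n3 n5 t3 t5 t2 t4 t6 t7 a3 a5 b3 b5 c3 c5 b2 c2 b4 c4 b6 c6 b7 c7 hC hQ hs hz
  · rcases hy with ⟨rfl, rfl⟩ | ⟨rfl, rfl⟩ | ⟨rfl, rfl⟩
    · exact Arith_27 n2 n7 t2 t7 t3 t4 t5 t6 a2 a7 b2 b7 c2 c7 b3 c3 b4 c4 b5 c5 b6 c6 hC hQ hs hz
    · exact Arith_26 n2 n6 t2 t6 t3 t4 t5 t7 a2 a6 b2 b6 c2 c6 b3 c3 b4 c4 b5 c5 b7 c7 hC hQ hs hz
    · exact Arith_25 n2 n5 t2 t5 t3 t4 t6 t7 a2 a5 b2 b5 c2 c5 b3 c3 b4 c4 b6 c6 b7 c7 hC hQ hs hz

end Pool.Agent.TRD
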