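import Pool.Agent.TRD.St

/-!
# TRD: Bone (exactly one coloop)
-/

set_option autoImplicit false

open Filter Topology

namespace Pool.Agent.TRD

open Pool.Agent.C8

private noncomputable def Bone_P (a b c d e f g X E F G : ℂ) : ℂ :=
  X * (1 + a + b + c + a * b + a * c + b * c) +
    E * ((1 + a + b + c + a * b + a * c + b * c) - (1 + b + c)) +
    F * ((1 + a + b + c + a * b + a * c + b * c) - (1 + a + c)) +
    G * ((1 + a + b + c + a * b + a * c + b * c) - (1 + a + b)) +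
    X * (1 + b + c) * e + X * (1 + a + c) * f + X * (1 + a + b) * g +
    E * f * (1 + a + b + d) + E * g * (1 + a + c + d) + F * g * (1 + b + c + d) + E * f * g

private theorem Bone_id (a b c d e f g t : ℂ) :
    Bone_P a b c d e f g (t * (1 + d)) (t * e) (t * f) (t * g) = t * F7 a b c d e f g := by
  unfold Bone_P F7
  ring

private theorem Bone_lim {a b c d e f g X E F G : ℝ → ℂ} {a0 b0 c0 d0 e0 f0 g0 X0 E0 F0 G0 : ℂ}
    (ha : Tendsto a atTop (𝓝 a0)) (hb : Tendsto b atTop (𝓝 b0)) (hc : Tendsto c atTop (𝓝 c0))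
    (hd : Tendsto d atTop (𝓝 d0)) (he : Tendsto e atTop (𝓝 e0)) (hf : Tendsto f atTop (𝓝 f0))
    (hg : Tendsto g atTop (𝓝 g0)) (hX : Tendsto X atTop (𝓝 X0)) (hE : Tendsto E atTop (𝓝 E0))
    (hF : Tendsto F atTop (𝓝 F0)) (hG : Tendsto G atTop (𝓝 G0)) :
    Tendsto (fun s => Bone_P (a s) (b s) (c s) (d s) (e s) (f s) (g s) (X s) (E s) (F s) (G s))
      atTop (𝓝 (Bone_P a0 b0 c0 d0 e0 f0 g0 X0 E0 F0 G0)) := by
  have h1 : Tendsto (fun _ : ℝ => (1 : ℂ)) atTop (𝓝 1) := tendsto_const_nhds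
  have hΛ := (((((h1.add ha).add hb).add hc).add (ha.mul hb)).add (ha.mul hc)).add (hb.mul hc)
  have hbc := (h1.add hb).add hc
  have hac := (h1.add ha).add hc
  have hab := (h1.add ha).add hb
  unfold Bone_P
  exact ((((((((((hX.mul hΛ).add (hE.mul (hΛ.sub hbc))).add (hF.mul (hΛ.sub hac))).add
    (hG.mul (hΛ.sub hab))).add ((hX.mul hbc).mul he)).add ((hX.mul hac).mul hf)).add
    ((hX.mul hab).mul hg)).add ((hE.mul hf).mul (hab.add hd))).add
    ((hE.mul hg).mul (hac.add hd))).add ((hF.mul hg).mul (hbc.add hd))).add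
    ((hE.mul hf).mul hg)

/-- the value of `Λ` at infinity -/
private def Bone_L (x y z : ℤ) : ℤ := 1 - (x + y + z) + (x * y + x * z + y * z)

private theorem Bone_core (hS : St_Scale) (l : Fin 7 → List ℤ)
    (h0 : ∀ s : ℝ, 1 < s → FL l (s : ℂ) = 0) (hnz : ∀ i, ∀ n ∈ l i, n ≠ 0)
    (h4 : neg (l 4) = 0) (h5 : neg (l 5) = 0) (h6 : neg (l 6) = 0) (k : List ℤ)
    (hcs : ∀ s : ℝ, 1 < s → 1 + cs (l 3) (s : ℂ) = cs k (s : ℂ) + neg k)
    (q : ℕ) (hq : 0 < q) (hqk : ∀ n ∈ k, (q : ℤ) ≤ |n|) (hq4 : ∀ n ∈ l 4, (q : ℤ) ≤ |n|)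
    (hq5 : ∀ n ∈ l 5, (q : ℤ) ≤ |n|) (hq6 : ∀ n ∈ l 6, (q : ℤ) ≤ |n|) :
    ((k.count (q : ℤ) : ℤ) - k.count (-(q : ℤ))) *
        Bone_L (neg (l 0)) (neg (l 1)) (neg (l 2)) +
      (((l 4).count (q : ℤ) : ℤ) - (l 4).count (-(q : ℤ))) *
        (Bone_L (neg (l 0)) (neg (l 1)) (neg (l 2)) - 1 + neg (l 1) + neg (l 2)) +
      (((l 5).count (q : ℤ) : ℤ) - (l 5).count (-(q : ℤ))) *
        (Bone_L (neg (l 0)) (neg (l 1)) (neg (l 2)) - 1 + neg (l 0) + neg (l 2)) +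
      (((l 6).count (q : ℤ) : ℤ) - (l 6).count (-(q : ℤ))) *
        (Bone_L (neg (l 0)) (neg (l 1)) (neg (l 2)) - 1 + neg (l 0) + neg (l 1)) = 0 := by
  have hX : Tendsto (fun s : ℝ => (s : ℂ) ^ q * (1 + cs (l 3) (s : ℂ))) atTop
      (𝓝 ((k.count (q : ℤ) : ℂ) - k.count (-(q : ℤ)))) := by
    refine (hS.2 q k hq hqk).congr' ?_
    filter_upwards [eventually_gt_atTop (1 : ℝ)] with s hs
    rw [hcs s hs]
  have hE : Tendsto (fun s : ℝ => (s : ℂ) ^ q * cs (l 4) (s : ℂ)) atTop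
      (𝓝 (((l 4).count (q : ℤ) : ℂ) - (l 4).count (-(q : ℤ)))) := by
    have h := hS.2 q (l 4) hq hq4
    rw [h4] at h
    simpa only [Nat.cast_zero, add_zero] using h
  have hF : Tendsto (fun s : ℝ => (s : ℂ) ^ q * cs (l 5) (s : ℂ)) atTop
      (𝓝 (((l 5).count (q : ℤ) : ℂ) - (l 5).count (-(q : ℤ)))) := by
    have h := hS.2 q (l 5) hq hq5
    rw [h5] at h
    simpa only [Nat.cast_zero, add_zero] using h
  have hG : Tendsto (fun s : ℝ => (s : ℂ) ^ q * cs (l 6) (s : ℂ)) atTop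
      (𝓝 (((l 6).count (q : ℤ) : ℂ) - (l 6).count (-(q : ℤ)))) := by
    have h := hS.2 q (l 6) hq hq6
    rw [h6] at h
    simpa only [Nat.cast_zero, add_zero] using h
  have h := Bone_lim (hS.1 (l 0) (hnz 0)) (hS.1 (l 1) (hnz 1)) (hS.1 (l 2) (hnz 2))
    (hS.1 (l 3) (hnz 3)) (hS.1 (l 4) (hnz 4)) (hS.1 (l 5) (hnz 5)) (hS.1 (l 6) (hnz 6))
    hX hE hF hG
  have hz : Tendsto (fun _ : ℝ => (0 : ℂ)) atTop (𝓝 0) := tendsto_const_nhds
  have hV := tendsto_nhds_unique (h.congr' (f₂ := fun _ : ℝ => (0 : ℂ)) (by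
    filter_upwards [eventually_gt_atTop (1 : ℝ)] with s hs
    rw [Bone_id]
    have h1 := h0 s hs
    unfold FL at h1
    rw [h1, mul_zero])) hz
  rw [h4, h5, h6] at hV
  unfold Bone_P at hV
  have hV2 : (((((k.count (q : ℤ) : ℤ) - k.count (-(q : ℤ))) *
        Bone_L (neg (l 0)) (neg (l 1)) (neg (l 2)) +
      (((l 4).count (q : ℤ) : ℤ) - (l 4).count (-(q : ℤ))) *
        (Bone_L (neg (l 0)) (neg (l 1)) (neg (l 2)) - 1 + neg (l 1) + neg (l 2)) +
      (((l 5).count (q : ℤ) : ℤ) - (l 5).count (-(q : ℤ))) *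
        (Bone_L (neg (l 0)) (neg (l 1)) (neg (l 2)) - 1 + neg (l 0) + neg (l 2)) +
      (((l 6).count (q : ℤ) : ℤ) - (l 6).count (-(q : ℤ))) *
        (Bone_L (neg (l 0)) (neg (l 1)) (neg (l 2)) - 1 + neg (l 0) + neg (l 1))) : ℤ) : ℂ) =
        0 := by
    rw [← hV]
    unfold Bone_L
    push_cast
    ring
  exact_mod_cast hV2

private theorem Bone_pos (l : List ℤ) (hl : ∀ n ∈ l, n ≠ 0) (h : neg l = 0) :
    ∀ n ∈ l, 0 < n := by
  intro n hn
  unfold neg at h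
  rw [List.countP_eq_zero] at h
  have h1 := h n hn
  have h2 := hl n hn
  rw [decide_eq_true_eq] at h1
  omega

private theorem Bone_step (k l4 l5 l6 : List ℤ) (Λ L4 L5 L6 : ℤ) (hΛ : 1 ≤ Λ)
    (hL4 : Λ + 1 ≤ L4) (hL5 : Λ + 1 ≤ L5) (hL6 : Λ + 1 ≤ L6) (hk : ∀ n ∈ k, n ≠ 0)
    (h4 : ∀ n ∈ l4, 0 < n) (h5 : ∀ n ∈ l5, 0 < n) (h6 : ∀ n ∈ l6, 0 < n) (hn : neg k ≤ 1)
    (hne : 0 < k.length + l4.length + l5.length + l6.length)
    (hN : ∀ q : ℕ, 0 < q → (∀ n ∈ k, (q : ℤ) ≤ |n|) → (∀ n ∈ l4, (q : ℤ) ≤ |n|) →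
      (∀ n ∈ l5, (q : ℤ) ≤ |n|) → (∀ n ∈ l6, (q : ℤ) ≤ |n|) →
      ((k.count (q : ℤ) : ℤ) - k.count (-(q : ℤ))) * Λ +
        ((l4.count (q : ℤ) : ℤ) - l4.count (-(q : ℤ))) * L4 +
        ((l5.count (q : ℤ) : ℤ) - l5.count (-(q : ℤ))) * L5 +
        ((l6.count (q : ℤ) : ℤ) - l6.count (-(q : ℤ))) * L6 = 0) :
    ∃ q : ℕ, 0 < q ∧ k.count (q : ℤ) = 1 ∧ k.count (-(q : ℤ)) = 1 := by
  have hW : ((k ++ (l4 ++ (l5 ++ l6))).toFinset).Nonempty := by
    rw [List.toFinset_nonempty_iff]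
    intro h
    have h1 := congrArg List.length h
    simp only [List.length_append, List.length_nil] at h1
    omega
  obtain ⟨n₀, hn₀, hmin⟩ := Finset.exists_min_image _ (fun n : ℤ => n.natAbs) hW
  rw [List.mem_toFinset, List.mem_append, List.mem_append, List.mem_append] at hn₀
  have hmin' : ∀ n, (n ∈ k ∨ n ∈ l4 ∨ n ∈ l5 ∨ n ∈ l6) → (n₀.natAbs : ℤ) ≤ |n| := by
    intro n h
    rw [Int.abs_eq_natAbs]
    have h1 := hmin n (by
      rw [List.mem_toFinset, List.mem_append, List.mem_append, List.mem_append]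
      exact h)
    exact_mod_cast h1
  have hpos : 0 < n₀.natAbs := by
    rcases hn₀ with h | h | h | h
    · have := hk n₀ h
      omega
    · have := h4 n₀ h
      omega
    · have := h5 n₀ h
      omega
    · have := h6 n₀ h
      omega
  obtain ⟨q, hqd⟩ : ∃ q : ℕ, q = n₀.natAbs := ⟨_, rfl⟩
  rw [← hqd] at hpos hmin'
  have heq := hN q hpos (fun n h => hmin' n (Or.inl h)) (fun n h => hmin' n (Or.inr (Or.inl h)))
    (fun n h => hmin' n (Or.inr (Or.inr (Or.inl h))))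
    (fun n h => hmin' n (Or.inr (Or.inr (Or.inr h))))
  have z4 : l4.count (-(q : ℤ)) = 0 := List.count_eq_zero_of_not_mem fun h => by
    have := h4 _ h
    omega
  have z5 : l5.count (-(q : ℤ)) = 0 := List.count_eq_zero_of_not_mem fun h => by
    have := h5 _ h
    omega
  have z6 : l6.count (-(q : ℤ)) = 0 := List.count_eq_zero_of_not_mem fun h => by
    have := h6 _ h
    omega
  rw [z4, z5, z6] at heq
  have hy : k.count (-(q : ℤ)) ≤ 1 := by
    refine le_trans ?_ hn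
    unfold neg
    rw [List.count_eq_countP]
    refine List.countP_mono_left ?_
    intro x _ hx
    rw [beq_iff_eq] at hx
    rw [decide_eq_true_eq]
    omega
  obtain ⟨x, hx⟩ : ∃ x : ℕ, x = k.count (q : ℤ) := ⟨_, rfl⟩
  obtain ⟨y, hy'⟩ : ∃ y : ℕ, y = k.count (-(q : ℤ)) := ⟨_, rfl⟩
  obtain ⟨u, hu⟩ : ∃ u : ℕ, u = l4.count (q : ℤ) := ⟨_, rfl⟩
  obtain ⟨v, hv⟩ : ∃ v : ℕ, v = l5.count (q : ℤ) := ⟨_, rfl⟩
  obtain ⟨w, hw⟩ : ∃ w : ℕ, w = l6.count (q : ℤ) := ⟨_, rfl⟩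
  rw [← hx, ← hy', ← hu, ← hv, ← hw] at heq
  rw [← hy'] at hy
  push_cast at heq
  rw [sub_zero, sub_zero, sub_zero] at heq
  have b4 : (u : ℤ) * (Λ + 1) ≤ u * L4 := mul_le_mul_of_nonneg_left hL4 (by positivity)
  have b5 : (v : ℤ) * (Λ + 1) ≤ v * L5 := mul_le_mul_of_nonneg_left hL5 (by positivity)
  have b6 : (w : ℤ) * (Λ + 1) ≤ w * L6 := mul_le_mul_of_nonneg_left hL6 (by positivity)
  have hyZ : (y : ℤ) ≤ 1 := by exact_mod_cast hy
  have hxZ : (0 : ℤ) ≤ x := by positivity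
  have b0 : (-1 : ℤ) * Λ ≤ ((x : ℤ) - y) * Λ := mul_le_mul_of_nonneg_right (by linarith)
    (by linarith)
  have huvw : u + v + w = 0 := by
    by_contra hne'
    have h1 : (1 : ℤ) ≤ (u : ℤ) + v + w := by
      have : 1 ≤ u + v + w := by omega
      exact_mod_cast this
    have h2 : (1 : ℤ) * (Λ + 1) ≤ ((u : ℤ) + v + w) * (Λ + 1) :=
      mul_le_mul_of_nonneg_right h1 (by linarith)
    have h3 : ((u : ℤ) + v + w) * (Λ + 1) = u * (Λ + 1) + v * (Λ + 1) + w * (Λ + 1) := by ring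
    linarith
  have hu0 : u = 0 := by omega
  have hv0 : v = 0 := by omega
  have hw0 : w = 0 := by omega
  rw [hu0, hv0, hw0] at heq
  have hxy : (x : ℤ) - y = 0 := by
    have h1 : ((x : ℤ) - y) * Λ = 0 := by
      have := heq
      push_cast at this
      linarith
    rcases mul_eq_zero.1 h1 with h2 | h2
    · exact h2
    · linarith
  have hn₀q : n₀ = (q : ℤ) ∨ n₀ = -(q : ℤ) := by omega
  refine ⟨q, hpos, ?_⟩
  have hor : 1 ≤ x ∨ 1 ≤ y := by
    rcases hn₀ with h | h | h | h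
    · rcases hn₀q with h1 | h1
      · left
        rw [hx]
        rw [h1] at h
        exact List.one_le_count_iff.2 h
      · right
        rw [hy']
        rw [h1] at h
        exact List.one_le_count_iff.2 h
    · exfalso
      have h1 := h4 n₀ h
      have h2 : n₀ = (q : ℤ) := by omega
      rw [h2] at h
      have h3 := List.one_le_count_iff.2 h
      omega
    · exfalso
      have h1 := h5 n₀ h
      have h2 : n₀ = (q : ℤ) := by omega
      rw [h2] at h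
      have h3 := List.one_le_count_iff.2 h
      omega
    · exfalso
      have h1 := h6 n₀ h
      have h2 : n₀ = (q : ℤ) := by omega
      rw [h2] at h
      have h3 := List.one_le_count_iff.2 h
      omega
  rw [← hx, ← hy']
  omega

private theorem Bone_opp (s : ℝ) (hs : 1 < s) (q : ℕ) (hq : 0 < q) :
    ((s : ℂ) ^ (q : ℤ) - 1)⁻¹ + ((s : ℂ) ^ (-(q : ℤ)) - 1)⁻¹ = -1 := by
  have h1 : (s : ℂ) ^ q ≠ 0 := by
    refine pow_ne_zero _ ?_
    exact_mod_cast (by linarith : s ≠ 0)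
  have h2 : (s : ℂ) ^ q - 1 ≠ 0 := by
    intro h
    have h3 : (s : ℂ) ^ q = 1 := sub_eq_zero.1 h
    have h4 : s ^ q = 1 := by exact_mod_cast h3
    have h5 := one_lt_pow₀ hs hq.ne'
    linarith
  rw [zpow_neg, zpow_natCast]
  have h3 : ((s : ℂ) ^ q)⁻¹ - 1 = -((s : ℂ) ^ q - 1) / (s : ℂ) ^ q := by
    field_simp
    ring
  rw [h3]
  field_simp
  ring

theorem thm_Bone : St_Ana → St_Scale → St_Bone := by
  intro hA hS l hV h3 h4 h5 h6 h01 h02 h12 hlen
  have hFL := hA l hV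
  obtain ⟨B, hB0, hB, -⟩ := hV
  have hnz : ∀ i, ∀ n ∈ l i, n ≠ 0 := fun i n hn => hB0 n (hB i n hn)
  obtain ⟨x, hx⟩ : ∃ x : ℤ, x = neg (l 0) := ⟨_, rfl⟩
  obtain ⟨y, hy⟩ : ∃ y : ℤ, y = neg (l 1) := ⟨_, rfl⟩
  obtain ⟨z, hz⟩ : ∃ z : ℤ, z = neg (l 2) := ⟨_, rfl⟩
  have hx0 : 0 ≤ x := by omega
  have hy0 : 0 ≤ y := by omega
  have hz0 : 0 ≤ z := by omega
  have hxy : 2 ≤ x + y := by omega
  have hxz : 2 ≤ x + z := by omega
  have hyz : 2 ≤ y + z := by omega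
  have hΛ : 1 ≤ Bone_L x y z := by
    unfold Bone_L
    rcases hx0.eq_or_lt with h | h
    · rw [← h]
      nlinarith
    · rcases hy0.eq_or_lt with h' | h'
      · rw [← h']
        nlinarith
      · rcases hz0.eq_or_lt with h'' | h''
        · rw [← h'']
          nlinarith
        · have k1 : 0 ≤ x - 1 := by omega
          have k2 : 0 ≤ y - 1 := by omega
          have k3 : 0 ≤ z - 1 := by omega
          nlinarith [mul_nonneg k1 k2, mul_nonneg k1 k3, mul_nonneg k2 k3]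
  have key := Bone_core hS l hFL hnz h4 h5 h6
  rw [← hx, ← hy, ← hz] at key
  have p4 := Bone_pos (l 4) (hnz 4) h4
  have p5 := Bone_pos (l 5) (hnz 5) h5
  have p6 := Bone_pos (l 6) (hnz 6) h6
  obtain ⟨q, hq, hc1, hc2⟩ := Bone_step (l 3) (l 4) (l 5) (l 6) (Bone_L x y z)
    (Bone_L x y z - 1 + y + z) (Bone_L x y z - 1 + x + z) (Bone_L x y z - 1 + x + y) hΛ
    (by linarith) (by linarith) (by linarith) (hnz 3) p4 p5 p6 h3.le (by omega)
    (key (l 3) (fun s _ => by rw [h3, Nat.cast_one, add_comm]))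
  have m1 : (q : ℤ) ∈ l 3 := List.one_le_count_iff.1 hc1.ge
  have m2 : -(q : ℤ) ∈ (l 3).erase (q : ℤ) := by
    rw [List.mem_erase_of_ne (by omega)]
    exact List.one_le_count_iff.1 hc2.ge
  obtain ⟨k, hk⟩ : ∃ k, k = ((l 3).erase (q : ℤ)).erase (-(q : ℤ)) := ⟨_, rfl⟩
  have hperm : (l 3).Perm ((q : ℤ) :: -(q : ℤ) :: k) := by
    rw [hk]
    exact (List.perm_cons_erase m1).trans ((List.perm_cons_erase m2).cons _)
  have hkm : ∀ n ∈ k, n ∈ l 3 := fun n hn =>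
    hperm.symm.subset (List.mem_cons_of_mem _ (List.mem_cons_of_mem _ hn))
  have hnk : neg k = 0 := by
    have h := hperm.countP_eq (fun n : ℤ => decide (n < 0))
    rw [List.countP_cons, List.countP_cons] at h
    have e1 : decide ((q : ℤ) < 0) = false := by
      rw [decide_eq_false_iff_not]
      omega
    have e2 : decide (-(q : ℤ) < 0) = true := by
      rw [decide_eq_true_eq]
      omega
    rw [e1, e2] at h
    unfold neg at h3 ⊢
    rw [h3] at h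
    simp at h
    rw [List.countP_eq_zero]
    intro a ha
    have := h a ha
    simpa using this
  have hlk : (l 3).length = k.length + 2 := by
    have := hperm.length_eq
    simpa using this
  have hck : ∀ s : ℝ, 1 < s → 1 + cs (l 3) (s : ℂ) = cs k (s : ℂ) + neg k := by
    intro s hs
    have h : cs (l 3) (s : ℂ) = ((s : ℂ) ^ (q : ℤ) - 1)⁻¹ +
        (((s : ℂ) ^ (-(q : ℤ)) - 1)⁻¹ + cs k (s : ℂ)) := by
      unfold cs
      rw [(hperm.map _).sum_eq, List.map_cons, List.map_cons, List.sum_cons, List.sum_cons]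
    have h' := Bone_opp s hs q hq
    rw [h, hnk, Nat.cast_zero]
    linear_combination h'
  obtain ⟨q', hq', -, hc2'⟩ := Bone_step k (l 4) (l 5) (l 6) (Bone_L x y z)
    (Bone_L x y z - 1 + y + z) (Bone_L x y z - 1 + x + z) (Bone_L x y z - 1 + x + y) hΛ
    (by linarith) (by linarith) (by linarith) (fun n hn => hnz 3 n (hkm n hn)) p4 p5 p6
    (by omega) (by omega) (key k hck)
  have m3 : -(q' : ℤ) ∈ k := List.one_le_count_iff.1 hc2'.ge
  have := Bone_pos k (fun n hn => hnz 3 n (hkm n hn)) hnk _ m3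
  omega

end Pool.Agent.TRD
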