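import Pool.Agent.TRD.St

/-!
# TRD: CLS (helper15)
-/

set_option autoImplicit false

namespace Pool.Agent.TRD

open Pool.Agent.C8

private lemma Cls_exp (A B c D e f g : ℤ) :
    -(1 - ((1 + A) + (1 + B) + c + (1 + D) + e + f + g) + F7_E2 (1 + A) (1 + B) c (1 + D) e f g -
      F7_D3 (1 + A) (1 + B) c (1 + D) e f g) =
    g + A * f + A * g + B * e + B * g + D * c + D * g + 2 * c * e + 2 * c * f + c * g +
    2 * e * f + e * g + f * g + A * B * D + A * B * e + A * B * f + A * B * g + A * D * c +
    A * D * f + A * D * g + A * c * e + A * c * f + A * c * g + A * e * f + A * e * g +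
    B * D * c + B * D * e + B * D * g + B * c * e + B * c * f + B * c * g + B * e * f +
    B * f * g + D * c * e + D * c * f + D * e * f + D * e * g + D * f * g + c * e * g +
    c * f * g + e * f * g := by
  unfold F7_E2 F7_D3
  ring

private lemma Cls_aux (A B c D e f g : ℤ) (hA : 0 ≤ A) (hB : 0 ≤ B) (hc : 0 ≤ c) (hD : 0 ≤ D)
    (he : 0 ≤ e) (hf : 0 ≤ f) (hg : 0 ≤ g)
    (h : g + A * f + A * g + B * e + B * g + D * c + D * g + 2 * c * e + 2 * c * f + c * g +
    2 * e * f + e * g + f * g + A * B * D + A * B * e + A * B * f + A * B * g + A * D * c +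
    A * D * f + A * D * g + A * c * e + A * c * f + A * c * g + A * e * f + A * e * g +
    B * D * c + B * D * e + B * D * g + B * c * e + B * c * f + B * c * g + B * e * f +
    B * f * g + D * c * e + D * c * f + D * e * f + D * e * g + D * f * g + c * e * g +
    c * f * g + e * f * g = 0) :
    g = 0 ∧ e * f = 0 ∧ c * f = 0 ∧ c * e = 0 ∧ c * D = 0 ∧ e * B = 0 ∧ f * A = 0 ∧
      A * B * D = 0 := by
  have h0 : 0 ≤ g := by positivity
  have h1 : 0 ≤ A * f := by positivity
  have h2 : 0 ≤ A * g := by positivity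
  have h3 : 0 ≤ B * e := by positivity
  have h4 : 0 ≤ B * g := by positivity
  have h5 : 0 ≤ D * c := by positivity
  have h6 : 0 ≤ D * g := by positivity
  have h7 : 0 ≤ c * e := by positivity
  have h8 : 0 ≤ c * f := by positivity
  have h9 : 0 ≤ c * g := by positivity
  have h10 : 0 ≤ e * f := by positivity
  have h11 : 0 ≤ e * g := by positivity
  have h12 : 0 ≤ f * g := by positivity
  have h13 : 0 ≤ A * B * D := by positivity
  have h14 : 0 ≤ A * B * e := by positivity
  have h15 : 0 ≤ A * B * f := by positivity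
  have h16 : 0 ≤ A * B * g := by positivity
  have h17 : 0 ≤ A * D * c := by positivity
  have h18 : 0 ≤ A * D * f := by positivity
  have h19 : 0 ≤ A * D * g := by positivity
  have h20 : 0 ≤ A * c * e := by positivity
  have h21 : 0 ≤ A * c * f := by positivity
  have h22 : 0 ≤ A * c * g := by positivity
  have h23 : 0 ≤ A * e * f := by positivity
  have h24 : 0 ≤ A * e * g := by positivity
  have h25 : 0 ≤ B * D * c := by positivity
  have h26 : 0 ≤ B * D * e := by positivity
  have h27 : 0 ≤ B * D * g := by positivity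
  have h28 : 0 ≤ B * c * e := by positivity
  have h29 : 0 ≤ B * c * f := by positivity
  have h30 : 0 ≤ B * c * g := by positivity
  have h31 : 0 ≤ B * e * f := by positivity
  have h32 : 0 ≤ B * f * g := by positivity
  have h33 : 0 ≤ D * c * e := by positivity
  have h34 : 0 ≤ D * c * f := by positivity
  have h35 : 0 ≤ D * e * f := by positivity
  have h36 : 0 ≤ D * e * g := by positivity
  have h37 : 0 ≤ D * f * g := by positivity
  have h38 : 0 ≤ c * e * g := by positivity
  have h39 : 0 ≤ c * f * g := by positivity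
  have h40 : 0 ≤ e * f * g := by positivity
  refine ⟨?_, ?_, ?_, ?_, ?_, ?_, ?_, ?_⟩ <;> linarith [h0, h1, h2, h3, h4, h5, h6, h7, h8, h9, h10, h11, h12, h13, h14, h15, h16, h17, h18, h19, h20, h21, h22, h23, h24, h25, h26, h27, h28, h29, h30, h31, h32, h33, h34, h35, h36, h37, h38, h39, h40]

/-- the statement CLS -/
theorem thm_Cls : St_Cls := by
  intro a b c d e f g ha hb hc hd he hf hg h
  obtain ⟨A, rfl⟩ : ∃ A, a = 1 + A := ⟨a - 1, by ring⟩
  obtain ⟨B, rfl⟩ : ∃ B, b = 1 + B := ⟨b - 1, by ring⟩
  obtain ⟨D, rfl⟩ : ∃ D, d = 1 + D := ⟨d - 1, by ring⟩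
  have h1 := Cls_exp A B c D e f g
  rw [h, neg_zero] at h1
  have h2 := Cls_aux A B c D e f g (by linarith) (by linarith) hc (by linarith) he hf hg h1.symm
  rw [show 1 + A - 1 = A by ring, show 1 + B - 1 = B by ring, show 1 + D - 1 = D by ring]
  exact h2

end Pool.Agent.TRD
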