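import Pool.Agent.TRD.St

/-!
# TRD: EXC (helper49)
-/

set_option autoImplicit false

namespace Pool.Agent.TRD

open Pool.Agent.C8

private lemma Exc_re (z : ℂ) (hz : ‖z‖ = 1) (l : List ℤ) (h : ∀ n ∈ l, z ^ n ≠ 1) :
    (cs l z).re = -(l.length : ℝ) / 2 := by
  induction l with
  | nil => simp [cs]
  | cons n l ih =>
    have h1 : cs (n :: l) z = (z ^ n - 1)⁻¹ + cs l z := by
      simp [cs]
    rw [h1, Complex.add_re, ih fun m hm => h m (List.mem_cons_of_mem _ hm),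
      F7_re _ (by rw [norm_zpow, hz, one_zpow]) (h n (List.mem_cons_self ..)), List.length_cons]
    push_cast
    ring

private lemma Exc_ne (z : ℂ) (hz : ‖z‖ = 1) (l : List ℤ) (h : ∀ n ∈ l, z ^ n ≠ 1) (hl : l ≠ []) :
    cs l z ≠ 0 := by
  intro h0
  have h1 := Exc_re z hz l h
  rw [h0, Complex.zero_re] at h1
  have h2 : (0 : ℝ) < l.length := by
    exact_mod_cast List.length_pos_iff.2 hl
  linarith

private lemma Exc_id (v x y : ℂ) : F7 0 (-1 - v) (-1 - v) x y v v = -(x * y) := by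
  unfold F7
  ring

theorem thm_Exc : St_Near → St_Exc := by
  intro hN M l hM h0 h1 h2 h5 h6 h3 h4 hVan
  obtain ⟨B, hB0, hB, hV⟩ := hVan
  obtain ⟨z, -, hz, -, hzB⟩ := hN 1 Set.univ B norm_one isOpen_univ (Set.mem_univ _) hB0
  have hne : ∀ i, ∀ n ∈ l i, z ^ n ≠ 1 := fun i n hn => hzB n (hB i n hn)
  have hF := hV z hz hzB
  have hz0 : z ≠ 0 := by
    intro h
    rw [h, norm_zero] at hz
    exact zero_ne_one hz
  obtain ⟨v, hv⟩ : ∃ v : ℂ, v = (z ^ (M : ℤ) - 1)⁻¹ := ⟨_, rfl⟩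
  have hM1 : z ^ (M : ℤ) ≠ 1 := hne 5 _ (by rw [h5]; exact List.mem_singleton_self _)
  have hM2 : z ^ (M : ℤ) - 1 ≠ 0 := sub_ne_zero.2 hM1
  have hM3 : z ^ (M : ℤ) ≠ 0 := zpow_ne_zero _ hz0
  have hcs0 : cs [] z = 0 := by simp [cs]
  have hcs1 : cs [(M : ℤ)] z = v := by simp [cs, hv]
  have hcs2 : cs [-(M : ℤ)] z = -1 - v := by
    have h7 : cs [-(M : ℤ)] z = (z ^ (-(M : ℤ)) - 1)⁻¹ := by simp [cs]
    have h8 : (z ^ (M : ℤ))⁻¹ - 1 = -(z ^ (M : ℤ) - 1) / z ^ (M : ℤ) := by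
      field_simp
      ring
    rw [h7, hv, zpow_neg, h8]
    field_simp
    ring
  unfold FL at hF
  rw [h0, h1, h2, h5, h6, hcs0, hcs1, hcs2, Exc_id, neg_eq_zero, mul_eq_zero] at hF
  rcases hF with h | h
  · exact Exc_ne z hz _ (hne 3) h3 h
  · exact Exc_ne z hz _ (hne 4) h4 h

end Pool.Agent.TRD
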