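import Pool.Agent.TRD.St

/-!
# TRD, module MOVE (helper37): a basis of `F_2^3` is moved to the standard basis.
-/

set_option autoImplicit false

namespace Pool.Agent.TRD

open Pool.Agent.C8

private theorem Move3_inj : ∀ x y z : G, Bas x y z → ∀ t : G,
    t 0 • x + t 1 • y + t 2 • z = 0 → t = 0 := by
  decide +kernel

/-- the map with the images `x`, `y`, `z` of the standard basis -/
private def Move3_lin (x y z : G) : G →ₗ[ZMod 2] G where
  toFun t := t 0 • x + t 1 • y + t 2 • z
  map_add' s t := by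
    simp only [Pi.add_apply, add_smul]
    abel
  map_smul' c t := by
    simp only [Pi.smul_apply, smul_eq_mul, mul_smul, smul_add, RingHom.id_apply]

theorem thm_Move3 : St_Move3 := by
  intro x y z h
  have hinj : Function.Injective (Move3_lin x y z) := by
    rw [← LinearMap.ker_eq_bot, LinearMap.ker_eq_bot']
    intro t ht
    exact Move3_inj x y z h t ht
  refine ⟨(LinearEquiv.ofInjectiveEndo (Move3_lin x y z) hinj).symm, ?_, ?_, ?_⟩
  · rw [LinearEquiv.symm_apply_eq, LinearEquiv.coe_ofInjectiveEndo]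
    show x = (![1, 0, 0] : G) 0 • x + (![1, 0, 0] : G) 1 • y + (![1, 0, 0] : G) 2 • z
    simp
  · rw [LinearEquiv.symm_apply_eq, LinearEquiv.coe_ofInjectiveEndo]
    show y = (![0, 1, 0] : G) 0 • x + (![0, 1, 0] : G) 1 • y + (![0, 1, 0] : G) 2 • z
    simp
  · rw [LinearEquiv.symm_apply_eq, LinearEquiv.coe_ofInjectiveEndo]
    show z = (![0, 0, 1] : G) 0 • x + (![0, 0, 1] : G) 1 • y + (![0, 0, 1] : G) 2 • z
    simp

end Pool.Agent.TRD
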