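import Pool.Agent.TRD.St

/-!
# TRD, module Pole: the largest pole (helper34)
-/

set_option autoImplicit false

open Filter Topology

namespace Pool.Agent.TRD

open Pool.Agent.C8

/-- the bounded part of a class sum -/
private noncomputable def Pole_be (d : ℕ) (l : List ℤ) (z : ℂ) : ℂ := (l.map fun n => F7_b d n z).sum

private theorem Pole_split (d : ℕ) (l : List ℤ) (z : ℂ) (hz : z ≠ 0) (hzd : z ^ d ≠ 1) :
    cs l z = (al d l : ℂ) * (z ^ d - 1)⁻¹ + Pole_be d l z := by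
  induction l with
  | nil => simp [cs, al, Pole_be]
  | cons n l ih =>
    have h1 : cs (n :: l) z = (z ^ n - 1)⁻¹ + cs l z := by simp [cs]
    have h2 : al d (n :: l) = F7_a d n + al d l := by simp [al]
    have h3 : Pole_be d (n :: l) z = F7_b d n z + Pole_be d l z := by simp [Pole_be]
    rw [h1, h2, h3, ih, F7_split d n z hz hzd]
    push_cast
    ring

private theorem Pole_cont (d : ℕ) (hd : 0 < d) (l : List ℤ) (hl : ∀ n ∈ l, n ≠ 0 ∧ |n| ≤ (d : ℤ)) :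
    ContinuousAt (Pole_be d l) (F7_z d) := by
  induction l with
  | nil =>
    have : Pole_be d [] = fun _ => 0 := by
      funext z
      simp [Pole_be]
    rw [this]
    exact continuousAt_const
  | cons n l ih =>
    have h3 : Pole_be d (n :: l) = fun z => F7_b d n z + Pole_be d l z := by
      funext z
      simp [Pole_be]
    rw [h3]
    obtain ⟨h4, h5⟩ := hl n (by simp)
    exact (F7_b_cont d hd n h4 h5).add (ih fun k hk => hl k (by simp [hk]))

private theorem Pole_re (d : ℕ) (hd : 0 < d) (l : List ℤ) (hl : ∀ n ∈ l, n ≠ 0 ∧ |n| ≤ (d : ℤ)) :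
    (Pole_be d l (F7_z d)).re = ((al d l : ℝ) - l.length) / 2 := by
  induction l with
  | nil => simp [Pole_be, al]
  | cons n l ih =>
    have h2 : al d (n :: l) = F7_a d n + al d l := by simp [al]
    have h3 : Pole_be d (n :: l) (F7_z d) = F7_b d n (F7_z d) + Pole_be d l (F7_z d) := by
      simp [Pole_be]
    obtain ⟨h4, h5⟩ := hl n (by simp)
    rw [h3, Complex.add_re, F7_b_re d hd n h4 h5, ih fun k hk => hl k (by simp [hk]), h2,
      List.length_cons]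
    push_cast
    ring

private theorem Pole_three (x y w : ℂ) (hx : x.re ≤ -1 / 2) (hy : y.re ≤ -1) (hw : w.re ≤ -1) :
    (1 + x) * (1 + y) * (1 + w) - x * y * w ≠ 0 := by
  have key0 : ∀ v : ℂ, ‖1 + v‖ ^ 2 = ‖v‖ ^ 2 + (1 + 2 * v.re) := by
    intro v
    rw [← Complex.normSq_eq_norm_sq, ← Complex.normSq_eq_norm_sq, Complex.normSq_apply,
      Complex.normSq_apply, Complex.add_re, Complex.add_im, Complex.one_re, Complex.one_im]
    ring
  have key : ∀ v : ℂ, v.re ≤ -1 → ‖1 + v‖ < ‖v‖ := by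
    intro v hv
    have h1 : ‖1 + v‖ ^ 2 < ‖v‖ ^ 2 := by
      rw [key0]
      linarith
    exact lt_of_pow_lt_pow_left₀ 2 (norm_nonneg _) h1
  have keyx : ‖1 + x‖ ≤ ‖x‖ := by
    have h1 : ‖1 + x‖ ^ 2 ≤ ‖x‖ ^ 2 := by
      rw [key0]
      linarith
    exact le_of_sq_le_sq h1 (norm_nonneg _)
  have hx0 : 0 < ‖x‖ := by
    rw [norm_pos_iff]
    rintro rfl
    norm_num at hx
  intro h
  have h1 := congrArg norm (sub_eq_zero.1 h)
  rw [norm_mul, norm_mul, norm_mul, norm_mul] at h1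
  have h2 : ‖1 + y‖ * ‖1 + w‖ < ‖y‖ * ‖w‖ :=
    mul_lt_mul'' (key y hy) (key w hw) (norm_nonneg _) (norm_nonneg _)
  have h3 : ‖1 + x‖ * (‖1 + y‖ * ‖1 + w‖) < ‖x‖ * (‖y‖ * ‖w‖) :=
    (mul_le_mul_of_nonneg_right keyx (by positivity)).trans_lt (mul_lt_mul_of_pos_left h2 hx0)
  rw [← mul_assoc, ← mul_assoc] at h3
  exact absurd h1 h3.ne

/-- real parts of the second coefficient -/
private theorem Pole_c2 (a b c d e f g a₁ b₁ c₁ d₁ e₁ f₁ g₁ : ℤ) (a' b' c' d' e' f' g' : ℂ)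
    (ha : a'.re = (a₁ : ℝ) / 2) (hb : b'.re = (b₁ : ℝ) / 2)
    (hc : c'.re = (c₁ : ℝ) / 2) (hd : d'.re = (d₁ : ℝ) / 2)
    (he : e'.re = (e₁ : ℝ) / 2) (hf : f'.re = (f₁ : ℝ) / 2)
    (hg : g'.re = (g₁ : ℝ) / 2)
    (hq : 2 * F7_E2 a b c d e f g + F7_M a b c d e f g a₁ b₁ c₁ d₁ e₁ f₁ g₁ ≠ 0) :
    F7_E2 (a : ℂ) b c d e f g + F7_M (a : ℂ) b c d e f g a' b' c' d' e' f' g' ≠ 0 := by
  intro h
  apply hq
  have key : ∀ v : ℂ, v = (v.re : ℂ) + (v.im : ℂ) * Complex.I := fun v => (Complex.re_add_im v).symm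
  have h1 : F7_E2 (a : ℂ) b c d e f g + F7_M (a : ℂ) b c d e f g a' b' c' d' e' f' g' =
      ((((2 * F7_E2 a b c d e f g + F7_M a b c d e f g a₁ b₁ c₁ d₁ e₁ f₁ g₁ : ℤ) : ℝ) / 2 : ℝ) :
        ℂ) + ((F7_M (a : ℝ) b c d e f g a'.im b'.im c'.im d'.im e'.im f'.im g'.im : ℝ) : ℂ) *
          Complex.I := by
    rw [key a', key b', key c', key d', key e', key f', key g', ha, hb, hc, hd, he, hf, hg]
    simp only [Complex.add_im, Complex.ofReal_im, Complex.mul_im, Complex.ofReal_re,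
      Complex.I_im, Complex.I_re, mul_one, mul_zero, add_zero, zero_add]
    unfold F7_E2 F7_M
    push_cast
    ring
  rw [h1] at h
  have h2 := congrArg Complex.re h
  simp only [Complex.add_re, Complex.ofReal_re, Complex.mul_re, Complex.I_re, Complex.ofReal_im,
    Complex.I_im, mul_zero, zero_mul, sub_zero, add_zero, Complex.zero_re] at h2
  have h3 : ((2 * F7_E2 a b c d e f g + F7_M a b c d e f g a₁ b₁ c₁ d₁ e₁ f₁ g₁ : ℤ) : ℝ) = 0 := by
    linarith
  exact_mod_cast h3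

/-- the coefficient of the first power -/
private noncomputable def Pole_c1 (a b c d e f g a' b' c' d' e' f' g' : ℂ) : ℂ :=
  (a + b + c + d + e + f + g) + ((a + b + c + d + e + f + g) *
    (a' + b' + c' + d' + e' + f' + g') - (a * a' + b * b' + c * c' + d * d' + e * e' +
      f * f' + g * g')) + F7_M a' b' c' d' e' f' g' a b c d e f g

/-- The coefficients of the expansion at the largest pole vanish. -/
private theorem Pole_core (hN : St_Near) (d : ℕ) (hd : 0 < d) (l : Fin 7 → List ℤ)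
    (hl : ∀ i, ∀ n ∈ l i, n ≠ 0 ∧ |n| ≤ (d : ℤ)) (hV : Van l) (α : Fin 7 → ℤ)
    (hα : ∀ i, α i = al d (l i)) (β : Fin 7 → ℂ → ℂ) (hβ : ∀ i, β i = Pole_be d (l i)) :
    ¬ (F7_D3 (α 0 : ℂ) (α 1) (α 2) (α 3) (α 4) (α 5) (α 6) ≠ 0 ∨
      (F7_D3 (α 0 : ℂ) (α 1) (α 2) (α 3) (α 4) (α 5) (α 6) = 0 ∧
        F7_E2 (α 0 : ℂ) (α 1) (α 2) (α 3) (α 4) (α 5) (α 6) +
          F7_M (α 0 : ℂ) (α 1) (α 2) (α 3) (α 4) (α 5) (α 6) (β 0 (F7_z d)) (β 1 (F7_z d))
            (β 2 (F7_z d)) (β 3 (F7_z d)) (β 4 (F7_z d)) (β 5 (F7_z d)) (β 6 (F7_z d)) ≠ 0) ∨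
      (F7_D3 (α 0 : ℂ) (α 1) (α 2) (α 3) (α 4) (α 5) (α 6) = 0 ∧
        (∀ z, F7_E2 (α 0 : ℂ) (α 1) (α 2) (α 3) (α 4) (α 5) (α 6) +
          F7_M (α 0 : ℂ) (α 1) (α 2) (α 3) (α 4) (α 5) (α 6) (β 0 z) (β 1 z) (β 2 z) (β 3 z)
            (β 4 z) (β 5 z) (β 6 z) = 0) ∧
        Pole_c1 (α 0 : ℂ) (α 1) (α 2) (α 3) (α 4) (α 5) (α 6) (β 0 (F7_z d)) (β 1 (F7_z d))
            (β 2 (F7_z d)) (β 3 (F7_z d)) (β 4 (F7_z d)) (β 5 (F7_z d)) (β 6 (F7_z d)) ≠ 0)) := by
  intro hcase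
  have hβc : ∀ i, ContinuousAt (β i) (F7_z d) := fun i => by
    rw [hβ]
    exact Pole_cont d hd _ (hl i)
  obtain ⟨c2, hc2⟩ : ∃ c2 : ℂ → ℂ, c2 = fun z =>
      F7_E2 (α 0 : ℂ) (α 1) (α 2) (α 3) (α 4) (α 5) (α 6) +
          F7_M (α 0 : ℂ) (α 1) (α 2) (α 3) (α 4) (α 5) (α 6) (β 0 z) (β 1 z) (β 2 z) (β 3 z)
            (β 4 z) (β 5 z) (β 6 z) := ⟨_, rfl⟩
  obtain ⟨c1, hc1⟩ : ∃ c1 : ℂ → ℂ, c1 = fun z =>
      Pole_c1 (α 0 : ℂ) (α 1) (α 2) (α 3) (α 4) (α 5) (α 6) (β 0 z) (β 1 z) (β 2 z) (β 3 z)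
            (β 4 z) (β 5 z) (β 6 z) := ⟨_, rfl⟩
  obtain ⟨c0, hc0⟩ : ∃ c0 : ℂ → ℂ, c0 = fun z =>
      F7 (β 0 z) (β 1 z) (β 2 z) (β 3 z) (β 4 z) (β 5 z) (β 6 z) := ⟨_, rfl⟩
  have k0 := hβc 0
  have k1 := hβc 1
  have k2 := hβc 2
  have k3 := hβc 3
  have k4 := hβc 4
  have k5 := hβc 5
  have k6 := hβc 6
  have hC2 : ContinuousAt c2 (F7_z d) := by
    rw [hc2]
    unfold F7_E2 F7_M
    fun_prop
  have hC1 : ContinuousAt c1 (F7_z d) := by
    rw [hc1]
    unfold Pole_c1 F7_M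
    fun_prop
  have hC0 : ContinuousAt c0 (F7_z d) := by
    rw [hc0]
    unfold F7
    fun_prop
  have hasy := F7_asy (F7_z d) (fun z => z ^ d - 1) c2 c1 c0
    (F7_D3 (α 0 : ℂ) (α 1) (α 2) (α 3) (α 4) (α 5) (α 6)) (by fun_prop)
    (by rw [(F7_z_prim d hd).pow_eq_one, sub_self]) hC2 hC1 hC0 (by
      rw [hc2, hc1]
      exact hcase)
  obtain ⟨B, hB0, hlB, hvan⟩ := hV
  obtain ⟨U, hU, hUo, hUz⟩ := mem_nhds_iff.1 hasy
  obtain ⟨z, hzU, hz1, hzz, hzB⟩ := hN (F7_z d) U (insert (d : ℤ) B) (F7_z_norm d hd) hUo hUz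
    (by
      intro b hb
      rcases Finset.mem_insert.1 hb with h | h
      · rw [h]
        exact_mod_cast hd.ne'
      · exact hB0 b h)
  have hzd : z ^ d ≠ 1 := by
    have := hzB d (Finset.mem_insert_self _ _)
    rwa [zpow_natCast] at this
  have hzB' : ∀ b ∈ B, z ^ b ≠ 1 := fun b hb => hzB b (Finset.mem_insert_of_mem hb)
  have hz0 : z ≠ 0 := by
    intro h
    rw [h, norm_zero] at hz1
    exact zero_ne_one hz1
  have h9 := hU hzU (sub_ne_zero.2 hzd)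
  have h10 := hvan z hz1 hzB'
  apply h9
  unfold FL at h10
  rw [Pole_split d (l 0) z hz0 hzd, Pole_split d (l 1) z hz0 hzd, Pole_split d (l 2) z hz0 hzd,
    Pole_split d (l 3) z hz0 hzd, Pole_split d (l 4) z hz0 hzd, Pole_split d (l 5) z hz0 hzd,
    Pole_split d (l 6) z hz0 hzd,
    F7_expand, ← hα, ← hα, ← hα, ← hα, ← hα, ← hα, ← hα, ← hβ, ← hβ, ← hβ, ← hβ, ← hβ, ← hβ,
    ← hβ] at h10
  rw [hc2, hc1, hc0]
  exact h10

theorem thm_Pole : St_Near → St_Pole := by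
  intro hN d l hd hld hV hl0 hlne
  have hl : ∀ i, ∀ n ∈ l i, n ≠ 0 ∧ |n| ≤ (d : ℤ) := by
    intro i n hn
    obtain ⟨B, hB0, hlB, -⟩ := hV
    exact ⟨hB0 n (hlB i n hn), hld i n hn⟩
  obtain ⟨α, hα⟩ : ∃ α : Fin 7 → ℤ, ∀ i, α i = al d (l i) := ⟨_, fun _ => rfl⟩
  obtain ⟨β, hβ⟩ : ∃ β : Fin 7 → ℂ → ℂ, ∀ i, β i = Pole_be d (l i) := ⟨_, fun _ => rfl⟩
  have hcore := Pole_core hN d hd l hl hV α hα β hβ
  have hα0 : α 0 = 0 := by
    rw [hα, hl0]
    simp [al]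
  have hβ0 : ∀ z, β 0 z = 0 := by
    intro z
    rw [hβ, hl0]
    simp [Pole_be]
  have hre : ∀ i, (β i (F7_z d)).re = ((α i - (l i).length : ℤ) : ℝ) / 2 := by
    intro i
    rw [hβ, hα, Pole_re d hd _ (hl i)]
    push_cast
    ring
  have hlen : ∀ i, i ≠ 0 → (1 : ℝ) ≤ (l i).length := by
    intro i hi
    have : 0 < (l i).length := List.length_pos_iff.2 (hlne i hi)
    exact_mod_cast this
  rw [← hα 1, ← hα 2, ← hα 3, ← hα 4, ← hα 5, ← hα 6]
  rw [hα0] at hcore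
  have h1 : F7_D3 0 (α 1) (α 2) (α 3) (α 4) (α 5) (α 6) = 0 := by
    by_contra h
    apply hcore
    left
    intro h2
    apply h
    have : ((F7_D3 0 (α 1) (α 2) (α 3) (α 4) (α 5) (α 6) : ℤ) : ℂ) = 0 := by
      rw [← h2]
      unfold F7_D3
      push_cast
      ring
    exact_mod_cast this
  have h1' : F7_D3 ((0 : ℤ) : ℂ) (α 1) (α 2) (α 3) (α 4) (α 5) (α 6) = 0 := by
    have h2 : F7_D3 ((0 : ℤ) : ℂ) (α 1) (α 2) (α 3) (α 4) (α 5) (α 6) =
        ((F7_D3 0 (α 1) (α 2) (α 3) (α 4) (α 5) (α 6) : ℤ) : ℂ) := by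
      unfold F7_D3
      push_cast
      ring
    rw [h2, h1]
    simp
  refine ⟨h1, ?_, ?_⟩
  · by_contra h
    apply hcore
    right
    left
    refine ⟨h1', ?_⟩
    refine Pole_c2 0 _ _ _ _ _ _ 0 _ _ _ _ _ _ _ _ _ _ _ _ _ ?_ (hre 1) (hre 2) (hre 3) (hre 4)
      (hre 5) (hre 6) h
    rw [hβ0]
    simp
  · intro hs
    apply hcore
    right
    right
    refine ⟨h1', ?_, ?_⟩
    · intro z
      rcases hs with ⟨h, -⟩ | ⟨-, h2, h3, h4, h5, h6, h7⟩ | ⟨-, h2, h3, h4, h5, h6, h7⟩ |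
        ⟨-, h2, h3, h4, h5, h6, h7⟩ | ⟨-, h2, h3, h4, h5, h6, h7⟩ | ⟨-, h2, h3, h4, h5, h6, h7⟩ |
        ⟨-, h2, h3, h4, h5, h6, h7⟩
      · exact absurd rfl h
      · rw [h3, h4, h5, h6, h7]
        unfold F7_E2 F7_M
        push_cast
        ring
      · rw [h2, h4, h5, h6, h7]
        unfold F7_E2 F7_M
        push_cast
        ring
      · rw [h2, h3, h5, h6, h7]
        unfold F7_E2 F7_M
        push_cast
        ring
      · rw [h2, h3, h4, h6, h7]
        unfold F7_E2 F7_M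
        push_cast
        ring
      · rw [h2, h3, h4, h5, h7]
        unfold F7_E2 F7_M
        push_cast
        ring
      · rw [h2, h3, h4, h5, h6]
        unfold F7_E2 F7_M
        push_cast
        ring
    · have l1 := hlen 1 (by decide)
      have l2 := hlen 2 (by decide)
      have l3 := hlen 3 (by decide)
      have l4 := hlen 4 (by decide)
      have l5 := hlen 5 (by decide)
      have l6 := hlen 6 (by decide)
      have r1 := hre 1
      have r2 := hre 2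
      have r3 := hre 3
      have r4 := hre 4
      have r5 := hre 5
      have r6 := hre 6
      rw [hβ0]
      rcases hs with ⟨h, -⟩ | ⟨-, h2, h3, h4, h5, h6, h7⟩ | ⟨-, h2, h3, h4, h5, h6, h7⟩ |
        ⟨-, h2, h3, h4, h5, h6, h7⟩ | ⟨-, h2, h3, h4, h5, h6, h7⟩ | ⟨-, h2, h3, h4, h5, h6, h7⟩ |
        ⟨-, h2, h3, h4, h5, h6, h7⟩
      · exact absurd rfl h
      · rw [h3] at r2 ⊢
        rw [h4] at r3 ⊢
        rw [h5] at r4 ⊢
        rw [h6] at r5 ⊢
        rw [h7] at r6 ⊢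
        push_cast at r2 r3 r4 r5 r6
        have e1 := Pole_three (β 2 (F7_z d)) (β 3 (F7_z d) + β 5 (F7_z d))
          (β 4 (F7_z d) + β 6 (F7_z d)) (by linarith) (by rw [Complex.add_re]; linarith)
          (by rw [Complex.add_re]; linarith)
        have e2 : ((α 1 : ℤ) : ℂ) ≠ 0 := by exact_mod_cast h2
        intro h
        apply mul_ne_zero e2 e1
        rw [← h]
        unfold Pole_c1 F7_M
        push_cast
        ring
      · rw [h2] at r1 ⊢
        rw [h4] at r3 ⊢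
        rw [h5] at r4 ⊢
        rw [h6] at r5 ⊢
        rw [h7] at r6 ⊢
        push_cast at r1 r3 r4 r5 r6
        have e1 := Pole_three (β 1 (F7_z d)) (β 3 (F7_z d) + β 6 (F7_z d))
          (β 4 (F7_z d) + β 5 (F7_z d)) (by linarith) (by rw [Complex.add_re]; linarith)
          (by rw [Complex.add_re]; linarith)
        have e2 : ((α 2 : ℤ) : ℂ) ≠ 0 := by exact_mod_cast h3
        intro h
        apply mul_ne_zero e2 e1
        rw [← h]
        unfold Pole_c1 F7_M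
        push_cast
        ring
      · rw [h2] at r1 ⊢
        rw [h3] at r2 ⊢
        rw [h5] at r4 ⊢
        rw [h6] at r5 ⊢
        rw [h7] at r6 ⊢
        push_cast at r1 r2 r4 r5 r6
        have e1 := Pole_three (β 4 (F7_z d)) (β 1 (F7_z d) + β 5 (F7_z d))
          (β 2 (F7_z d) + β 6 (F7_z d)) (by linarith) (by rw [Complex.add_re]; linarith)
          (by rw [Complex.add_re]; linarith)
        have e2 : ((α 3 : ℤ) : ℂ) ≠ 0 := by exact_mod_cast h4
        intro h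
        apply mul_ne_zero e2 e1
        rw [← h]
        unfold Pole_c1 F7_M
        push_cast
        ring
      · rw [h2] at r1 ⊢
        rw [h3] at r2 ⊢
        rw [h4] at r3 ⊢
        rw [h6] at r5 ⊢
        rw [h7] at r6 ⊢
        push_cast at r1 r2 r3 r5 r6
        have e1 := Pole_three (β 3 (F7_z d)) (β 1 (F7_z d) + β 6 (F7_z d))
          (β 2 (F7_z d) + β 5 (F7_z d)) (by linarith) (by rw [Complex.add_re]; linarith)
          (by rw [Complex.add_re]; linarith)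
        have e2 : ((α 4 : ℤ) : ℂ) ≠ 0 := by exact_mod_cast h5
        intro h
        apply mul_ne_zero e2 e1
        rw [← h]
        unfold Pole_c1 F7_M
        push_cast
        ring
      · rw [h2] at r1 ⊢
        rw [h3] at r2 ⊢
        rw [h4] at r3 ⊢
        rw [h5] at r4 ⊢
        rw [h7] at r6 ⊢
        push_cast at r1 r2 r3 r4 r6
        have e1 := Pole_three (β 6 (F7_z d)) (β 1 (F7_z d) + β 3 (F7_z d))
          (β 2 (F7_z d) + β 4 (F7_z d)) (by linarith) (by rw [Complex.add_re]; linarith)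
          (by rw [Complex.add_re]; linarith)
        have e2 : ((α 5 : ℤ) : ℂ) ≠ 0 := by exact_mod_cast h6
        intro h
        apply mul_ne_zero e2 e1
        rw [← h]
        unfold Pole_c1 F7_M
        push_cast
        ring
      · rw [h2] at r1 ⊢
        rw [h3] at r2 ⊢
        rw [h4] at r3 ⊢
        rw [h5] at r4 ⊢
        rw [h6] at r5 ⊢
        push_cast at r1 r2 r3 r4 r5
        have e1 := Pole_three (β 5 (F7_z d)) (β 1 (F7_z d) + β 4 (F7_z d))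
          (β 2 (F7_z d) + β 3 (F7_z d)) (by linarith) (by rw [Complex.add_re]; linarith)
          (by rw [Complex.add_re]; linarith)
        have e2 : ((α 6 : ℤ) : ℂ) ≠ 0 := by exact_mod_cast h7
        intro h
        apply mul_ne_zero e2 e1
        rw [← h]
        unfold Pole_c1 F7_M
        push_cast
        ring

end Pool.Agent.TRD
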