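import Pool.Agent.TRD.St

/-!
# TRD, module Scale: limits of class sums for `s → ∞` (helper31)
-/

set_option autoImplicit false

open Filter Topology

namespace Pool.Agent.TRD

open Pool.Agent.C8

private lemma Scale_real (m q : ℕ) (hm : 0 < m) (hq : q ≤ m) :
    Tendsto (fun s : ℝ => s ^ q * (s ^ m - 1)⁻¹) atTop (𝓝 (if m = q then 1 else 0)) := by
  have h0 : Tendsto (fun s : ℝ => (s ^ m - 1)⁻¹) atTop (𝓝 0) := by
    apply tendsto_inv_atTop_zero.comp
    exact tendsto_atTop_add_const_right _ _ (tendsto_pow_atTop hm.ne')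
  have h1 : Tendsto (fun s : ℝ => 1 + (s ^ m - 1)⁻¹) atTop (𝓝 1) := by
    have h2 := h0.const_add 1
    rwa [add_zero] at h2
  have hne : ∀ s : ℝ, 1 < s → s ^ m - 1 ≠ 0 := by
    intro s hs
    have h3 : 1 < s ^ m := one_lt_pow₀ hs hm.ne'
    linarith
  by_cases h : m = q
  · rw [if_pos h]
    refine h1.congr' ?_
    filter_upwards [eventually_gt_atTop (1 : ℝ)] with s hs
    rw [← h]
    have h4 := hne s hs
    field_simp
    ring
  · rw [if_neg h]
    have hlt : m - q ≠ 0 := by omega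
    have h5 : Tendsto (fun s : ℝ => (s ^ (m - q))⁻¹) atTop (𝓝 0) :=
      tendsto_inv_atTop_zero.comp (tendsto_pow_atTop hlt)
    have h6 := h1.mul h5
    rw [mul_zero] at h6
    refine h6.congr' ?_
    filter_upwards [eventually_gt_atTop (1 : ℝ)] with s hs
    have h4 := hne s hs
    have h7 : s ^ m = s ^ q * s ^ (m - q) := by
      rw [← pow_add, Nat.add_sub_cancel' hq]
    have h8 : s ^ (m - q) ≠ 0 := pow_ne_zero _ (by linarith)
    have h9 : 1 + (s ^ m - 1)⁻¹ = s ^ m * (s ^ m - 1)⁻¹ := by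
      field_simp
      ring
    rw [h9]
    calc s ^ m * (s ^ m - 1)⁻¹ * (s ^ (m - q))⁻¹
        = (s ^ q * s ^ (m - q)) * (s ^ m - 1)⁻¹ * (s ^ (m - q))⁻¹ := by rw [← h7]
      _ = s ^ q * (s ^ m - 1)⁻¹ * (s ^ (m - q) * (s ^ (m - q))⁻¹) := by
          generalize (s ^ m - 1)⁻¹ = x
          generalize (s ^ (m - q))⁻¹ = y
          ring
      _ = s ^ q * (s ^ m - 1)⁻¹ := by
          rw [mul_inv_cancel₀ h8, mul_one]

private lemma Scale_cpx (m q : ℕ) (hm : 0 < m) (hq : q ≤ m) :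
    Tendsto (fun s : ℝ => (s : ℂ) ^ q * ((s : ℂ) ^ m - 1)⁻¹) atTop
      (𝓝 (if m = q then 1 else 0)) := by
  have h1 := (Complex.continuous_ofReal.tendsto _).comp (Scale_real m q hm hq)
  have h2 : ((if m = q then (1 : ℝ) else 0 : ℝ) : ℂ) = if m = q then 1 else 0 := by
    split_ifs <;> simp
  rw [h2] at h1
  refine h1.congr ?_
  intro s
  simp only [Function.comp_apply]
  push_cast
  rfl

private lemma Scale_one (n : ℤ) (q : ℕ) (hn : n ≠ 0) (hq : (q : ℤ) ≤ |n|) :
    Tendsto (fun s : ℝ => (s : ℂ) ^ q * (((s : ℂ) ^ n - 1)⁻¹ + if n < 0 then 1 else 0)) atTop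
      (𝓝 ((if n = (q : ℤ) then 1 else 0) - if n = -(q : ℤ) then 1 else 0)) := by
  rcases lt_or_gt_of_ne hn with h | h
  · obtain ⟨m, rfl⟩ : ∃ m : ℕ, n = -(m : ℤ) := ⟨n.natAbs, by omega⟩
    have hm : 0 < m := by omega
    have hqm : q ≤ m := by
      rw [abs_neg, Nat.abs_cast] at hq
      exact_mod_cast hq
    have h1 := (Scale_cpx m q hm hqm).neg
    have h2 : ((if -(m : ℤ) = (q : ℤ) then 1 else 0) - if -(m : ℤ) = -(q : ℤ) then 1 else 0 : ℂ) =
        -(if m = q then 1 else 0) := by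
      have h3 : ¬ (-(m : ℤ) = (q : ℤ)) := by omega
      rw [if_neg h3, zero_sub]
      by_cases h4 : m = q
      · rw [if_pos h4, if_pos (by rw [h4])]
      · rw [if_neg h4, if_neg (by omega)]
    rw [h2]
    refine h1.congr' ?_
    filter_upwards [eventually_gt_atTop (1 : ℝ)] with s hs
    rw [if_pos h, zpow_neg, zpow_natCast]
    have h5 : (s : ℂ) ^ m ≠ 0 := by
      apply pow_ne_zero
      exact_mod_cast (by linarith : s ≠ 0)
    have h6 : (s : ℂ) ^ m - 1 ≠ 0 := by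
      have h7 : (1 : ℝ) < s ^ m := one_lt_pow₀ hs hm.ne'
      have h8 : (s : ℝ) ^ m - 1 ≠ 0 := by linarith
      exact_mod_cast h8
    have h9 : ((s : ℂ) ^ m)⁻¹ - 1 = -(((s : ℂ) ^ m - 1) * ((s : ℂ) ^ m)⁻¹) := by
      rw [sub_mul, mul_inv_cancel₀ h5, one_mul]
      ring
    rw [h9, inv_neg, mul_inv, inv_inv]
    have h10 : (((s : ℂ) ^ m - 1)⁻¹ * (s : ℂ) ^ m) = 1 + ((s : ℂ) ^ m - 1)⁻¹ := by
      have h11 : (s : ℂ) ^ m = ((s : ℂ) ^ m - 1) + 1 := by ring
      calc (((s : ℂ) ^ m - 1)⁻¹ * (s : ℂ) ^ m)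
          = ((s : ℂ) ^ m - 1)⁻¹ * (((s : ℂ) ^ m - 1) + 1) := by rw [← h11]
        _ = 1 + ((s : ℂ) ^ m - 1)⁻¹ := by
          rw [mul_add, inv_mul_cancel₀ h6, mul_one]
    rw [h10]
    ring
  · obtain ⟨m, rfl⟩ : ∃ m : ℕ, n = (m : ℤ) := ⟨n.natAbs, by omega⟩
    have hm : 0 < m := by omega
    have hqm : q ≤ m := by
      rw [Nat.abs_cast] at hq
      exact_mod_cast hq
    have h1 := Scale_cpx m q hm hqm
    have h2 : ((if (m : ℤ) = (q : ℤ) then 1 else 0) - if (m : ℤ) = -(q : ℤ) then 1 else 0 : ℂ) =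
        (if m = q then 1 else 0) := by
      have h3 : ¬ ((m : ℤ) = -(q : ℤ)) := by omega
      rw [if_neg h3, sub_zero]
      by_cases h4 : m = q
      · rw [if_pos h4, if_pos (by rw [h4])]
      · rw [if_neg h4, if_neg (by omega)]
    rw [h2]
    refine h1.congr ?_
    intro s
    rw [if_neg (by omega), add_zero, zpow_natCast]

private lemma Scale_gen (q : ℕ) (l : List ℤ) (h0 : ∀ n ∈ l, n ≠ 0) (h : ∀ n ∈ l, (q : ℤ) ≤ |n|) :
    Tendsto (fun s : ℝ => (s : ℂ) ^ q * (cs l (s : ℂ) + neg l)) atTop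
      (𝓝 ((l.count (q : ℤ) : ℂ) - l.count (-(q : ℤ)))) := by
  induction l with
  | nil =>
    simp [cs, neg]
  | cons n l ih =>
    have h1 := Scale_one n q (h0 n (by simp)) (h n (by simp))
    have h2 := ih (fun m hm => h0 m (by simp [hm])) (fun m hm => h m (by simp [hm]))
    have h3 := h1.add h2
    have h4 : ((n :: l).count (q : ℤ) : ℂ) - (n :: l).count (-(q : ℤ)) =
        ((if n = (q : ℤ) then 1 else 0) - if n = -(q : ℤ) then 1 else 0) +
          ((l.count (q : ℤ) : ℂ) - l.count (-(q : ℤ))) := by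
      rw [List.count_cons, List.count_cons]
      push_cast
      simp only [beq_iff_eq]
      ring
    rw [h4]
    refine h3.congr ?_
    intro s
    have h5 : (neg (n :: l) : ℂ) = neg l + if n < 0 then 1 else 0 := by
      unfold neg
      rw [List.countP_cons]
      push_cast
      simp only [decide_eq_true_eq]
    have h6 : cs (n :: l) (s : ℂ) = ((s : ℂ) ^ n - 1)⁻¹ + cs l (s : ℂ) := by
      unfold cs
      rw [List.map_cons, List.sum_cons]
    rw [h5, h6]
    ring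

theorem thm_Scale : St_Scale := by
  refine ⟨fun l hl => ?_, fun q l hq h => ?_⟩
  · have h1 := Scale_gen 0 l hl (fun n _ => by simp)
    have h2 : ((l.count ((0 : ℕ) : ℤ) : ℂ) - l.count (-((0 : ℕ) : ℤ))) = 0 := by
      simp
    rw [h2] at h1
    have h3 := h1.sub_const (neg l : ℂ)
    rw [zero_sub] at h3
    refine h3.congr ?_
    intro s
    rw [pow_zero, one_mul]
    ring
  · refine Scale_gen q l (fun n hn h0 => ?_) h
    have h1 := h n hn
    rw [h0, abs_zero] at h1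
    omega

end Pool.Agent.TRD
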