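import Pool.Agent.TRD.St

/-!
# TRD, module Zero (helper44): the limit of `F7` at infinity
-/

set_option autoImplicit false

open Filter Topology

namespace Pool.Agent.TRD

open Pool.Agent.C8

private theorem Zero_cont : Continuous fun v : Fin 7 → ℂ =>
    F7 (v 0) (v 1) (v 2) (v 3) (v 4) (v 5) (v 6) := by
  unfold F7
  fun_prop

private theorem Zero_alg (a b c d e f g : ℤ) :
    F7 (-(a : ℂ)) (-(b : ℂ)) (-(c : ℂ)) (-(d : ℂ)) (-(e : ℂ)) (-(f : ℂ)) (-(g : ℂ)) =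
      ((1 - (a + b + c + d + e + f + g) + F7_E2 a b c d e f g - F7_D3 a b c d e f g : ℤ) : ℂ) := by
  unfold F7 F7_E2 F7_D3
  push_cast
  ring

private theorem Zero_lim (l : Fin 7 → List ℤ)
    (ht : ∀ i, Tendsto (fun s : ℝ => cs (l i) (s : ℂ)) atTop (𝓝 (-(neg (l i) : ℂ)))) :
    Tendsto (fun s : ℝ => FL l (s : ℂ)) atTop
      (𝓝 (F7 (-(neg (l 0) : ℂ)) (-(neg (l 1) : ℂ)) (-(neg (l 2) : ℂ)) (-(neg (l 3) : ℂ))
        (-(neg (l 4) : ℂ)) (-(neg (l 5) : ℂ)) (-(neg (l 6) : ℂ)))) := by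
  have h : Tendsto (fun s : ℝ => fun i : Fin 7 => cs (l i) (s : ℂ)) atTop
      (𝓝 fun i : Fin 7 => -(neg (l i) : ℂ)) := tendsto_pi_nhds.2 ht
  have h2 := (Zero_cont.tendsto (fun i : Fin 7 => -(neg (l i) : ℂ))).comp h
  unfold FL
  exact h2

theorem thm_Zero : St_Ana → St_Scale → St_Zero := by
  intro hA hS l hl
  have hne : ∀ i, ∀ n ∈ l i, n ≠ 0 := by
    obtain ⟨B, hB, hm, _⟩ := hl
    exact fun i n hn => hB n (hm i n hn)
  have hF := Zero_lim l fun i => hS.1 (l i) (hne i)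
  have h0 : Tendsto (fun s : ℝ => FL l (s : ℂ)) atTop (𝓝 0) := by
    refine tendsto_const_nhds.congr' ?_
    filter_upwards [eventually_gt_atTop (1 : ℝ)] with s hs
    exact (hA l hl s hs).symm
  have h := tendsto_nhds_unique hF h0
  have h2 := Zero_alg (neg (l 0)) (neg (l 1)) (neg (l 2)) (neg (l 3)) (neg (l 4)) (neg (l 5))
    (neg (l 6))
  simp only [Int.cast_natCast] at h2
  rw [h] at h2
  exact Int.cast_eq_zero.1 h2.symm

end Pool.Agent.TRD
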