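import Pool.Agent.TRD.Cor
import Pool.Agent.TRD.Ana
import Pool.Agent.TRD.Scale
import Pool.Agent.TRD.Zero
import Pool.Agent.TRD.Bone
import Pool.Agent.TRD.Cls
import Pool.Agent.TRD.Pole
import Pool.Agent.TRD.Arith
import Pool.Agent.TRD.Exc
import Pool.Agent.TRD.Move3
import Pool.Agent.C8.Near

/-!
# TRD: nonvanishing for all sets of nonzero vectors of corank at most three (helper36)
-/

set_option autoImplicit false

namespace Pool.Agent.TRD

theorem corank3 : TRA.CorankN 3 :=
  corankN3 (thm_Zero thm_Ana thm_Scale) (thm_Bone thm_Ana thm_Scale) thm_Cls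
    (thm_Pole C8.thm_Near) thm_Arith (thm_Exc C8.thm_Near) thm_Move3

end Pool.Agent.TRD
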