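import Pool.Agent.TRD.St

/-!
# TRD: six points (helper36)
-/

set_option autoImplicit false

namespace Pool.Agent.TRD

open Pool.Agent.C8

theorem Fin_al_neg (d : ℕ) (hd : 0 < d) (l : List ℤ) (h : ∀ n ∈ l, n < 0) :
    al d l = -(l.count (-(d : ℤ)) : ℤ) := by
  induction l with
  | nil => simp [al]
  | cons n l ih =>
    have h1 := ih fun m hm => h m (List.mem_cons_of_mem _ hm)
    have h2 := h n List.mem_cons_self
    have hd' : (0 : ℤ) < d := by exact_mod_cast hd
    unfold al at h1 ⊢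
    rw [List.map_cons, List.sum_cons, h1, List.count_cons]
    unfold F7_a
    rw [if_neg (by omega)]
    by_cases h3 : n = -(d : ℤ)
    · rw [if_pos h3, if_pos (by simpa using h3)]
      push_cast
      ring
    · rw [if_neg h3, if_neg (by simpa using h3)]
      push_cast
      ring

theorem Fin_al_pos (d : ℕ) (hd : 0 < d) (l : List ℤ) (h : ∀ n ∈ l, 0 < n) :
    al d l = (l.count (d : ℤ) : ℤ) := by
  induction l with
  | nil => simp [al]
  | cons n l ih =>
    have h1 := ih fun m hm => h m (List.mem_cons_of_mem _ hm)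
    have h2 := h n List.mem_cons_self
    have hd' : (0 : ℤ) < d := by exact_mod_cast hd
    unfold al at h1 ⊢
    rw [List.map_cons, List.sum_cons, h1, List.count_cons]
    unfold F7_a
    by_cases h3 : n = (d : ℤ)
    · rw [if_pos h3, if_pos (by simpa using h3)]
      push_cast
      ring
    · rw [if_neg h3, if_neg (by omega), if_neg (by simpa using h3)]
      push_cast
      ring

theorem Fin_one (l : List ℤ) (k : ℤ) (h1 : l.length = 1) (h2 : l.count k = 1) : l = [k] := by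
  obtain ⟨n, rfl⟩ := List.length_eq_one_iff.1 h1
  have h3 : k ∈ [n] := List.count_pos_iff.1 (by omega)
  rw [List.mem_singleton] at h3
  rw [h3]

/-- the largest exponent -/
theorem Fin_max (l : Fin 7 → List ℤ) (i : Fin 7) (hi : l i ≠ []) (h0 : ∀ i, ∀ n ∈ l i, n ≠ 0) :
    ∃ M : ℕ, 0 < M ∧ (∀ i, ∀ n ∈ l i, |n| ≤ (M : ℤ)) ∧ ∃ i, ∃ n ∈ l i, |n| = (M : ℤ) := by
  obtain ⟨n0, hn0⟩ := List.exists_mem_of_ne_nil _ hi
  obtain ⟨T, hT⟩ : ∃ T : Finset ℤ, T = Finset.univ.biUnion fun i => (l i).toFinset := ⟨_, rfl⟩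
  have hmem : ∀ i, ∀ n ∈ l i, n ∈ T := by
    intro i n hn
    rw [hT, Finset.mem_biUnion]
    exact ⟨i, Finset.mem_univ _, List.mem_toFinset.2 hn⟩
  obtain ⟨n1, h1, hmax⟩ := Finset.exists_max_image T (fun n => n.natAbs) ⟨n0, hmem i n0 hn0⟩
  rw [hT, Finset.mem_biUnion] at h1
  obtain ⟨j, -, hj⟩ := h1
  have hj' := List.mem_toFinset.1 hj
  refine ⟨n1.natAbs, Int.natAbs_pos.2 (h0 j n1 hj'), fun k n hn => ?_, j, n1, hj', ?_⟩
  · rw [Int.abs_eq_natAbs]
    exact_mod_cast hmax n (hmem k n hn)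
  · rw [Int.abs_eq_natAbs]

theorem Fin_core (hP : St_Pole) (hA : St_Arith) (hE : St_Exc) (l : Fin 7 → List ℤ)
    (hvan : Van l) (h0 : l 0 = []) (h1 : l 1 ≠ []) (h2 : l 2 ≠ []) (h3 : l 3 ≠ []) (h4 : l 4 ≠ [])
    (h5 : l 5 ≠ []) (h6 : l 6 ≠ []) (s1 : ∀ n ∈ l 1, n < 0) (s2 : ∀ n ∈ l 2, n < 0)
    (s3 : ∀ n ∈ l 3, n < 0) (s4 : ∀ n ∈ l 4, 0 < n) (s5 : ∀ n ∈ l 5, 0 < n)
    (s6 : ∀ n ∈ l 6, 0 < n) (hN : Two (l 1).length (l 2).length (l 3).length)
    (hPs : Two (l 4).length (l 5).length (l 6).length) : False := by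
  have hne : ∀ i, i ≠ 0 → l i ≠ [] := by
    intro i hi
    fin_cases i
    · exact absurd rfl hi
    · exact h1
    · exact h2
    · exact h3
    · exact h4
    · exact h5
    · exact h6
  have hnz : ∀ i, ∀ n ∈ l i, n ≠ 0 := by
    obtain ⟨B, hB0, hB, -⟩ := hvan
    exact fun i n hn => hB0 n (hB i n hn)
  obtain ⟨M, hM, hle, j, n, hn, hnM⟩ := Fin_max l 1 h1 hnz
  obtain ⟨q1, q2, q3⟩ := hP M l hM hle hvan h0 hne
  have hM' : (0 : ℤ) < M := by exact_mod_cast hM
  have a1 := Fin_al_neg M hM (l 1) s1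
  have a2 := Fin_al_neg M hM (l 2) s2
  have a3 := Fin_al_neg M hM (l 3) s3
  have a4 := Fin_al_pos M hM (l 4) s4
  have a5 := Fin_al_pos M hM (l 5) s5
  have a6 := Fin_al_pos M hM (l 6) s6
  rw [a1, a2, a3, a4, a5, a6] at q1 q2 q3
  have c1 : ((l 1).count (-(M : ℤ)) : ℤ) ≤ (l 1).length := by exact_mod_cast List.count_le_length
  have c2 : ((l 2).count (-(M : ℤ)) : ℤ) ≤ (l 2).length := by exact_mod_cast List.count_le_length
  have c3 : ((l 3).count (-(M : ℤ)) : ℤ) ≤ (l 3).length := by exact_mod_cast List.count_le_length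
  have c4 : ((l 4).count (M : ℤ) : ℤ) ≤ (l 4).length := by exact_mod_cast List.count_le_length
  have c5 : ((l 5).count (M : ℤ) : ℤ) ≤ (l 5).length := by exact_mod_cast List.count_le_length
  have c6 : ((l 6).count (M : ℤ) : ℤ) ≤ (l 6).length := by exact_mod_cast List.count_le_length
  have hlen : ∀ i, i ≠ 0 → (1 : ℤ) ≤ (l i).length := by
    intro i hi
    have := List.length_pos_iff.2 (hne i hi)
    omega
  have hmax : ¬ (((l 1).count (-(M : ℤ)) : ℤ) = 0 ∧ ((l 2).count (-(M : ℤ)) : ℤ) = 0 ∧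
      ((l 3).count (-(M : ℤ)) : ℤ) = 0 ∧ ((l 4).count (M : ℤ) : ℤ) = 0 ∧
      ((l 5).count (M : ℤ) : ℤ) = 0 ∧ ((l 6).count (M : ℤ) : ℤ) = 0) := by
    rintro ⟨z1, z2, z3, z4, z5, z6⟩
    have z1' : (l 1).count (-(M : ℤ)) = 0 := by exact_mod_cast z1
    have z2' : (l 2).count (-(M : ℤ)) = 0 := by exact_mod_cast z2
    have z3' : (l 3).count (-(M : ℤ)) = 0 := by exact_mod_cast z3
    have z4' : (l 4).count (M : ℤ) = 0 := by exact_mod_cast z4
    have z5' : (l 5).count (M : ℤ) = 0 := by exact_mod_cast z5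
    have z6' : (l 6).count (M : ℤ) = 0 := by exact_mod_cast z6
    rw [List.count_eq_zero] at z1' z2' z3' z4' z5' z6'
    have hcase : n = M ∨ n = -(M : ℤ) := by
      rcases abs_choice n with h | h <;> omega
    fin_cases j
    · change n ∈ l 0 at hn
      rw [h0] at hn
      exact absurd hn List.not_mem_nil
    · have := s1 n hn
      rcases hcase with h | h
      · omega
      · exact z1' (h ▸ hn)
    · have := s2 n hn
      rcases hcase with h | h
      · omega
      · exact z2' (h ▸ hn)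
    · have := s3 n hn
      rcases hcase with h | h
      · omega
      · exact z3' (h ▸ hn)
    · have := s4 n hn
      rcases hcase with h | h
      · exact z4' (h ▸ hn)
      · omega
    · have := s5 n hn
      rcases hcase with h | h
      · exact z5' (h ▸ hn)
      · omega
    · have := s6 n hn
      rcases hcase with h | h
      · exact z6' (h ▸ hn)
      · omega
  obtain ⟨t2, t3, t6, t7, n2, n3, n6, n7⟩ := hA _ _ _ _ _ _ _ _ _ _ _ _
    (hlen 1 (by decide)) (hlen 2 (by decide)) (hlen 3 (by decide)) (hlen 4 (by decide))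
    (hlen 5 (by decide)) (hlen 6 (by decide)) (Int.natCast_nonneg _) (Int.natCast_nonneg _)
    (Int.natCast_nonneg _) (Int.natCast_nonneg _) (Int.natCast_nonneg _) (Int.natCast_nonneg _)
    c1 c2 c3 c4 c5 c6 hN hPs q1 q2 q3 hmax
  exact hE M l hM h0 (Fin_one _ _ (by exact_mod_cast n2) (by exact_mod_cast t2))
    (Fin_one _ _ (by exact_mod_cast n3) (by exact_mod_cast t3))
    (Fin_one _ _ (by exact_mod_cast n6) (by exact_mod_cast t6))
    (Fin_one _ _ (by exact_mod_cast n7) (by exact_mod_cast t7)) h3 h4 hvan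

end Pool.Agent.TRD
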