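import Pool.Agent.TRD.Main
import Pool.Agent.TRD.Fin

/-!
# TRD: corank three (helper36)
-/

set_option autoImplicit false

open Submodule

namespace Pool.Agent.TRD

open Pool.Agent.C8
open Pool.Agent.SPT (PP Spans NonV NonVs)

theorem Cor_len (l : List ℤ) (h : ∀ n ∈ l, n ≠ 0) :
    neg l + neg (l.map fun n => -n) = l.length := by
  induction l with
  | nil => rfl
  | cons n l ih =>
    have h1 := ih fun m hm => h m (List.mem_cons_of_mem _ hm)
    have h2 := h n List.mem_cons_self
    unfold neg at h1 ⊢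
    rw [List.map_cons, List.countP_cons, List.countP_cons, List.length_cons]
    by_cases h3 : n < 0
    · have h4 : ¬ (-n < 0) := by omega
      simp only [h3, h4, decide_true, decide_false, if_true]
      simp only [Bool.false_eq_true, if_false]
      omega
    · have h4 : -n < 0 := by omega
      simp only [h3, h4, decide_true, decide_false, if_true]
      simp only [Bool.false_eq_true, if_false]
      omega

theorem Cor_pos (l : List ℤ) (h : ∀ n ∈ l, n ≠ 0) (h0 : neg l = 0) : ∀ n ∈ l, 0 < n := by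
  intro n hn
  unfold neg at h0
  rw [List.countP_eq_zero] at h0
  have h1 := h0 n hn
  have h2 := h n hn
  simp only [decide_eq_true_eq] at h1
  omega

theorem Cor_neg (l : List ℤ) (h : ∀ n ∈ l, n ≠ 0) (h0 : neg (l.map fun n => -n) = 0) :
    ∀ n ∈ l, n < 0 := by
  intro n hn
  have h1 := Cor_pos (l.map fun n => -n) (by
    intro m hm
    obtain ⟨k, hk, rfl⟩ := List.mem_map.1 hm
    exact neg_ne_zero.2 (h k hk)) h0 (-n) (List.mem_map.2 ⟨n, hn, rfl⟩)
  omega

theorem Cor_char : ∀ x y z : G, x + y + x = y ∧ x + y + x + z = y + z := by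
  decide +kernel

theorem Cor_dist1 : ∀ x y z : G, Bas x y z → x + y ≠ x ∧ x + y ≠ y ∧ x + y ≠ z ∧
    x + z ≠ x ∧ x + z ≠ y ∧ x + z ≠ z := by
  decide +kernel

theorem Cor_dist2 : ∀ x y z : G, Bas x y z → y + z ≠ x ∧ y + z ≠ y ∧ y + z ≠ z ∧ x + y + z ≠ x ∧
    x + y + z ≠ y ∧ x + y + z ≠ z := by
  decide +kernel

theorem Cor_dist3 : ∀ x y z : G, Bas x y z → x + y ≠ x + z ∧ x + y ≠ y + z ∧ x + y ≠ x + y + z ∧
    x + z ≠ y + z ∧ x + z ≠ x + y + z ∧ y + z ≠ x + y + z := by
  decide +kernel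

theorem Cor_dist4 : ∀ x y z : G, x + y + (x + z) + (y + z) = 0 := by
  decide +kernel

theorem Cor_sum : ∀ x y z : G, Bas x y z → x + y + z ≠ 0 := by
  decide +kernel

theorem Cor_all : ∀ x : G, x ≠ 0 → ∃ y z : G, Bas x y z := by
  decide +kernel

/-- two elements of a set of three -/
theorem Cor_two (f : G → ℕ) (S : Finset G) (a b c : G) (hS : S = {a, b, c})
    (h : ∃ u ∈ S, ∃ v ∈ S, u ≠ v ∧ f u = 1 ∧ f v = 1) : Two (f a) (f b) (f c) := by
  obtain ⟨u, hu, v, hv, huv, h1, h2⟩ := h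
  rw [hS] at hu hv
  simp only [Finset.mem_insert, Finset.mem_singleton] at hu hv
  unfold Two
  rcases hu with rfl | rfl | rfl <;> rcases hv with rfl | rfl | rfl <;>
    first
    | exact absurd rfl huv
    | (push_cast [h1, h2]; simp)

theorem Cor_two' (f : G → ℕ) (S : Finset G) (a b c : G) (hb : Bas a b c) (hS : S = {a, b, c})
    (h : Two (f a) (f b) (f c)) : ∃ u ∈ S, ∃ v ∈ S, u ≠ v ∧ f u = 1 ∧ f v = 1 := by
  have ha : a ∈ S := by rw [hS]; simp
  have hb' : b ∈ S := by rw [hS]; simp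
  have hc : c ∈ S := by rw [hS]; simp
  rcases h with ⟨h1, h2⟩ | ⟨h1, h2⟩ | ⟨h1, h2⟩
  · exact ⟨a, ha, b, hb', hb.2.2.1, by exact_mod_cast h1, by exact_mod_cast h2⟩
  · exact ⟨a, ha, c, hc, hb.2.2.2.2.1.symm, by exact_mod_cast h1, by exact_mod_cast h2⟩
  · exact ⟨b, hb', c, hc, hb.2.2.2.2.2.1.symm, by exact_mod_cast h1, by exact_mod_cast h2⟩

section cor

variable (L : G → List ℤ)

/-- the lists with the opposite signs -/
def opp (y : G) : List ℤ := (L y).map fun n => -n

theorem Cor_final (hP : St_Pole) (hA : St_Arith) (hE : St_Exc)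
    (hvan : ∀ x y z, Bas x y z → Van (lst L x y z)) (hnz : ∀ y, y ≠ 0 → ∀ n ∈ L y, n ≠ 0)
    (x y z : G) (hb : Bas x y z) (hp : L (x + y) = [])
    (S T : Finset G) (hS : S = Finset.univ.filter fun w : G => w ≠ 0 ∧ nu L w ≠ 0)
    (hT : T = Finset.univ.filter fun w : G => w ≠ 0 ∧ nu (opp L) w ≠ 0)
    (hSe : S = {x, y, z}) (hST : Disjoint S T) (hTe : T = {x + y + z, x + z, y + z})
    (h1 : ∃ u ∈ S, ∃ v ∈ S, u ≠ v ∧ nu L u = 1 ∧ nu L v = 1)
    (h2 : ∃ u ∈ T, ∃ v ∈ T, u ≠ v ∧ nu (opp L) u = 1 ∧ nu (opp L) v = 1) : False := by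
  obtain ⟨-, -, hbas, -, -, -⟩ := Main_perm x y z hb
  have hv := hvan (x + y) x z hbas
  obtain ⟨z0, xz0, yz0, xyz0, xy0, -, -, -⟩ := Main_off x y z hb
  obtain ⟨e1, e2⟩ := Cor_char x y z
  have l2 : lst L (x + y) x z 2 = L y := by
    change L (x + y + x) = L y
    rw [e1]
  have l6 : lst L (x + y) x z 6 = L (y + z) := by
    change L (x + y + x + z) = L (y + z)
    rw [e2]
  have hSm : ∀ w, w ∈ S ↔ w ≠ 0 ∧ nu L w ≠ 0 := by
    intro w
    rw [hS, Finset.mem_filter]
    exact and_iff_right (Finset.mem_univ _)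
  have hTm : ∀ w, w ∈ T ↔ w ≠ 0 ∧ nu (opp L) w ≠ 0 := by
    intro w
    rw [hT, Finset.mem_filter]
    exact and_iff_right (Finset.mem_univ _)
  -- an element of `S` has only negative exponents, and they are counted by `nu`
  have hSneg : ∀ w ∈ S, (∀ n ∈ L w, n < 0) ∧ L w ≠ [] ∧ (L w).length = nu L w := by
    intro w hw
    have hw0 := ((hSm w).1 hw).1
    have h3 : nu (opp L) w = 0 := by
      by_contra hne
      exact Finset.disjoint_left.1 hST hw ((hTm w).2 ⟨hw0, hne⟩)
    have h4 := Cor_len (L w) (hnz w hw0)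
    unfold nu opp at h3
    refine ⟨Cor_neg _ (hnz w hw0) h3, ?_, ?_⟩
    · intro h5
      apply ((hSm w).1 hw).2
      unfold nu
      rw [h5]
      rfl
    · unfold nu
      omega
  have hTpos : ∀ w ∈ T, (∀ n ∈ L w, 0 < n) ∧ L w ≠ [] ∧ (L w).length = nu (opp L) w := by
    intro w hw
    have hw0 := ((hTm w).1 hw).1
    have h3 : nu L w = 0 := by
      by_contra hne
      exact Finset.disjoint_left.1 hST ((hSm w).2 ⟨hw0, hne⟩) hw
    have h4 := Cor_len (L w) (hnz w hw0)
    unfold nu at h3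
    refine ⟨Cor_pos _ (hnz w hw0) h3, ?_, ?_⟩
    · intro h5
      apply ((hTm w).1 hw).2
      unfold nu opp
      rw [h5]
      rfl
    · unfold nu opp
      omega
  have mx : x ∈ S := by rw [hSe]; simp
  have my : y ∈ S := by rw [hSe]; simp
  have mz : z ∈ S := by rw [hSe]; simp
  have m4 : x + y + z ∈ T := by rw [hTe]; simp
  have m5 : x + z ∈ T := by rw [hTe]; simp
  have m6 : y + z ∈ T := by rw [hTe]; simp
  have w1 := Cor_two (nu L) S x y z hSe h1
  have w2 := Cor_two (nu (opp L)) T (x + y + z) (x + z) (y + z) hTe h2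
  rw [← (hSneg x mx).2.2, ← (hSneg y my).2.2, ← (hSneg z mz).2.2] at w1
  rw [← (hTpos _ m4).2.2, ← (hTpos _ m5).2.2, ← (hTpos _ m6).2.2] at w2
  refine Fin_core hP hA hE (lst L (x + y) x z) hv hp (hSneg x mx).2.1 ?_ (hSneg z mz).2.1
    (hTpos _ m4).2.1 ?_ ?_ (hSneg x mx).1 ?_ (hSneg z mz).1 (hTpos _ m4).1 ?_ ?_ ?_ ?_
  · rw [l2]; exact (hSneg y my).2.1
  · exact (hTpos _ m5).2.1
  · rw [l6]; exact (hTpos _ m6).2.1
  · rw [l2]; exact (hSneg y my).1
  · exact (hTpos _ m5).1
  · rw [l6]; exact (hTpos _ m6).1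
  · rw [l2]; exact w1
  · rw [l6]; exact w2

theorem Cor_main (hZ : St_Zero) (hB : St_Bone) (hC : St_Cls) (hP : St_Pole) (hA : St_Arith)
    (hE : St_Exc) (hvan : ∀ x y z, Bas x y z → Van (lst L x y z))
    (hvan' : ∀ x y z, Bas x y z → Van (lst (opp L) x y z))
    (hcos : ∀ x y z, Bas x y z → Z3 ((L z).length + (L (x + z)).length + (L (y + z)).length +
      (L (x + y + z)).length))
    (hmiss : ∀ a b, a ≠ 0 → b ≠ 0 → a ≠ b → L a = [] → L b = [] → False) : False := by
  have hnz : ∀ y, y ≠ 0 → ∀ n ∈ L y, n ≠ 0 := by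
    intro x hx n hn
    obtain ⟨y, z, hb⟩ := Cor_all x hx
    obtain ⟨B, hB0, hB, -⟩ := hvan x y z hb
    exact hB0 n (hB 0 n hn)
  have hcos' : ∀ x y z, Bas x y z → Z3 ((opp L z).length + (opp L (x + z)).length +
      (opp L (y + z)).length + (opp L (x + y + z)).length) := by
    intro x y z hb
    unfold opp
    rw [List.length_map, List.length_map, List.length_map, List.length_map]
    exact hcos x y z hb
  obtain ⟨S, hS⟩ : ∃ S : Finset G, S = Finset.univ.filter fun w : G => w ≠ 0 ∧ nu L w ≠ 0 :=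
    ⟨_, rfl⟩
  obtain ⟨T, hT⟩ : ∃ S : Finset G, S = Finset.univ.filter fun w : G => w ≠ 0 ∧ nu (opp L) w ≠ 0 :=
    ⟨_, rfl⟩
  obtain ⟨Z, hZe⟩ : ∃ S : Finset G, S = Finset.univ.filter fun w : G => w ≠ 0 ∧ L w = [] :=
    ⟨_, rfl⟩
  have hSm : ∀ w, w ∈ S ↔ w ≠ 0 ∧ nu L w ≠ 0 := by
    intro w
    rw [hS, Finset.mem_filter]
    exact and_iff_right (Finset.mem_univ _)
  have hTm : ∀ w, w ∈ T ↔ w ≠ 0 ∧ nu (opp L) w ≠ 0 := by
    intro w
    rw [hT, Finset.mem_filter]
    exact and_iff_right (Finset.mem_univ _)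
  have hZm : ∀ w, w ∈ Z ↔ w ≠ 0 ∧ L w = [] := by
    intro w
    rw [hZe, Finset.mem_filter]
    exact and_iff_right (Finset.mem_univ _)
  have c1 := Main_supp L hZ hB hC hvan hcos
  have c2 := Main_supp (opp L) hZ hB hC hvan' hcos'
  rw [← hS] at c1
  rw [← hT] at c2
  have hS3 : S.card ≤ 3 := by
    rcases c1 with h | ⟨x, y, z, -, -, h⟩
    · omega
    · rw [h]; exact Finset.card_le_three
  have hT3 : T.card ≤ 3 := by
    rcases c2 with h | ⟨x, y, z, -, -, h⟩
    · omega
    · rw [h]; exact Finset.card_le_three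
  have hZ1 : Z.card ≤ 1 := by
    rw [Finset.card_le_one]
    intro a ha b hb
    by_contra hab
    exact hmiss a b ((hZm a).1 ha).1 ((hZm b).1 hb).1 hab ((hZm a).1 ha).2 ((hZm b).1 hb).2
  have hcov : (Finset.univ.erase (0 : G)) ⊆ Z ∪ (S ∪ T) := by
    intro w hw
    have hw0 := Finset.ne_of_mem_erase hw
    rw [Finset.mem_union, Finset.mem_union, hZm, hSm, hTm]
    by_cases h1 : L w = []
    · exact Or.inl ⟨hw0, h1⟩
    · right
      by_cases h2 : nu L w = 0
      · right
        refine ⟨hw0, fun h3 => h1 ?_⟩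
        have h4 := Cor_len (L w) (hnz w hw0)
        unfold nu at h2
        unfold nu opp at h3
        exact List.length_eq_zero_iff.1 (by omega)
      · exact Or.inl ⟨hw0, h2⟩
  have h7 : (Finset.univ.erase (0 : G)).card = 7 := by decide
  have h8 := Finset.card_le_card hcov
  have h9 := Finset.card_union_le Z (S ∪ T)
  have h10 := Finset.card_union_add_card_inter S T
  have hSc : S.card = 3 := by omega
  have hTc : T.card = 3 := by omega
  have hZc : Z.card = 1 := by omega
  have hST : Disjoint S T := by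
    rw [Finset.disjoint_iff_inter_eq_empty, ← Finset.card_eq_zero]
    omega
  obtain ⟨x, y, z, hb, htwo, hSe⟩ := c1.resolve_left (by omega)
  obtain ⟨x', y', z', hb', htwo', hTe⟩ := c2.resolve_left (by omega)
  obtain ⟨p, hp⟩ := Finset.card_eq_one.1 hZc
  have hp1 := (hZm p).1 (by rw [hp]; exact Finset.mem_singleton_self p)
  have g1 := Cor_two' (nu L) S x y z hb hSe htwo
  have g2 := Cor_two' (nu (opp L)) T x' y' z' hb' hTe htwo'
  -- a point different from `p` and not in `S` is in `T`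
  have hin : ∀ w, w ≠ 0 → w ≠ p → w ≠ x → w ≠ y → w ≠ z → w ∈ T := by
    intro w hw0 hwp hx hy hz
    have h1 := hcov (Finset.mem_erase.2 ⟨hw0, Finset.mem_univ w⟩)
    rw [Finset.mem_union, Finset.mem_union, hp, Finset.mem_singleton] at h1
    rcases h1 with h1 | h1 | h1
    · exact absurd h1 hwp
    · rw [hSe] at h1
      simp only [Finset.mem_insert, Finset.mem_singleton] at h1
      rcases h1 with h1 | h1 | h1
      · exact absurd h1 hx
      · exact absurd h1 hy
      · exact absurd h1 hz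
    · exact h1
  have hpS : p ≠ x ∧ p ≠ y ∧ p ≠ z := by
    have h1 : ∀ w ∈ S, p ≠ w := by
      rintro w hw rfl
      apply ((hSm p).1 hw).2
      unfold nu
      rw [hp1.2]
      rfl
    exact ⟨h1 x (by rw [hSe]; simp), h1 y (by rw [hSe]; simp), h1 z (by rw [hSe]; simp)⟩
  -- three different points of `T` are `T`
  have hthree : ∀ a b c, a ∈ T → b ∈ T → c ∈ T → a ≠ b → a ≠ c → b ≠ c → T = {a, b, c} := by
    intro a b c ha hb hc hab hac hbc
    symm
    apply Finset.eq_of_subset_of_card_le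
    · intro w hw
      simp only [Finset.mem_insert, Finset.mem_singleton] at hw
      rcases hw with rfl | rfl | rfl
      · exact ha
      · exact hb
      · exact hc
    · rw [hTc, Finset.card_eq_three.2 ⟨a, b, c, hab, hac, hbc, rfl⟩]
  obtain ⟨d1, d2, d3, d4, d5, d6⟩ := Cor_dist1 x y z hb
  obtain ⟨d7, d8, d9, d10, d11, d12⟩ := Cor_dist2 x y z hb
  obtain ⟨d13, d14, d15, d16, d17, d18⟩ := Cor_dist3 x y z hb
  have d19 := Cor_dist4 x y z
  obtain ⟨-, o2, o3, o4, o5, -, -, -⟩ := Main_off x y z hb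
  rcases Main_pts x y z hb p hp1.1 with h | h | h | h | h | h | h
  · exact hpS.1 h
  · exact hpS.2.1 h
  · -- `p = x + y`
    refine Cor_final L hP hA hE hvan hnz x y z hb (by rw [← h]; exact hp1.2) S T hS hT hSe hST ?_
      g1 g2
    refine hthree _ _ _ (hin _ o4 ?_ d10 d11 d12) (hin _ o2 ?_ d4 d5 d6) (hin _ o3 ?_ d7 d8 d9)
      d17.symm d18.symm d16
    · rw [h]; exact d15.symm
    · rw [h]; exact d13.symm
    · rw [h]; exact d14.symm
  · exact hpS.2.2 h
  · -- `p = x + z`
    obtain ⟨hb2, -, -, -, -, -⟩ := Main_perm x y z hb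
    refine Cor_final L hP hA hE hvan hnz x z y hb2 (by rw [← h]; exact hp1.2) S T hS hT ?_ hST ?_
      g1 g2
    · rw [hSe]
      congr 1
      exact Finset.pair_comm y z
    · have e1 : x + z + y = x + y + z := by rw [add_right_comm]
      have e2 : z + y = y + z := add_comm z y
      rw [e1, e2]
      refine hthree _ _ _ (hin _ o4 ?_ d10 d11 d12) (hin _ o5 ?_ d1 d2 d3) (hin _ o3 ?_ d7 d8 d9)
        d15.symm d18.symm d14
      · rw [h]; exact d17.symm
      · rw [h]; exact d13
      · rw [h]; exact d16.symm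
  · -- `p = y + z`
    obtain ⟨-, hb2, -, -, -, -⟩ := Main_perm x y z hb
    refine Cor_final L hP hA hE hvan hnz y z x hb2 (by rw [← h]; exact hp1.2) S T hS hT ?_ hST ?_
      g1 g2
    · rw [hSe]
      ext w
      simp only [Finset.mem_insert, Finset.mem_singleton]
      tauto
    · have e1 : y + z + x = x + y + z := by rw [add_comm (y + z) x, ← add_assoc]
      have e2 : z + x = x + z := add_comm z x
      have e3 : y + x = x + y := add_comm y x
      rw [e1, e2, e3]
      refine hthree _ _ _ (hin _ o4 ?_ d10 d11 d12) (hin _ o5 ?_ d1 d2 d3) (hin _ o2 ?_ d4 d5 d6)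
        d15.symm d17.symm d13
      · rw [h]; exact d18.symm
      · rw [h]; exact d14
      · rw [h]; exact d16
  · -- `p = x + y + z`
    have hTl : T = {x + y, x + z, y + z} := by
      refine hthree _ _ _ (hin _ o5 ?_ d1 d2 d3) (hin _ o2 ?_ d4 d5 d6) (hin _ o3 ?_ d7 d8 d9)
        d13 d14 d16
      · rw [h]; exact d15
      · rw [h]; exact d17
      · rw [h]; exact d18
    have s1 : ∑ w ∈ T, w = x' + y' + z' := by
      rw [hTe, Finset.sum_insert, Finset.sum_pair, add_assoc]
      · exact hb'.2.2.2.2.2.1.symm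
      · simp only [Finset.mem_insert, Finset.mem_singleton, not_or]
        exact ⟨hb'.2.2.1, hb'.2.2.2.2.1.symm⟩
    have s2 : ∑ w ∈ T, w = 0 := by
      rw [hTl, Finset.sum_insert, Finset.sum_pair, ← add_assoc]
      · exact d19
      · exact d16
      · simp only [Finset.mem_insert, Finset.mem_singleton, not_or]
        exact ⟨d13, d14⟩
    exact Cor_sum x' y' z' hb' (s1.symm.trans s2)

end cor

/-! ### the theorem -/

theorem corankN3 (hZ : St_Zero) (hB : St_Bone) (hC : St_Cls) (hP : St_Pole) (hA : St_Arith)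
    (hE : St_Exc) (hM : St_Move3) : TRA.CorankN 3 := by
  intro V _ _ _ _ X h0 hcard u hu
  by_contra hno
  push Not at hno
  have hu' : ∀ v ∈ X, u v ≠ 0 := fun v hv => hu v hv fun h => h0 (h ▸ hv)
  obtain ⟨D, hD⟩ := thm_Dual V X hcard
  have hcosD := thm_Cos V X D h0 hD
  -- vanishing in all coordinates
  have hkey : ∀ u : V → ℤ, (∀ v ∈ X, u v ≠ 0) →
      (∀ z : ℂ, ‖z‖ = 1 → PP X ⊥ (fun v => z ^ u v) = 0) →
      ∀ x y z, Bas x y z → Van (lst (Main_L X D u) x y z) := by
    intro u hu hz x y z hb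
    obtain ⟨g, gx, gy, gz⟩ := hM x y z hb
    have k : (1 : ZMod 2) + 1 = 0 := by decide
    have g3 : g (x + y) = ![1, 1, 0] := by rw [map_add, gx, gy]; decide
    have g5 : g (x + z) = ![1, 0, 1] := by rw [map_add, gx, gz]; decide
    have g6 : g (y + z) = ![0, 1, 1] := by rw [map_add, gy, gz]; decide
    have g7 : g (x + y + z) = ![1, 1, 1] := by rw [map_add, map_add, gx, gy, gz]; decide
    have hmemX : ∀ w, ∀ n ∈ Main_L X D u w, n ∈ X.image u := by
      intro w n hn
      obtain ⟨v, hv, _, rfl⟩ := Main_mem X D u w n hn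
      exact Finset.mem_image_of_mem u hv
    refine ⟨X.image u, ?_, ?_, ?_⟩
    · intro b hb'
      obtain ⟨v, hv, rfl⟩ := Finset.mem_image.1 hb'
      exact hu v hv
    · intro i n hn
      fin_cases i <;> exact hmemX _ n hn
    · intro ζ hζ hζB
      by_contra hne
      refine Main_fin X (fun v => g (D v)) (hcosD.2 g) u ζ
        (fun v hv => hζB _ (Finset.mem_image_of_mem u hv)) ?_ (hz ζ hζ)
      rw [← gx, ← gy, ← g3, ← gz, ← g5, ← g6, ← g7, Main_move_L, Main_move_L, Main_move_L,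
        Main_move_L, Main_move_L, Main_move_L, Main_move_L]
      exact hne
  -- two missing points
  have hmiss : ∀ a b, a ≠ 0 → b ≠ 0 → a ≠ b → Main_L X D u a = [] → Main_L X D u b = [] →
      False := by
    intro a b ha hb hab h1 h2
    obtain ⟨g, ga, gb⟩ := thm_Move a b ha hb hab
    obtain ⟨z, hz, hz'⟩ := Main_A X (fun v => g (D v)) h0 (hcosD.2 g) (by
        rw [← ga, Main_move, ← Main_length X D u a, h1]
        rfl) (by
        rw [← gb, Main_move, ← Main_length X D u b, h2]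
        rfl) u hu'
    exact hz' (hno z hz)
  -- at least three elements outside of a line
  have hcos : ∀ x y z, Bas x y z → Z3 ((Main_L X D u z).length + (Main_L X D u (x + z)).length +
      (Main_L X D u (y + z)).length + (Main_L X D u (x + y + z)).length) := by
    intro x y z hb
    obtain ⟨g, gx, gy, gz⟩ := hM x y z hb
    have g5 : g (x + z) = ![1, 0, 1] := by rw [map_add, gx, gz]; decide
    have g6 : g (y + z) = ![0, 1, 1] := by rw [map_add, gy, gz]; decide
    have g7 : g (x + y + z) = ![1, 1, 1] := by rw [map_add, map_add, gx, gy, gz]; decide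
    have a1 := Main_Z3 X (fun v => g (D v)) h0 (hcosD.2 g) ![0, 0, 1]
    rw [Main_sum] at a1
    simp at a1
    rw [← gz, ← g5, ← g6, ← g7, Main_move, Main_move, Main_move, Main_move] at a1
    rw [Main_length, Main_length, Main_length, Main_length]
    exact a1
  have hopp : ∀ y, opp (Main_L X D u) y = Main_L X D (fun v => -u v) y := by
    intro y
    unfold opp Main_L
    rw [List.map_map]
    rfl
  refine Cor_main (Main_L X D u) hZ hB hC hP hA hE (hkey u hu' hno) ?_ hcos hmiss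
  intro x y z hb
  have h1 := hkey (fun v => -u v) (fun v hv => neg_ne_zero.2 (hu' v hv)) (by
    intro ζ hζ
    have h2 := hno ζ⁻¹ (by rw [norm_inv, hζ, inv_one])
    rw [← h2]
    congr 1
    funext v
    rw [inv_zpow, zpow_neg]) x y z hb
  have h3 : lst (opp (Main_L X D u)) x y z = lst (Main_L X D fun v => -u v) x y z := by
    unfold lst
    rw [hopp, hopp, hopp, hopp, hopp, hopp, hopp]
  rw [h3]
  exact h1

end Pool.Agent.TRD
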