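import Pool.Agent.C8.F7

/-!
# TRD (helper36): nonvanishing for all sets of vectors of corank at most three (MP_42db45_gt)

`F7` is evaluated at the class sums of seven lists of exponents; the list with the index `i` belongs to
the point number `i + 1` of the Fano plane (`1 = ![1,0,0]`, `2 = ![0,1,0]`, `3 = ![1,1,0]`,
`4 = ![0,0,1]`, `5 = ![1,0,1]`, `6 = ![0,1,1]`, `7 = ![1,1,1]`).
-/

set_option autoImplicit false

namespace Pool.Agent.TRD

open Pool.Agent.C8

/-- the value of `F7` for seven lists of exponents -/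
noncomputable def FL (l : Fin 7 → List ℤ) (z : ℂ) : ℂ :=
  F7 (cs (l 0) z) (cs (l 1) z) (cs (l 2) z) (cs (l 3) z) (cs (l 4) z) (cs (l 5) z) (cs (l 6) z)

/-- `FL l` vanishes at all but finitely many points of the circle (and the exponents are not `0`) -/
def Van (l : Fin 7 → List ℤ) : Prop :=
  ∃ B : Finset ℤ, (∀ b ∈ B, b ≠ 0) ∧ (∀ i, ∀ n ∈ l i, n ∈ B) ∧
    ∀ z : ℂ, ‖z‖ = 1 → (∀ b ∈ B, z ^ b ≠ 1) → FL l z = 0

/-- the number of the negative exponents -/
def neg (l : List ℤ) : ℕ := l.countP fun n => decide (n < 0)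

/-- the sum of the signs of the exponents of absolute value `d` -/
def al (d : ℕ) (l : List ℤ) : ℤ := (l.map (F7_a d)).sum

/-- `x`, `y`, `z` are a basis of `G = F_2^3` -/
def Bas (x y z : G) : Prop := x ≠ 0 ∧ y ≠ 0 ∧ x ≠ y ∧ z ≠ 0 ∧ z ≠ x ∧ z ≠ y ∧ z ≠ x + y

instance (x y z : G) : Decidable (Bas x y z) := by
  unfold Bas
  infer_instance

/-- the seven lists of a family `L` of lists indexed by the points, in the coordinates given by the
basis `x`, `y`, `z` -/
def lst (L : G → List ℤ) (x y z : G) : Fin 7 → List ℤ :=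
  ![L x, L y, L (x + y), L z, L (x + z), L (y + z), L (x + y + z)]

end Pool.Agent.TRD
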