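import Pool.Agent.TRD.St
import Pool.Agent.C8.Main
import Pool.Agent.TRA.Defs

/-!
# TRD: assembly (helper36)
-/

set_option autoImplicit false

open Submodule

namespace Pool.Agent.TRD

open Pool.Agent.C8
open Pool.Agent.SPT (PP Spans NonV NonVs)

/-! ### points -/

theorem Main_pts : ∀ x y z : G, Bas x y z → ∀ w : G, w ≠ 0 → w = x ∨ w = y ∨ w = x + y ∨ w = z ∨
    w = x + z ∨ w = y + z ∨ w = x + y + z := by
  decide +kernel

theorem Main_ex : ∀ x y : G, x ≠ 0 → y ≠ 0 → x ≠ y → ∃ z : G, Bas x y z := by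
  decide +kernel

theorem Main_perm : ∀ x y z : G, Bas x y z → Bas x z y ∧ Bas y z x ∧ Bas (x + y) x z ∧
    Bas z x y ∧ Bas z y x ∧ Bas y x z := by
  decide +kernel

theorem Main_off : ∀ x y z : G, Bas x y z → z ≠ 0 ∧ x + z ≠ 0 ∧ y + z ≠ 0 ∧ x + y + z ≠ 0 ∧
    x + y ≠ 0 ∧ Bas x y (x + z) ∧ Bas x y (y + z) ∧ Bas x y (x + y + z) := by
  decide +kernel

/-! ### the classification of the negative exponents -/

section classification

variable (L : G → List ℤ)

/-- the number of negative exponents at a point -/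
def nu (y : G) : ℕ := neg (L y)

theorem Main_line (hZ : St_Zero) (hvan : ∀ x y z, Bas x y z → Van (lst L x y z)) (x y : G)
    (hx : x ≠ 0) (hy : y ≠ 0) (hxy : x ≠ y) (h1 : nu L x ≠ 0) (h2 : nu L y ≠ 0)
    (h3 : nu L (x + y) ≠ 0) (hoff : ∀ w, Bas x y w → nu L w = 0) : False := by
  obtain ⟨z, hz⟩ := Main_ex x y hx hy hxy
  obtain ⟨-, -, -, -, -, o1, o2, o3⟩ := Main_off x y z hz
  have h := hZ _ (hvan x y z hz)
  have e1 : (neg (lst L x y z 0) : ℤ) = nu L x := rfl
  have e2 : (neg (lst L x y z 1) : ℤ) = nu L y := rfl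
  have e3 : (neg (lst L x y z 2) : ℤ) = nu L (x + y) := rfl
  have e4 : (neg (lst L x y z 3) : ℤ) = 0 := by exact_mod_cast hoff z hz
  have e5 : (neg (lst L x y z 4) : ℤ) = 0 := by exact_mod_cast hoff _ o1
  have e6 : (neg (lst L x y z 5) : ℤ) = 0 := by exact_mod_cast hoff _ o2
  have e7 : (neg (lst L x y z 6) : ℤ) = 0 := by exact_mod_cast hoff _ o3
  rw [e1, e2, e3, e4, e5, e6, e7] at h
  have p1 : (1 : ℤ) ≤ nu L x := by exact_mod_cast Nat.one_le_iff_ne_zero.2 h1
  have p2 : (1 : ℤ) ≤ nu L y := by exact_mod_cast Nat.one_le_iff_ne_zero.2 h2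
  have p3 : (1 : ℤ) ≤ nu L (x + y) := by exact_mod_cast Nat.one_le_iff_ne_zero.2 h3
  unfold F7_E2 F7_D3 at h
  nlinarith [mul_nonneg (sub_nonneg.2 p1) (sub_nonneg.2 p2),
    mul_nonneg (sub_nonneg.2 p1) (sub_nonneg.2 p3), mul_nonneg (sub_nonneg.2 p2) (sub_nonneg.2 p3)]

/-- one coloop, in coordinates -/
theorem Main_bone (hB : St_Bone) (hvan : ∀ x y z, Bas x y z → Van (lst L x y z))
    (hcos : ∀ x y z, Bas x y z → Z3 ((L z).length + (L (x + z)).length + (L (y + z)).length +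
      (L (x + y + z)).length)) (x y z : G) (hb : Bas x y z) (h1 : nu L z = 1)
    (h2 : nu L (x + z) = 0) (h3 : nu L (y + z) = 0) (h4 : nu L (x + y + z) = 0)
    (h5 : 2 ≤ nu L x + nu L y) (h6 : 2 ≤ nu L x + nu L (x + y)) (h7 : 2 ≤ nu L y + nu L (x + y)) :
    False := by
  refine hB _ (hvan x y z hb) h1 h2 h3 h4 h5 h6 h7 ?_
  rcases hcos x y z hb with h | h
  · exfalso
    have h8 : (L z).length = 0 := by omega
    have h9 : L z = [] := List.length_eq_zero_iff.1 h8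
    unfold nu neg at h1
    rw [h9] at h1
    simp at h1
  · exact h

theorem Main_basis (hZ : St_Zero) (hB : St_Bone) (hC : St_Cls)
    (hvan : ∀ x y z, Bas x y z → Van (lst L x y z))
    (hcos : ∀ x y z, Bas x y z → Z3 ((L z).length + (L (x + z)).length + (L (y + z)).length +
      (L (x + y + z)).length)) (x y z : G) (hb : Bas x y z) (hx : nu L x ≠ 0) (hy : nu L y ≠ 0)
    (hz : nu L z ≠ 0) :
    Two (nu L x) (nu L y) (nu L z) ∧ ∀ w, w ≠ 0 → nu L w ≠ 0 → w = x ∨ w = y ∨ w = z := by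
  have h := hZ _ (hvan x y z hb)
  obtain ⟨a, ha⟩ : ∃ a : ℕ, a = nu L x := ⟨_, rfl⟩
  obtain ⟨b, hb'⟩ : ∃ a : ℕ, a = nu L y := ⟨_, rfl⟩
  obtain ⟨c, hc⟩ : ∃ a : ℕ, a = nu L (x + y) := ⟨_, rfl⟩
  obtain ⟨d, hd⟩ : ∃ a : ℕ, a = nu L z := ⟨_, rfl⟩
  obtain ⟨e, he⟩ : ∃ a : ℕ, a = nu L (x + z) := ⟨_, rfl⟩
  obtain ⟨f, hf⟩ : ∃ a : ℕ, a = nu L (y + z) := ⟨_, rfl⟩
  obtain ⟨g, hg⟩ : ∃ a : ℕ, a = nu L (x + y + z) := ⟨_, rfl⟩
  have e1 : neg (lst L x y z 0) = a := ha.symm
  have e2 : neg (lst L x y z 1) = b := hb'.symm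
  have e3 : neg (lst L x y z 2) = c := hc.symm
  have e4 : neg (lst L x y z 3) = d := hd.symm
  have e5 : neg (lst L x y z 4) = e := he.symm
  have e6 : neg (lst L x y z 5) = f := hf.symm
  have e7 : neg (lst L x y z 6) = g := hg.symm
  rw [e1, e2, e3, e4, e5, e6, e7] at h
  rw [← ha] at hx
  rw [← hb'] at hy
  rw [← hd] at hz
  obtain ⟨g0, q1, q2, q3, q4, q5, q6, q7⟩ := hC a b c d e f g (by omega) (by omega) (by omega)
    (by omega) (by omega) (by omega) (by omega) h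
  have hg0 : g = 0 := by exact_mod_cast g0
  obtain ⟨p1, p2, -, -, -, -⟩ := Main_perm x y z hb
  have hc0 : c = 0 := by
    by_contra hne
    have hc1 : (c : ℤ) ≠ 0 := by exact_mod_cast hne
    have hf0 : f = 0 := by exact_mod_cast (mul_eq_zero.1 q2).resolve_left hc1
    have he0 : e = 0 := by exact_mod_cast (mul_eq_zero.1 q3).resolve_left hc1
    have hd1 : (d : ℤ) - 1 = 0 := (mul_eq_zero.1 q4).resolve_left hc1
    exact Main_bone L hB hvan hcos x y z hb (by omega) (by omega) (by omega) (by omega) (by omega)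
      (by omega) (by omega)
  have he0 : e = 0 := by
    by_contra hne
    have hc1 : (e : ℤ) ≠ 0 := by exact_mod_cast hne
    have hf0 : f = 0 := by exact_mod_cast (mul_eq_zero.1 q1).resolve_left hc1
    have hd1 : (b : ℤ) - 1 = 0 := (mul_eq_zero.1 q5).resolve_left hc1
    refine Main_bone L hB hvan hcos x z y p1 (by omega) (by omega) ?_ ?_ (by omega)
      (by omega) (by omega)
    · rw [add_comm z y]; omega
    · rw [add_right_comm]; omega
  have hf0 : f = 0 := by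
    by_contra hne
    have hc1 : (f : ℤ) ≠ 0 := by exact_mod_cast hne
    have hd1 : (a : ℤ) - 1 = 0 := (mul_eq_zero.1 q6).resolve_left hc1
    refine Main_bone L hB hvan hcos y z x p2 (by omega) ?_ ?_ ?_ (by omega)
      (by omega) (by omega)
    · rw [add_comm y x]; omega
    · rw [add_comm z x]; omega
    · rw [add_comm (y + z) x, ← add_assoc]; omega
  refine ⟨?_, ?_⟩
  · unfold Two
    have hone : a = 1 ∨ b = 1 ∨ d = 1 := by
      rcases mul_eq_zero.1 q7 with h8 | h8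
      · rcases mul_eq_zero.1 h8 with h9 | h9
        · left; omega
        · right; left; omega
      · right; right; omega
    by_contra hno
    have hcase : (a = 1 ∧ 2 ≤ b ∧ 2 ≤ d) ∨ (b = 1 ∧ 2 ≤ a ∧ 2 ≤ d) ∨ (d = 1 ∧ 2 ≤ a ∧ 2 ≤ b) := by
      rw [← ha, ← hb', ← hd] at hno
      omega
    rcases hcase with ⟨h1, h2, h3⟩ | ⟨h1, h2, h3⟩ | ⟨h1, h2, h3⟩
    · refine Main_bone L hB hvan hcos y z x p2 (by omega) ?_ ?_ ?_ (by omega)
        (by omega) (by omega)
      · rw [add_comm y x]; omega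
      · rw [add_comm z x]; omega
      · rw [add_comm (y + z) x, ← add_assoc]; omega
    · refine Main_bone L hB hvan hcos x z y p1 (by omega) (by omega) ?_ ?_ (by omega)
        (by omega) (by omega)
      · rw [add_comm z y]; omega
      · rw [add_right_comm]; omega
    · exact Main_bone L hB hvan hcos x y z hb (by omega) (by omega) (by omega) (by omega) (by omega)
        (by omega) (by omega)
  · intro w hw hnw
    rcases Main_pts x y z hb w hw with h1 | h1 | h1 | h1 | h1 | h1 | h1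
    · exact Or.inl h1
    · exact Or.inr (Or.inl h1)
    · rw [h1] at hnw; omega
    · exact Or.inr (Or.inr h1)
    · rw [h1] at hnw; omega
    · rw [h1] at hnw; omega
    · rw [h1] at hnw; omega

/-- **the negative exponents are at few points** -/
theorem Main_supp (hZ : St_Zero) (hB : St_Bone) (hC : St_Cls)
    (hvan : ∀ x y z, Bas x y z → Van (lst L x y z))
    (hcos : ∀ x y z, Bas x y z → Z3 ((L z).length + (L (x + z)).length + (L (y + z)).length +
      (L (x + y + z)).length)) :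
    ((Finset.univ.filter fun w : G => w ≠ 0 ∧ nu L w ≠ 0).card ≤ 2) ∨
    ∃ x y z, Bas x y z ∧ Two (nu L x) (nu L y) (nu L z) ∧
      (Finset.univ.filter fun w : G => w ≠ 0 ∧ nu L w ≠ 0) = {x, y, z} := by
  obtain ⟨S, hS⟩ : ∃ S : Finset G, S = Finset.univ.filter fun w : G => w ≠ 0 ∧ nu L w ≠ 0 :=
    ⟨_, rfl⟩
  have hSm : ∀ w, w ∈ S ↔ w ≠ 0 ∧ nu L w ≠ 0 := by
    intro w
    rw [hS, Finset.mem_filter]
    exact and_iff_right (Finset.mem_univ _)
  rw [← hS]
  by_cases hcard : S.card ≤ 2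
  · exact Or.inl hcard
  right
  by_cases hbas : ∃ x y z, x ∈ S ∧ y ∈ S ∧ z ∈ S ∧ Bas x y z
  · obtain ⟨x, y, z, hx, hy, hz, hb⟩ := hbas
    obtain ⟨h1, h2⟩ := Main_basis L hZ hB hC hvan hcos x y z hb ((hSm x).1 hx).2 ((hSm y).1 hy).2
      ((hSm z).1 hz).2
    refine ⟨x, y, z, hb, h1, ?_⟩
    ext w
    simp only [Finset.mem_insert, Finset.mem_singleton]
    constructor
    · intro hw
      exact h2 w ((hSm w).1 hw).1 ((hSm w).1 hw).2
    · rintro (rfl | rfl | rfl)
      · exact hx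
      · exact hy
      · exact hz
  · exfalso
    obtain ⟨x, hx, y, hy, z, hz, hxy, hxz, hyz⟩ := Finset.two_lt_card.1 (by omega : 2 < S.card)
    have hz' : z = x + y := by
      by_contra hne
      exact hbas ⟨x, y, z, hx, hy, hz, ((hSm x).1 hx).1, ((hSm y).1 hy).1, hxy, ((hSm z).1 hz).1,
        hxz.symm, hyz.symm, hne⟩
    refine Main_line L hZ hvan x y ((hSm x).1 hx).1 ((hSm y).1 hy).1 hxy ((hSm x).1 hx).2
      ((hSm y).1 hy).2 (by rw [← hz']; exact ((hSm z).1 hz).2) fun w hw => ?_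
    by_contra hne
    exact hbas ⟨x, y, w, hx, hy, (hSm w).2 ⟨hw.2.2.2.1, hne⟩, hw⟩

end classification

end Pool.Agent.TRD
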