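import Pool.Agent.TRD.Defs

/-!
# TRD: statements of the modules (helper36). Do not change this file.

Notation in the proofs: `v_n = 1 / (s ^ n - 1)`.
-/

set_option autoImplicit false

open Filter Topology

namespace Pool.Agent.TRD

open Pool.Agent.C8

/-- **ANA** (uses `thm_Near` of `Pool/Agent/C8/Near.lean`).  PROOF. Let `B` be as in `Van`.
`U = {z : ℂ | z ≠ 0 ∧ ∀ b ∈ B, z ^ b ≠ 1}` is the complement of a finite set (see `Near_fin`), so open and
preconnected (`Set.Countable.isPathConnected_compl_of_one_lt_rank`), and `FL l` is differentiable, so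
analytic on `U` (all the `n ∈ l i` are in `B`; `DifferentiableOn.analyticOnNhd`).  Let `z₀ ∈ U` be a point
of the circle (`thm_Near 1 Set.univ B`).  By `thm_Near` every neighbourhood of `z₀` contains
`z ≠ z₀` on the circle with `z ^ b ≠ 1` for all `b ∈ B`, and `FL l z = 0`:
`∃ᶠ z in 𝓝[≠] z₀, FL l z = 0`.  So `FL l = 0` on `U`
(`AnalyticOnNhd.eqOn_zero_of_preconnected_of_frequently_eq_zero`), and `(s : ℂ) ∈ U` for real `s > 1`. -/
def St_Ana : Prop := ∀ l : Fin 7 → List ℤ, Van l → ∀ s : ℝ, 1 < s → FL l (s : ℂ) = 0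

/-- **SCALE**.  PROOF. Induction on the list.  For `n ≥ 1`: `1 / (s ^ n - 1) → 0` and
`s ^ q / (s ^ n - 1) → 1` if `n = q`, `→ 0` if `n > q`.  For `n = - m`, `m ≥ 1`:
`1 / (s ^ (- m) - 1) = - 1 - 1 / (s ^ m - 1)`.  (`count` of `- q` counts the exponents `- q`.) -/
def St_Scale : Prop :=
  (∀ l : List ℤ, (∀ n ∈ l, n ≠ 0) →
    Tendsto (fun s : ℝ => cs l (s : ℂ)) atTop (𝓝 (-(neg l : ℂ)))) ∧
  ∀ (q : ℕ) (l : List ℤ), 0 < q → (∀ n ∈ l, (q : ℤ) ≤ |n|) →
    Tendsto (fun s : ℝ => (s : ℂ) ^ q * (cs l (s : ℂ) + neg l)) atTop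
      (𝓝 ((l.count (q : ℤ) : ℂ) - l.count (-(q : ℤ))))

/-- **ZERO** (uses ANA, SCALE).  PROOF. `FL l s = 0` for `s > 1`, let `s → ∞`: `F7 (- ν 0) .. (- ν 6) = 0`
in `ℂ`, `ν i = neg (l i)`, and `F7 = 1 + sum + F7_E2 + F7_D3`; cast to the integers. -/
def St_Zero : Prop := ∀ l : Fin 7 → List ℤ, Van l →
  1 - ((neg (l 0) : ℤ) + neg (l 1) + neg (l 2) + neg (l 3) + neg (l 4) + neg (l 5) + neg (l 6)) +
    F7_E2 (neg (l 0) : ℤ) (neg (l 1)) (neg (l 2)) (neg (l 3)) (neg (l 4)) (neg (l 5)) (neg (l 6)) -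
    F7_D3 (neg (l 0) : ℤ) (neg (l 1)) (neg (l 2)) (neg (l 3)) (neg (l 4)) (neg (l 5))
      (neg (l 6)) = 0

/-- **BONE** (one coloop; uses ANA, SCALE).  PROOF. `a, .., g` for the class sums `cs (l i) s`,
`s > 1` real, `Λ = 1 + a + b + c + a b + a c + b c`.  Identity (ring), with `D = 1 + d`:
`F7 = D (Λ + (1+b+c) e + (1+a+c) f + (1+a+b) g) + e (Λ - (1+b+c)) + f (Λ - (1+a+c)) + g (Λ - (1+a+b))
 + (1+b+c) f g + (1+a+c) e g + (1+a+b) e f + d e f + d e g + d f g + e f g`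
(check it; what matters: every monomial has a factor `D`, `e`, `f` or `g`, the part linear in them is
`D Λ + e (Λ - 1 - b - c) + f (Λ - 1 - a - c) + g (Λ - 1 - a - b)` at `d = - 1`, and the rest is a
combination of products of two of `D, e, f, g` with coefficients polynomial in `a, b, c, d`).
For `s → ∞`: `a → - ν0`, ..., `Λ → Λ0 = 1 - (ν0+ν1+ν2) + (ν0 ν1 + ν0 ν2 + ν1 ν2) ≥ 1` (pair sums `≥ 2`),
`Λ - 1 - b - c → Λ0 - 1 + ν1 + ν2 ≥ Λ0 + 1`, and so on; `D, e, f, g → 0`.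
Let `- m` be the negative exponent of `l 3`.
CORE: suppose `D, e, f, g` are such that for some `q ≥ 1` the functions `s ^ q * D`, `s ^ q * e`,
`s ^ q * f`, `s ^ q * g` converge to integers `D', e', f', g'` with
`D' Λ0 + e' (Λ0 - 1 + ν1 + ν2) + f' (..) + g' (..) ≠ 0`; then `s ^ q * F7` converges to this number, so
`F7 ≠ 0` for large `s`.
Case 1: not (`m ∈ l 3` exactly once and all exponents of `l 4`, `l 5`, `l 6` and the other positive ones
of `l 3` are `> m`).  Take `q` = the minimum of `m` and of all positive exponents of `l 3, .., l 6`, and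
SCALE: `D' = count q (l 3) - count (-q) (l 3)`, `e' = count q (l 4)`, ... If `q < m`: `D', e', f', g' ≥ 0`,
not all `0`.  If `q = m`: `D' ≥ - 1`; if one of `e', f', g'` is `≥ 1` the sum is `≥ - Λ0 + (Λ0 + 1) > 0`;
if `e' = f' = g' = 0`, it is `D' Λ0`, and `D' = count m (l 3) - 1 ≠ 0`.
Case 2: `m` is in `l 3` exactly once and all the other positive exponents of the four lists are `> m`.
The two exponents `m`, `- m` contribute `- 1` to `cs (l 3) s`, so `D = cs k s`, where `k` is `l 3` without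
them; `k`, `l 4`, `l 5`, `l 6` have only positive exponents and are not all empty (total length `≥ 3`).
CORE with `q` = the minimum of these exponents (SCALE for `k`, `l 4`, ..). -/
def St_Bone : Prop := ∀ l : Fin 7 → List ℤ, Van l →
  neg (l 3) = 1 → neg (l 4) = 0 → neg (l 5) = 0 → neg (l 6) = 0 →
  2 ≤ neg (l 0) + neg (l 1) → 2 ≤ neg (l 0) + neg (l 2) → 2 ≤ neg (l 1) + neg (l 2) →
  3 ≤ (l 3).length + (l 4).length + (l 5).length + (l 6).length → False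

/-- **CLS**.  PROOF. Put `a = 1 + a'`, `b = 1 + b'`, `d = 1 + d'`.  The negative of the left side is a
polynomial in `a', b', c, d', e, f, g ≥ 0` with nonnegative coefficients; it contains the monomials `g`,
`2 e f`, `2 c f`, `2 c e`, `c d'`, `b' e`, `a' f`, `a' b' d'`. -/
def St_Cls : Prop := ∀ a b c d e f g : ℤ, 1 ≤ a → 1 ≤ b → 0 ≤ c → 1 ≤ d → 0 ≤ e → 0 ≤ f → 0 ≤ g →
  1 - (a + b + c + d + e + f + g) + F7_E2 a b c d e f g - F7_D3 a b c d e f g = 0 →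
  g = 0 ∧ e * f = 0 ∧ c * f = 0 ∧ c * e = 0 ∧ c * (d - 1) = 0 ∧ e * (b - 1) = 0 ∧ f * (a - 1) = 0 ∧
    (a - 1) * (b - 1) * (d - 1) = 0

/-- **POLE** (the general form of `F7_near` in `Pool/Agent/C8/F7.lean`; uses `thm_Near`).
PROOF. Near `z₀ = F7_z d` we have (for `z ≠ 0`, `z ^ d ≠ 1`, `F7_split`) `cs (l i) z = α i * W + β i z`,
`W = (z ^ d - 1)⁻¹`, `α i = al d (l i)`, `β i z = ∑ n ∈ l i, F7_b d n z` continuous at `z₀` (`F7_b_cont`) with
real part `(α i - m i) / 2` at `z₀`, `m i = (l i).length` (`F7_b_re`); `F7_expand`, `F7_asy`.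
(i) If `F7_D3 α ≠ 0`: `FL ≠ 0` near `z₀`.  (ii) if `F7_D3 α = 0` and the second number is not `0`, the
coefficient of `W ^ 2` has real part `≠ 0` at `z₀` (as in `F7_c2`, with `a' .re = (a - m1) / 2`, ..).
(iii) if exactly one `α i` is not `0`: the coefficients of `W ^ 3`, `W ^ 2` vanish identically, and that of
`W` is, at `z₀`, `α i * ((1 + w) (1 + w') (1 + w'') - w w' w'')`, where `w, w', w''` are the sums of the `β j`
over the two points `≠ i` of the three lines through the point `i` (real parts `- m / 2`).  One of these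
lines contains the missing point `1` (index `0`, `l 0 = []`): real part `≤ - 1 / 2`; the other two sums
have real part `≤ - 1`.  As in `F7_c1`, `F7_three`: `|1 + w| ≤ |w|` if `Re w ≤ - 1 / 2`, `<` if
`Re w ≤ - 1`, and `w ≠ 0`: the coefficient is not `0`.
In each case take a point near `z₀` from `thm_Near` (with `insert d B`), against `Van`. -/
def St_Pole : Prop := ∀ (d : ℕ) (l : Fin 7 → List ℤ), 0 < d → (∀ i, ∀ n ∈ l i, |n| ≤ (d : ℤ)) →
  Van l → l 0 = [] → (∀ i, i ≠ 0 → l i ≠ []) →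
  F7_D3 0 (al d (l 1)) (al d (l 2)) (al d (l 3)) (al d (l 4)) (al d (l 5)) (al d (l 6)) = 0 ∧
  2 * F7_E2 0 (al d (l 1)) (al d (l 2)) (al d (l 3)) (al d (l 4)) (al d (l 5)) (al d (l 6)) +
    F7_M 0 (al d (l 1)) (al d (l 2)) (al d (l 3)) (al d (l 4)) (al d (l 5)) (al d (l 6))
      0 (al d (l 1) - (l 1).length) (al d (l 2) - (l 2).length) (al d (l 3) - (l 3).length)
      (al d (l 4) - (l 4).length) (al d (l 5) - (l 5).length) (al d (l 6) - (l 6).length) = 0 ∧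
  ¬ F7_single 0 (al d (l 1)) (al d (l 2)) (al d (l 3)) (al d (l 4)) (al d (l 5)) (al d (l 6))

/-- two of three numbers are `1` -/
def Two (a b c : ℤ) : Prop := (a = 1 ∧ b = 1) ∨ (a = 1 ∧ c = 1) ∨ (b = 1 ∧ c = 1)

/-- **ARITH**.  PROOF. `3 * 3` cases for the position of the classes with more than one element, and in each
`16` cases for the four `t` (`0` or `1`) of the classes with one element; remaining variables: `n, p ≥ 1`
(sizes), `0 ≤ t ≤ n`, `0 ≤ t' ≤ p`, two equations `C = 0` (the first), `Q = 0` (the second), both bilinear,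
for example (`n = n4`, `p = n5`, all other sizes `1`):
`(t2,t3,t6,t7) = (0,0,1,1)`: `C = - 2 t t' + t' - t`, `Q = - 2 t t' - 2 p t + 2 n t' + p + n` (up to sign):
`C = 0` gives `t = t' = 0`, `Q > 0`; `(0,1,0,1)`: `C = - t'`, `Q = - 2 t t' - p < 0`; `(1,1,1,1)`: the
exceptional case of the conclusion.  By `nlinarith` or by hand.  Checked by program for all sizes `≤ 5`
(first line of the cases: all polynomials are in the file team-store `T3K4_cases_helper36.txt`). -/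
def St_Arith : Prop := ∀ n2 n3 n4 n5 n6 n7 t2 t3 t4 t5 t6 t7 : ℤ,
  1 ≤ n2 → 1 ≤ n3 → 1 ≤ n4 → 1 ≤ n5 → 1 ≤ n6 → 1 ≤ n7 →
  0 ≤ t2 → 0 ≤ t3 → 0 ≤ t4 → 0 ≤ t5 → 0 ≤ t6 → 0 ≤ t7 →
  t2 ≤ n2 → t3 ≤ n3 → t4 ≤ n4 → t5 ≤ n5 → t6 ≤ n6 → t7 ≤ n7 → Two n2 n3 n4 → Two n5 n6 n7 →
  F7_D3 0 (-t2) (-t3) (-t4) t5 t6 t7 = 0 →
  2 * F7_E2 0 (-t2) (-t3) (-t4) t5 t6 t7 + F7_M 0 (-t2) (-t3) (-t4) t5 t6 t7 0 (-t2 - n2) (-t3 - n3)
    (-t4 - n4) (t5 - n5) (t6 - n6) (t7 - n7) = 0 →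
  ¬ F7_single 0 (-t2) (-t3) (-t4) t5 t6 t7 →
  ¬ (t2 = 0 ∧ t3 = 0 ∧ t4 = 0 ∧ t5 = 0 ∧ t6 = 0 ∧ t7 = 0) →
  t2 = 1 ∧ t3 = 1 ∧ t6 = 1 ∧ t7 = 1 ∧ n2 = 1 ∧ n3 = 1 ∧ n6 = 1 ∧ n7 = 1

/-- **EXC** (the exceptional pattern; uses `thm_Near`).  PROOF. With `v = (z ^ M - 1)⁻¹`:
`cs [-M] z = - 1 - v`, `cs [M] z = v`, and `F7 0 (-1-v) (-1-v) x y v v = - x y` (ring).  For `‖z‖ = 1`,
`z ^ b ≠ 1` for `b ∈ B`: `Re x = - (l 3).length / 2 ≠ 0` (`F7_re`), the same for `y`. -/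
def St_Exc : Prop := ∀ (M : ℕ) (l : Fin 7 → List ℤ), 0 < M → l 0 = [] → l 1 = [-(M : ℤ)] →
  l 2 = [-(M : ℤ)] → l 5 = [(M : ℤ)] → l 6 = [(M : ℤ)] → l 3 ≠ [] → l 4 ≠ [] → ¬ Van l

/-- **MOVE**: a basis is moved to the standard basis.  (For example from `C8.thm_Move`, or the inverse of
the map `t ↦ t 0 • x + t 1 • y + t 2 • z`, injective by `Bas`, finite; or `decide` for the injectivity.) -/
def St_Move3 : Prop := ∀ x y z : G, Bas x y z →
  ∃ g : G ≃ₗ[ZMod 2] G, g x = ![1, 0, 0] ∧ g y = ![0, 1, 0] ∧ g z = ![0, 0, 1]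

end Pool.Agent.TRD
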